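import Pool.Agent.LCC.Geo

/-!
# LCC/Alg: commensurability of lengths as an algebraic relation
-/

namespace Pool.Agent.LCC

open UpperHalfPlane
open scoped MatrixGroups commutatorElement

/-- `l ^ p = M ^ q` for an eigenvalue `M > 1` of the square of an element of `Γ`. -/
def Comm (Γ : Subgroup SL(2, ℝ)) (l : ℝ) : Prop :=
  ∃ w ∈ Γ, ∃ M : ℝ, 1 < M ∧ M + M⁻¹ = tr (w ^ 2) ∧ ∃ p q : ℕ, 0 < p ∧ 0 < q ∧ l ^ p = M ^ q

theorem tr_sq (g : SL(2, ℝ)) : tr (g ^ 2) = tr g ^ 2 - 2 := by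
  have hd := det_eq g
  have e : ∀ i j, (g ^ 2 : SL(2, ℝ)) i j = g i 0 * g 0 j + g i 1 * g 1 j := by
    intro i j
    rw [pow_two, Matrix.SpecialLinearGroup.coe_mul, Matrix.mul_apply, Fin.sum_univ_two]
  rw [tr_eq, tr_eq, e, e]
  linear_combination -2 * hd

theorem comm_of_lengths {Γ₁ Γ₂ : Subgroup SL(2, ℝ)} (h : lengths Γ₂ ⊆ ratMul (lengths Γ₁))
    {γ : SL(2, ℝ)} (hγ : γ ∈ Γ₂) (ht : 2 < tr γ) :
    ∃ l : ℝ, 1 < l ∧ l + l⁻¹ = tr γ ∧ Comm Γ₁ l := by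
  obtain ⟨x, hx0, hx⟩ : ∃ x : ℝ, 0 < x ∧ 2 * Real.cosh x = tr γ := by
    refine ⟨Real.arcosh (tr γ / 2), Real.arcosh_pos (by linarith), ?_⟩
    rw [Real.cosh_arcosh (by linarith)]
    ring
  have hmem : 2 * x ∈ lengths Γ₂ := by
    rw [mem_lengths_iff]
    refine ⟨by positivity, γ, hγ, ?_⟩
    rw [mul_div_cancel_left₀ _ (two_ne_zero), hx, abs_of_pos (by linarith)]
  obtain ⟨r, ℓ, hℓ, hr⟩ := h hmem
  obtain ⟨hℓ0, w, hw, hwt⟩ := mem_lengths_iff.mp hℓ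
  have hr0 : 0 < r := by
    have : (0 : ℝ) < r * ℓ := by rw [← hr]; positivity
    exact_mod_cast (mul_pos_iff_of_pos_right hℓ0).mp this
  refine ⟨Real.exp x, Real.one_lt_exp_iff.mpr hx0, ?_, w, hw, Real.exp ℓ, Real.one_lt_exp_iff.mpr hℓ0, ?_,
    2 * r.den, r.num.toNat, by have := r.den_pos; positivity, by
      have := Rat.num_pos.mpr hr0
      omega, ?_⟩
  · rw [← Real.exp_neg, ← hx, Real.cosh_eq]
    ring
  · rw [tr_sq, ← sq_abs, hwt, ← Real.exp_neg]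
    have h1 := Real.cosh_two_mul (ℓ / 2)
    rw [show 2 * (ℓ / 2) = ℓ by ring, Real.sinh_sq] at h1
    have h2 := Real.cosh_eq ℓ
    nlinarith
  · rw [← Real.exp_nat_mul, ← Real.exp_nat_mul]
    congr 1
    have h1 : ((r.num.toNat : ℕ) : ℝ) = (r.num : ℝ) := by
      have : ((r.num.toNat : ℕ) : ℤ) = r.num := Int.toNat_of_nonneg (Rat.num_pos.mpr hr0).le
      exact_mod_cast this
    have h2 : (r : ℝ) * r.den = r.num := by exact_mod_cast Rat.mul_den_eq_num r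
    push_cast
    rw [h1]
    linear_combination (r.den : ℝ) * hr + ℓ * h2

section field

variable {K : Type*} [Field K] [Algebra K ℝ]

theorem isIntegral_of_add_inv {M : ℝ} (hM : M ≠ 0) {τ : K} (h : M + M⁻¹ = algebraMap K ℝ τ) :
    IsIntegral K M := by
  refine ⟨Polynomial.X ^ 2 - Polynomial.C τ * Polynomial.X + 1, ?_, ?_⟩
  · monicity!
  · simp only [Polynomial.eval₂_add, Polynomial.eval₂_sub, Polynomial.eval₂_mul, Polynomial.eval₂_pow,
      Polynomial.eval₂_X, Polynomial.eval₂_C, Polynomial.eval₂_one]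
    rw [← h]
    field_simp
    ring

theorem isIntegral_of_pow_eq {l M : ℝ} (hM : M ≠ 0) {τ : K} (h : M + M⁻¹ = algebraMap K ℝ τ) {p q : ℕ}
    (hp : 0 < p) (hpq : l ^ p = M ^ q) : IsIntegral K l := by
  apply IsIntegral.of_pow hp
  rw [hpq]
  exact (isIntegral_of_add_inv hM h).pow q

theorem norm_alg [Algebra K ℂ] [IsScalarTower K ℝ ℂ] (α : algebraicClosure K ℝ →ₐ[K] ℂ)
    {l M : algebraicClosure K ℝ} (hl : 1 < (l : ℝ)) (hM : 1 < (M : ℝ)) {τ : K}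
    (h : (M : ℝ) + (M : ℝ)⁻¹ = algebraMap K ℝ τ) {p q : ℕ} (hp : 0 < p) (hpq : (l : ℝ) ^ p = (M : ℝ) ^ q) :
    ‖α l‖ = l ∨ ‖α l‖ = (l : ℝ)⁻¹ := by
  have hM0 : M ≠ 0 := by
    rintro rfl
    norm_num at hM
  have h1 : M + M⁻¹ = algebraMap K (algebraicClosure K ℝ) τ := Subtype.ext h
  have h2 : α M + (α M)⁻¹ = algebraMap K ℂ τ := by
    rw [← α.commutes, ← h1, map_add, map_inv₀]
  have h3 : α M + (α M)⁻¹ = ((M : ℝ) : ℂ) + ((M : ℝ) : ℂ)⁻¹ := by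
    rw [h2, IsScalarTower.algebraMap_apply K ℝ ℂ, ← h]
    simp
  have hm0 : α M ≠ 0 := (map_ne_zero α).mpr hM0
  have hM0' : ((M : ℝ) : ℂ) ≠ 0 := by exact_mod_cast (by linarith : (M : ℝ) ≠ 0)
  have h4 : (α M - (M : ℝ)) * (α M - ((M : ℝ) : ℂ)⁻¹) = 0 := by
    have : (α M - (M : ℝ)) * (α M - ((M : ℝ) : ℂ)⁻¹) =
      α M * ((α M + (α M)⁻¹) - (((M : ℝ) : ℂ) + ((M : ℝ) : ℂ)⁻¹)) := by
      field_simp
      ring
    rw [this, h3]
    ring
  have h5 : α l ^ p = α M ^ q := by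
    rw [← map_pow, ← map_pow]
    congr 1
    exact Subtype.ext hpq
  have h6 : ‖α l‖ ^ p = ‖α M‖ ^ q := by rw [← norm_pow, h5, norm_pow]
  rcases mul_eq_zero.mp h4 with h7 | h7
  · left
    have h8 : ‖α M‖ = M := by
      rw [sub_eq_zero.mp h7, Complex.norm_real, Real.norm_of_nonneg (by linarith)]
    rw [h8, ← hpq] at h6
    exact (pow_left_inj₀ (norm_nonneg _) (by linarith) hp.ne').mp h6
  · right
    have h8 : ‖α M‖ = (M : ℝ)⁻¹ := by
      rw [sub_eq_zero.mp h7, norm_inv, Complex.norm_real, Real.norm_of_nonneg (by linarith)]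
    rw [h8, inv_pow, ← hpq, ← inv_pow] at h6
    exact (pow_left_inj₀ (norm_nonneg _) (inv_nonneg.mpr (by linarith)) hp.ne').mp h6

/-- the elementary estimate behind `mem_range_of_forall` -/
theorem eq_of_norm_bounds {b : ℝ} (hb : 0 < b) {β : ℂ}
    (h : ∀ k : ℕ, 0 < k → (2 + k * b) ^ 2 - 4 ≤ ‖2 + (k : ℂ) * β‖ ^ 2 ∧ ‖2 + (k : ℂ) * β‖ ^ 2 ≤ (2 + k * b) ^ 2) :
    β = b := by
  have h' : ∀ k : ℕ, 0 < k → (2 + k * b) ^ 2 - 4 ≤ (2 + k * β.re) ^ 2 + k ^ 2 * β.im ^ 2 ∧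
      (2 + k * β.re) ^ 2 + k ^ 2 * β.im ^ 2 ≤ (2 + k * b) ^ 2 := by
    intro k hk
    have e : ‖2 + (k : ℂ) * β‖ ^ 2 = (2 + k * β.re) ^ 2 + k ^ 2 * β.im ^ 2 := by
      rw [Complex.sq_norm, Complex.normSq_apply]
      simp
      ring
    rw [← e]
    exact h k hk
  set x := β.re
  set y := β.im
  have h1 : x ^ 2 + y ^ 2 ≤ b ^ 2 := by
    by_contra hc
    push Not at hc
    obtain ⟨k, hk⟩ := exists_nat_gt (4 * (|b| + |x|) / (x ^ 2 + y ^ 2 - b ^ 2))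
    have hk0 : 0 < k := by
      have : (0 : ℝ) < k := lt_of_le_of_lt (div_nonneg (by positivity) (by linarith)) hk
      exact_mod_cast this
    rw [div_lt_iff₀ (by linarith)] at hk
    have h2 := (h' k hk0).2
    have h3 : (k : ℝ) * (4 * x + k * (x ^ 2 + y ^ 2)) ≤ k * (4 * b + k * b ^ 2) := by nlinarith
    have h4 := le_of_mul_le_mul_left h3 (by exact_mod_cast hk0)
    have h5 := le_abs_self b
    have h6 := neg_abs_le x
    nlinarith
  have h2 : x ≤ b := by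
    have : x ^ 2 ≤ b ^ 2 := by nlinarith [sq_nonneg y]
    exact (abs_le_of_sq_le_sq' this hb.le).2
  have h3 : x = b := by
    by_contra hc
    have hc' : 0 < b - x := by
      have := lt_of_le_of_ne h2 hc
      linarith
    obtain ⟨k, hk⟩ := exists_nat_gt (1 / (b - x))
    have hk0 : 0 < k := by
      have : (0 : ℝ) < k := lt_of_le_of_lt (div_nonneg (by positivity) hc'.le) hk
      exact_mod_cast this
    rw [div_lt_iff₀ hc'] at hk
    have h4 := (h' k hk0).1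
    have h5 : (0 : ℝ) ≤ k ^ 2 * (b ^ 2 - (x ^ 2 + y ^ 2)) := mul_nonneg (by positivity) (by linarith)
    nlinarith
  have h4 : y = 0 := by
    have : y ^ 2 ≤ 0 := by rw [h3] at h1; linarith
    exact pow_eq_zero_iff two_ne_zero |>.mp (le_antisymm this (sq_nonneg y))
  apply Complex.ext
  · exact h3
  · exact h4

theorem mem_range_of_forall [Algebra K ℂ] [IsScalarTower K ℝ ℂ] {b : ℝ} (hb : 0 < b)
    (h : ∀ k : ℕ, 0 < k → ∃ l : ℝ, 1 < l ∧ l + l⁻¹ = 2 + k * b ∧ ∃ M : ℝ, ∃ τ : K,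
      1 < M ∧ M + M⁻¹ = algebraMap K ℝ τ ∧ ∃ p q : ℕ, 0 < p ∧ 0 < q ∧ l ^ p = M ^ q) :
    b ∈ Set.range (algebraMap K ℝ) := by
  have : CharZero K := (algebraMap K ℝ).charZero
  have key : ∀ k : ℕ, 0 < k → ∃ l M : algebraicClosure K ℝ, ∃ τ : K, 1 < (l : ℝ) ∧ (l : ℝ) + (l : ℝ)⁻¹ = 2 + k * b ∧
      1 < (M : ℝ) ∧ (M : ℝ) + (M : ℝ)⁻¹ = algebraMap K ℝ τ ∧
      ∃ p q : ℕ, 0 < p ∧ 0 < q ∧ (l : ℝ) ^ p = (M : ℝ) ^ q := by
    intro k hk
    obtain ⟨l, hl, hlk, M, τ, hM, hMτ, p, q, hp, hq, hpq⟩ := h k hk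
    have hM0 : M ≠ 0 := by linarith
    exact ⟨⟨l, (mem_algebraicClosure_iff'.mpr (isIntegral_of_pow_eq hM0 hMτ hp hpq))⟩,
      ⟨M, (mem_algebraicClosure_iff'.mpr (isIntegral_of_add_inv hM0 hMτ))⟩, τ, hl, hlk, hM, hMτ, p, q, hp, hq, hpq⟩
  obtain ⟨l₁, M₁, τ₁, hl₁, hlb, -⟩ := key 1 one_pos
  obtain ⟨b', hb'⟩ : ∃ b' : algebraicClosure K ℝ, (b' : ℝ) = b := by
    refine ⟨l₁ + l₁⁻¹ - 2, ?_⟩
    have e := map_sub (algebraMap (algebraicClosure K ℝ) ℝ) (l₁ + l₁⁻¹) 2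
    rw [map_add, map_inv₀, map_ofNat] at e
    have e' : ((l₁ + l₁⁻¹ - 2 : algebraicClosure K ℝ) : ℝ) = (l₁ : ℝ) + (l₁ : ℝ)⁻¹ - 2 := e
    rw [e', hlb]
    push_cast
    ring
  have hfix : ∀ α : algebraicClosure K ℝ →ₐ[K] ℂ, α b' = b := by
    intro α
    apply eq_of_norm_bounds hb
    intro k hk
    obtain ⟨l, M, τ, hl, hlk, hM, hMτ, p, q, hp, hq, hpq⟩ := key k hk
    have hl0 : l ≠ 0 := by
      rintro rfl
      norm_num at hl
    have e1 : l + l⁻¹ = 2 + k * b' := by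
      apply (algebraMap (algebraicClosure K ℝ) ℝ).injective
      rw [map_add, map_inv₀, map_add, map_mul, map_ofNat, map_natCast]
      show (l : ℝ) + (l : ℝ)⁻¹ = 2 + k * (b' : ℝ)
      rw [hb', ← hlk]
    have e2 : α l + (α l)⁻¹ = 2 + k * α b' := by
      rw [← map_inv₀, ← map_add, e1, map_add, map_mul, map_ofNat, map_natCast]
    rw [← e2]
    have hn := norm_alg α hl hM hMτ hp hpq
    have hn2 : ‖α l‖ + ‖α l‖⁻¹ = 2 + k * b := by
      rcases hn with h | h <;> rw [h, ← hlk]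
      rw [inv_inv, add_comm]
    have hn3 : ‖α l‖ * ‖α l‖⁻¹ = 1 := mul_inv_cancel₀ (norm_ne_zero_iff.mpr ((map_ne_zero α).mpr hl0))
    constructor
    · have h1 : |‖α l‖ - ‖α l‖⁻¹| ≤ ‖α l + (α l)⁻¹‖ := by
        have := abs_norm_sub_norm_le (α l) (-(α l)⁻¹)
        rwa [norm_neg, norm_inv, sub_neg_eq_add] at this
      have h2 : |‖α l‖ - ‖α l‖⁻¹| ^ 2 ≤ ‖α l + (α l)⁻¹‖ ^ 2 := pow_le_pow_left₀ (abs_nonneg _) h1 2
      rw [sq_abs] at h2
      rw [← hn2]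
      nlinarith
    · have h1 : ‖α l + (α l)⁻¹‖ ≤ 2 + k * b := by
        rw [← hn2, ← norm_inv]
        exact norm_add_le _ _
      exact pow_le_pow_left₀ (norm_nonneg _) h1 2
  have hint : IsIntegral K b := by
    rw [← hb']
    exact mem_algebraicClosure_iff'.mp b'.2
  have hroot : ∀ y ∈ (minpoly K b).rootSet ℂ, y = b := by
    intro y hy
    rw [Polynomial.mem_rootSet] at hy
    have hmin : minpoly K b = minpoly K b' := by
      rw [← hb']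
      exact minpoly.algebraMap_eq (algebraMap (algebraicClosure K ℝ) ℝ).injective b'
    rw [hmin] at hy
    obtain ⟨α, hα⟩ := IntermediateField.exists_algHom_of_splits_of_aeval (F := K) (E := algebraicClosure K ℝ) (K := ℂ)
      (fun s => ⟨Algebra.IsIntegral.isIntegral s, IsAlgClosed.splits _⟩) hy.2
    rw [← hα]
    exact hfix α
  have hcard := Polynomial.card_rootSet_eq_natDegree (F := K) (K := ℂ) (minpoly.irreducible hint).separable
    (IsAlgClosed.splits _)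
  have hle : Fintype.card ((minpoly K b).rootSet ℂ) ≤ 1 := by
    rw [Fintype.card_le_one_iff]
    intro x y
    exact Subtype.ext ((hroot x x.2).trans (hroot y y.2).symm)
  rw [hcard] at hle
  have hpos := minpoly.natDegree_pos hint
  have hone : (minpoly K b).natDegree = 1 := by omega
  have hdeg : (minpoly K b).degree = 1 := by
    rw [Polynomial.degree_eq_natDegree (minpoly.ne_zero hint), hone]
    rfl
  exact minpoly.mem_range_of_degree_eq_one K b hdeg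

end field

end Pool.Agent.LCC
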