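import Pool.Agent.LCC.Loc

/-!
# LCC/Cusp: the words `u ^ k v⁻¹` and `u ^ j v u⁻¹ v⁻¹` in two unipotents
-/

namespace Pool.Agent.LCC

open UpperHalfPlane
open scoped MatrixGroups commutatorElement

theorem mul_entries (g h : SL(2, ℝ)) (i j : Fin 2) : (g * h : SL(2, ℝ)) i j = g i 0 * h 0 j + g i 1 * h 1 j := by
  rw [Matrix.SpecialLinearGroup.coe_mul, Matrix.mul_apply, Fin.sum_univ_two]

theorem inv_entries (g : SL(2, ℝ)) : (g⁻¹ : SL(2, ℝ)) 0 0 = g 1 1 ∧ (g⁻¹ : SL(2, ℝ)) 0 1 = - g 0 1 ∧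
    (g⁻¹ : SL(2, ℝ)) 1 0 = - g 1 0 ∧ (g⁻¹ : SL(2, ℝ)) 1 1 = g 0 0 := by
  rw [Matrix.SpecialLinearGroup.SL2_inv_expl]
  simp

/-- the entries of the powers of a unipotent -/
theorem unip_pow {u : SL(2, ℝ)} (hu : tr u = 2) (k : ℕ) :
    (u ^ k : SL(2, ℝ)) 0 0 = 1 + k * (u 0 0 - 1) ∧ (u ^ k : SL(2, ℝ)) 0 1 = k * u 0 1 ∧
    (u ^ k : SL(2, ℝ)) 1 0 = k * u 1 0 ∧ (u ^ k : SL(2, ℝ)) 1 1 = 1 + k * (u 1 1 - 1) := by
  have hd := det_eq u
  rw [tr_eq] at hu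
  induction k with
  | zero => simp
  | succ k ih =>
    obtain ⟨h1, h2, h3, h4⟩ := ih
    simp only [pow_succ, mul_entries, h1, h2, h3, h4]
    push_cast
    refine ⟨?_, ?_, ?_, ?_⟩
    · linear_combination k * (u 0 0) * hu - k * hd
    · linear_combination k * (u 0 1) * hu
    · linear_combination k * (u 1 0) * hu
    · linear_combination k * (u 1 1) * hu - k * hd

/-- `b = (tr (u γ) - tr γ) ^ 2` -/
def bb (u γ : SL(2, ℝ)) : ℝ := (tr (u * γ) - tr γ) ^ 2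

theorem tr_word1 {u γ : SL(2, ℝ)} (hu : tr u = 2) (k : ℕ) :
    tr (u ^ k * (γ * u * γ⁻¹)⁻¹) = 2 + k * bb u γ := by
  have hd := det_eq u
  have hg := det_eq γ
  obtain ⟨k1, k2, k3, k4⟩ := unip_pow hu k
  rw [tr_eq] at hu
  rw [show (γ * u * γ⁻¹)⁻¹ = γ * u⁻¹ * γ⁻¹ by group]
  obtain ⟨g1, g2, g3, g4⟩ := inv_entries γ
  obtain ⟨u1, u2, u3, u4⟩ := inv_entries u
  rw [bb, tr_eq, tr_eq, tr_eq]
  simp only [mul_entries, k1, k2, k3, k4, g1, g2, g3, g4, u1, u2, u3, u4]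
  generalize u 0 0 = a at *
  generalize u 0 1 = b at *
  generalize u 1 0 = c at *
  generalize u 1 1 = d at *
  generalize γ 0 0 = x at *
  generalize γ 0 1 = y at *
  generalize γ 1 0 = z at *
  generalize γ 1 1 = w at *
  generalize (k : ℝ) = κ at *
  clear k1 k2 k3 k4 g1 g2 g3 g4 u1 u2 u3 u4
  obtain rfl : a = 2 - d := by linarith
  grind

theorem tr_word2' {u v : SL(2, ℝ)} (hu : tr u = 2) (hv : tr v = 2) (j : ℕ) :
    tr (u ^ j * v * u⁻¹ * v⁻¹) = 2 + j * (tr (u * v⁻¹) - 2) ^ 2 := by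
  have hd := det_eq u
  have hg := det_eq v
  obtain ⟨k1, k2, k3, k4⟩ := unip_pow hu j
  rw [tr_eq] at hu hv
  obtain ⟨g1, g2, g3, g4⟩ := inv_entries v
  obtain ⟨u1, u2, u3, u4⟩ := inv_entries u
  rw [tr_eq, tr_eq]
  simp only [mul_entries, k1, k2, k3, k4, g1, g2, g3, g4, u1, u2, u3, u4]
  generalize u 0 0 = a at *
  generalize u 0 1 = b at *
  generalize u 1 0 = c at *
  generalize u 1 1 = d at *
  generalize v 0 0 = x at *
  generalize v 0 1 = y at *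
  generalize v 1 0 = z at *
  generalize v 1 1 = w at *
  generalize (j : ℝ) = κ at *
  clear k1 k2 k3 k4 g1 g2 g3 g4 u1 u2 u3 u4
  obtain rfl : a = 2 - d := by linarith
  obtain rfl : x = 2 - w := by linarith
  grind

theorem tr_word2 {u γ : SL(2, ℝ)} (hu : tr u = 2) (j : ℕ) :
    tr (u ^ j * (γ * u * γ⁻¹) * u⁻¹ * (γ * u * γ⁻¹)⁻¹) = 2 + j * bb u γ ^ 2 := by
  have hv : tr (γ * u * γ⁻¹) = 2 := by
    have := tr_conj γ⁻¹ u
    rwa [inv_inv, hu] at this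
  rw [tr_word2' hu hv]
  have h1 := tr_word1 (γ := γ) hu 1
  rw [pow_one] at h1
  rw [h1]
  push_cast
  ring

end Pool.Agent.LCC
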