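import Mathlib

/-!
# LCC: length-commensurable hyperbolic surfaces, definitions

For a subgroup `Γ` of `SL(2, ℝ)`, acting on the upper half-plane `ℍ`, `lengths Γ` is the set of the lengths of all
closed geodesics of `ℍ / Γ`: the numbers `ℓ > 0` such that some `γ ∈ Γ` translates some complete geodesic `c` of
`ℍ` by `ℓ`. Two such quotients are length-commensurable if the rational multiples of the
lengths are the same.
-/

namespace Pool.Agent.LCC

open UpperHalfPlane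
open scoped MatrixGroups commutatorElement

/-- The set of lengths of the closed geodesics of `ℍ / Γ`. -/
def lengths (Γ : Subgroup SL(2, ℝ)) : Set ℝ :=
  {ℓ | 0 < ℓ ∧ ∃ γ ∈ Γ, ∃ c : ℝ → ℍ, Isometry c ∧ ∀ t, γ • c t = c (t + ℓ)}

/-- The set `ℚ · L` of the rational multiples of the elements of `L`. -/
def ratMul (L : Set ℝ) : Set ℝ := {x | ∃ r : ℚ, ∃ ℓ ∈ L, x = r * ℓ}

/-- `ℍ / Γ₁` and `ℍ / Γ₂` are length-commensurable. -/
def LengthComm (Γ₁ Γ₂ : Subgroup SL(2, ℝ)) : Prop := ratMul (lengths Γ₁) = ratMul (lengths Γ₂)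

/-- The trace of a matrix in `SL(2, ℝ)`. -/
def tr (g : SL(2, ℝ)) : ℝ := (g : Matrix (Fin 2) (Fin 2) ℝ).trace

/-- The subgroup `Γ⁽²⁾` generated by the squares of the elements of `Γ`. -/
def sqSub (Γ : Subgroup SL(2, ℝ)) : Subgroup SL(2, ℝ) := Subgroup.closure {x | ∃ γ ∈ Γ, x = γ ^ 2}

/-- The invariant trace field `k Γ = ℚ(tr Γ⁽²⁾)`. -/
noncomputable def kf (Γ : Subgroup SL(2, ℝ)) : IntermediateField ℚ ℝ :=
  IntermediateField.adjoin ℚ {x | ∃ γ ∈ sqSub Γ, x = tr γ}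

theorem tr_mem_kf {Γ : Subgroup SL(2, ℝ)} {γ : SL(2, ℝ)} (h : γ ∈ sqSub Γ) : tr γ ∈ kf Γ :=
  IntermediateField.subset_adjoin _ _ ⟨γ, h, rfl⟩

theorem sq_mem_sqSub {Γ : Subgroup SL(2, ℝ)} {γ : SL(2, ℝ)} (h : γ ∈ Γ) : γ ^ 2 ∈ sqSub Γ :=
  Subgroup.subset_closure ⟨γ, h, rfl⟩

end Pool.Agent.LCC
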