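import Pool.Agent.LCC.Fix

/-!
# LCC/Diag: the diagonal direction in the limit cone
-/

namespace Pool.Agent.LCC

open UpperHalfPlane Filter Topology
open scoped MatrixGroups commutatorElement

theorem tendsto_log_affine_div_log {c d : ℝ} (hc : 0 < c) :
    Tendsto (fun k : ℕ => Real.log (k * c + d) / Real.log k) atTop (𝓝 1) := by
  have h1 : Tendsto (fun k : ℕ => c + d / (k : ℝ)) atTop (𝓝 c) := by
    have := (tendsto_const_nhds (x := c)).add (tendsto_const_div_atTop_nhds_zero_nat d)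
    simpa using this
  have h2 : Tendsto (fun k : ℕ => Real.log (c + d / (k : ℝ))) atTop (𝓝 (Real.log c)) :=
    (Real.continuousAt_log hc.ne').tendsto.comp h1
  have h3 : Tendsto (fun k : ℕ => Real.log (k : ℝ)) atTop atTop :=
    Real.tendsto_log_atTop.comp tendsto_natCast_atTop_atTop
  have h4 : Tendsto (fun k : ℕ => 1 + Real.log (c + d / (k : ℝ)) / Real.log k) atTop (𝓝 (1 + 0)) :=
    (tendsto_const_nhds (x := (1 : ℝ))).add (h2.div_atTop h3)
  rw [add_zero] at h4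
  refine h4.congr' ?_
  filter_upwards [eventually_gt_atTop 1, h1.eventually (lt_mem_nhds hc)] with k hk hk2
  have hk0 : (0 : ℝ) < k := by exact_mod_cast (by omega : 0 < k)
  have hlk : 0 < Real.log k := Real.log_pos (by exact_mod_cast hk)
  have e : (k : ℝ) * c + d = k * (c + d / k) := by
    field_simp
  rw [e, Real.log_mul hk0.ne' hk2.ne', add_div, div_self hlk.ne']

theorem abs_log_bounds {n : ℂ} (hn : n ≠ 0) {z : ℂ} (h : n + n⁻¹ = z) (hz : 2 < ‖z‖) :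
    Real.log (‖z‖ - 1) ≤ |Real.log ‖n‖| ∧ |Real.log ‖n‖| ≤ Real.log (‖z‖ + 1) := by
  have key : ∀ m : ℂ, m ≠ 0 → m + m⁻¹ = z → 1 ≤ ‖m‖ →
      Real.log (‖z‖ - 1) ≤ |Real.log ‖m‖| ∧ |Real.log ‖m‖| ≤ Real.log (‖z‖ + 1) := by
    intro m hm hmz h1
    rw [abs_of_nonneg (Real.log_nonneg h1)]
    have h2 : ‖m‖⁻¹ ≤ 1 := inv_le_one_of_one_le₀ h1
    have h3 : ‖z‖ ≤ ‖m‖ + ‖m‖⁻¹ := by
      rw [← hmz, ← norm_inv]
      exact norm_add_le _ _
    have h4 : ‖m‖ - ‖m‖⁻¹ ≤ ‖z‖ := by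
      have := norm_sub_norm_le m (-m⁻¹)
      rwa [norm_neg, norm_inv, sub_neg_eq_add, hmz] at this
    exact ⟨Real.log_le_log (by linarith) (by linarith), Real.log_le_log (by linarith) (by linarith)⟩
  rcases le_total 1 ‖n‖ with h1 | h1
  · exact key n hn h h1
  · have h2 := key n⁻¹ (inv_ne_zero hn) (by rw [inv_inv, add_comm, h]) (by
      rw [norm_inv]
      exact (one_le_inv₀ (norm_pos_iff.mpr hn)).mpr h1)
    rwa [norm_inv, Real.log_inv, abs_neg] at h2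

/-- asymptotic comparison of the translation lengths of `u ^ k v⁻¹` in two embeddings -/
theorem eventually_ratio {b : ℝ} (hb : 0 < b) {β : ℂ} (hβ : β ≠ 0) {ε : ℝ} (hε : 0 < ε) :
    ∀ᶠ k : ℕ in atTop, ∀ l : ℝ, 1 < l → l + l⁻¹ = 2 + k * b → ∀ n : ℂ, n ≠ 0 → n + n⁻¹ = 2 + k * β →
      (1 - ε) * Real.log l ≤ |Real.log ‖n‖| ∧ |Real.log ‖n‖| ≤ (1 + ε) * Real.log l := by
  have hβ0 : 0 < ‖β‖ := norm_pos_iff.mpr hβ
  have h1 : Tendsto (fun k : ℕ => Real.log (k * ‖β‖ + 3) / Real.log (k * b + 1)) atTop (𝓝 1) := by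
    have := (tendsto_log_affine_div_log (d := 3) hβ0).div (tendsto_log_affine_div_log (d := 1) hb) one_ne_zero
    rw [div_one] at this
    refine this.congr' ?_
    filter_upwards [eventually_gt_atTop 1] with k hk
    have hlk : 0 < Real.log k := Real.log_pos (by exact_mod_cast hk)
    simp only [Pi.div_apply]
    field_simp
  have h2 : Tendsto (fun k : ℕ => Real.log (k * ‖β‖ + (-3)) / Real.log (k * b + 2)) atTop (𝓝 1) := by
    have := (tendsto_log_affine_div_log (d := -3) hβ0).div (tendsto_log_affine_div_log (d := 2) hb) one_ne_zero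
    rw [div_one] at this
    refine this.congr' ?_
    filter_upwards [eventually_gt_atTop 1] with k hk
    have hlk : 0 < Real.log k := Real.log_pos (by exact_mod_cast hk)
    simp only [Pi.div_apply]
    field_simp
  have h5 : Tendsto (fun k : ℕ => (k : ℝ) * ‖β‖) atTop atTop :=
    tendsto_natCast_atTop_atTop.atTop_mul_const hβ0
  filter_upwards [h1.eventually (gt_mem_nhds (show (1 : ℝ) < 1 + ε by linarith)),
    h2.eventually (lt_mem_nhds (show (1 : ℝ) - ε < 1 by linarith)), h5.eventually_gt_atTop 4,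
    eventually_gt_atTop 0] with k hk1 hk2 hk3 hk0 l hl hlk n hn hnk
  have hk0' : (0 : ℝ) < k := by exact_mod_cast hk0
  have hkb : 0 < k * b := by positivity
  have hnorm1 : ‖(2 : ℂ) + k * β‖ ≤ k * ‖β‖ + 2 := by
    have := norm_add_le (2 : ℂ) (k * β)
    rw [norm_mul, Complex.norm_natCast] at this
    have h2' : ‖(2 : ℂ)‖ = 2 := by norm_num
    linarith
  have hnorm2 : k * ‖β‖ - 2 ≤ ‖(2 : ℂ) + k * β‖ := by
    have := norm_sub_norm_le (k * β) (-2 : ℂ)
    rw [norm_mul, Complex.norm_natCast, norm_neg, sub_neg_eq_add, add_comm] at this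
    have h2' : ‖(2 : ℂ)‖ = 2 := by norm_num
    linarith
  obtain ⟨g1, g2⟩ := abs_log_bounds hn hnk (by linarith)
  have hl1 : l⁻¹ < 1 := inv_lt_one_of_one_lt₀ hl
  have hl2 : 0 < l⁻¹ := inv_pos.mpr (by linarith)
  have e1 : Real.log (k * b + 1) ≤ Real.log l := Real.log_le_log (by linarith) (by linarith)
  have e2 : Real.log l ≤ Real.log (k * b + 2) := Real.log_le_log (by linarith) (by linarith)
  have e3 : 0 < Real.log (k * b + 1) := Real.log_pos (by linarith)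
  have e4 : 0 < Real.log (k * b + 2) := Real.log_pos (by linarith)
  rw [div_lt_iff₀ e3] at hk1
  rw [lt_div_iff₀ e4] at hk2
  have e5 : Real.log (‖(2 : ℂ) + k * β‖ + 1) ≤ Real.log (k * ‖β‖ + 3) :=
    Real.log_le_log (by positivity) (by linarith)
  have e6 : Real.log (k * ‖β‖ + (-3)) ≤ Real.log (‖(2 : ℂ) + k * β‖ - 1) :=
    Real.log_le_log (by linarith) (by linarith)
  have e7 : 0 < Real.log l := Real.log_pos hl
  constructor
  · by_cases hε1 : ε ≤ 1
    · nlinarith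
    · have : (1 - ε) * Real.log l ≤ 0 := mul_nonpos_of_nonpos_of_nonneg (by linarith) e7.le
      exact this.trans (abs_nonneg _)
  · nlinarith

variable {K : Type*} [Field K] [Algebra K ℝ]

/-- the relation `l ^ p = M ^ q` in another embedding -/
theorem exists_conj (σ : K →+* ℂ) {l M : ℝ} {t τ : K} (hl : 1 < l) (hlt : l + l⁻¹ = algebraMap K ℝ t) (hM : 1 < M)
    (hMτ : M + M⁻¹ = algebraMap K ℝ τ) {p q : ℕ} (hp : 0 < p) (hpq : l ^ p = M ^ q)
    {m : ℂ} (hm : m ≠ 0) (hmτ : m + m⁻¹ = σ τ) : ∃ n : ℂ, n ≠ 0 ∧ n + n⁻¹ = σ t ∧ n ^ p = m ^ q := by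
  letI := σ.toAlgebra
  have hl0 : l ≠ 0 := by linarith
  have hM0 : M ≠ 0 := by linarith
  set l' : algebraicClosure K ℝ := ⟨l, (mem_algebraicClosure_iff'.mpr (isIntegral_of_pow_eq hM0 hMτ hp hpq))⟩ with hl'
  set M' : algebraicClosure K ℝ := ⟨M, (mem_algebraicClosure_iff'.mpr (isIntegral_of_add_inv hM0 hMτ))⟩ with hM'
  let φ : algebraicClosure K ℝ →ₐ[K] ℂ := IsAlgClosed.lift
  have h1 : l' + l'⁻¹ = algebraMap K (algebraicClosure K ℝ) t := Subtype.ext hlt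
  have h2 : M' + M'⁻¹ = algebraMap K (algebraicClosure K ℝ) τ := Subtype.ext hMτ
  have h3 : l' ^ p = M' ^ q := Subtype.ext hpq
  have g1 : φ l' + (φ l')⁻¹ = σ t := by
    rw [← map_inv₀, ← map_add, h1, φ.commutes]
    rfl
  have g2 : φ M' + (φ M')⁻¹ = σ τ := by
    rw [← map_inv₀, ← map_add, h2, φ.commutes]
    rfl
  have g3 : φ l' ^ p = φ M' ^ q := by rw [← map_pow, ← map_pow, h3]
  have hl'0 : l' ≠ 0 := fun h => hl0 (congrArg Subtype.val h)
  have hM'0 : M' ≠ 0 := fun h => hM0 (congrArg Subtype.val h)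
  have hφl : φ l' ≠ 0 := (map_ne_zero φ).mpr hl'0
  have hφM : φ M' ≠ 0 := (map_ne_zero φ).mpr hM'0
  have h4 : (m - φ M') * (m - (φ M')⁻¹) = 0 := by
    have : (m - φ M') * (m - (φ M')⁻¹) = m * ((m + m⁻¹) - (φ M' + (φ M')⁻¹)) := by
      field_simp
      ring
    rw [this, hmτ, g2]
    ring
  rcases mul_eq_zero.mp h4 with h | h
  · exact ⟨φ l', hφl, g1, by rw [g3, sub_eq_zero.mp h]⟩
  · exact ⟨(φ l')⁻¹, inv_ne_zero hφl, by rw [inv_inv, add_comm, g1], by rw [inv_pow, g3, sub_eq_zero.mp h, inv_pow]⟩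

/-- For finitely many embeddings of the invariant trace field in `ℂ` there is an element of `Γ₁` whose translation
lengths in all the embeddings are almost the same. -/
theorem exists_diag {Γ₁ Γ₂ : Subgroup SL(2, ℝ)} (h : lengths Γ₂ ⊆ ratMul (lengths Γ₁))
    {u γ : SL(2, ℝ)} (hu : u ∈ Γ₂) (hγ : γ ∈ Γ₂) (hu2 : tr u = 2) (hb : 0 < bb u γ)
    {ι : Type*} [Finite ι] (σ : ι → (kf Γ₁ →+* ℂ)) {ε : ℝ} (hε : 0 < ε) :
    ∃ (w : SL(2, ℝ)) (hw : w ∈ Γ₁) (M : ℝ), 1 < M ∧ M + M⁻¹ = tr (w ^ 2) ∧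
      ∀ i, ∀ m : ℂ, m ≠ 0 → m + m⁻¹ = σ i ⟨tr (w ^ 2), tr_mem_kf (sq_mem_sqSub hw)⟩ →
        (1 - ε) * Real.log M ≤ |Real.log ‖m‖| ∧ |Real.log ‖m‖| ≤ (1 + ε) * Real.log M := by
  have hbm := bb_mem h hu hγ hu2 hb
  have hev : ∀ᶠ k : ℕ in atTop, ∀ i, ∀ l : ℝ, 1 < l → l + l⁻¹ = 2 + k * bb u γ → ∀ n : ℂ, n ≠ 0 →
      n + n⁻¹ = 2 + k * σ i ⟨bb u γ, hbm⟩ →
      (1 - ε) * Real.log l ≤ |Real.log ‖n‖| ∧ |Real.log ‖n‖| ≤ (1 + ε) * Real.log l := by
    rw [eventually_all]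
    intro i
    refine eventually_ratio hb ?_ hε
    rw [Ne, map_eq_zero]
    intro h0
    exact hb.ne' (congrArg Subtype.val h0)
  obtain ⟨k, hk, hk0⟩ := (hev.and (eventually_gt_atTop 0)).exists
  obtain ⟨l, hl, hlt, w, hw, M, hM, hMτ, p, q, hp, hq, hpq⟩ := comm_word1 h hu hγ hu2 hb k hk0
  refine ⟨w, hw, M, hM, hMτ, fun i m hm hmτ => ?_⟩
  obtain ⟨n, hn, hnt, hnm⟩ := exists_conj (K := kf Γ₁) (σ i) (t := 2 + k * ⟨bb u γ, hbm⟩) hl
    (by rw [hlt]; push_cast; rfl) hM hMτ hp hpq hm hmτ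
  rw [map_add, map_mul, map_ofNat, map_natCast] at hnt
  obtain ⟨g1, g2⟩ := hk i l hl hlt n hn hnt
  have hp' : (0 : ℝ) < p := by exact_mod_cast hp
  have hq' : (0 : ℝ) < q := by exact_mod_cast hq
  have e1 : p * Real.log l = q * Real.log M := by
    rw [← Real.log_pow, ← Real.log_pow, hpq]
  have e2 : p * |Real.log ‖n‖| = q * |Real.log ‖m‖| := by
    have : p * Real.log ‖n‖ = q * Real.log ‖m‖ := by
      rw [← Real.log_pow, ← Real.log_pow, ← norm_pow, ← norm_pow, hnm]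
    have h2 : |(p : ℝ) * Real.log ‖n‖| = |(q : ℝ) * Real.log ‖m‖| := by rw [this]
    rwa [abs_mul, abs_mul, abs_of_pos hp', abs_of_pos hq'] at h2
  constructor
  · apply le_of_mul_le_mul_left _ hq'
    calc q * ((1 - ε) * Real.log M) = (1 - ε) * (q * Real.log M) := by ring
      _ = p * ((1 - ε) * Real.log l) := by rw [← e1]; ring
      _ ≤ p * |Real.log ‖n‖| := mul_le_mul_of_nonneg_left g1 hp'.le
      _ = q * |Real.log ‖m‖| := e2
  · apply le_of_mul_le_mul_left _ hq'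
    calc q * |Real.log ‖m‖| = p * |Real.log ‖n‖| := e2.symm
      _ ≤ p * ((1 + ε) * Real.log l) := mul_le_mul_of_nonneg_left g2 hp'.le
      _ = (1 + ε) * (p * Real.log l) := by ring
      _ = q * ((1 + ε) * Real.log M) := by rw [e1]; ring

end Pool.Agent.LCC
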