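import Mathlib

/-!
# LCC/Ext: extending embeddings of fields in `ℝ`, one element at a time
-/

namespace Pool.Agent.LCC

open Polynomial IntermediateField nonZeroDivisors

section general

variable {K L Ω : Type*} [Field K] [Field L] [Algebra K L] [Field Ω]

/-- Extension to a simple transcendental extension. -/
theorem exists_ext_transcendental (σ : K →+* Ω) {c : L} (hc : Transcendental K c) {r : Ω}
    (hr : ∀ P : K[X], P ≠ 0 → P.eval₂ σ r ≠ 0) :
    ∃ σ' : K⟮c⟯ →+* Ω, (∀ a : K, σ' (algebraMap K K⟮c⟯ a) = σ a) ∧ σ' (AdjoinSimple.gen K c) = r := by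
  have hinj : Function.Injective (eval₂RingHom σ r) := by
    rw [injective_iff_map_eq_zero]
    intro P hP
    by_contra h
    exact hr P h hP
  have hφ : K[X]⁰ ≤ Submonoid.comap (eval₂RingHom σ r) Ω⁰ := by
    intro P hP
    rw [Submonoid.mem_comap]
    exact mem_nonZeroDivisors_of_ne_zero fun h => (nonZeroDivisors.ne_zero hP) (hinj (by rw [h, map_zero]))
  refine ⟨(RatFunc.liftRingHom (eval₂RingHom σ r) hφ).comp
    (RatFunc.algEquivOfTranscendental c hc).symm.toAlgHom.toRingHom, ?_, ?_⟩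
  · intro a
    have h1 : (RatFunc.algEquivOfTranscendental c hc).symm (algebraMap K K⟮c⟯ a) =
        algebraMap K[X] (RatFunc K) (Polynomial.C a) := by
      rw [(RatFunc.algEquivOfTranscendental c hc).symm.commutes a]
      rfl
    show RatFunc.liftRingHom (eval₂RingHom σ r) hφ ((RatFunc.algEquivOfTranscendental c hc).symm (algebraMap K K⟮c⟯ a)) = σ a
    rw [h1, RatFunc.liftRingHom_algebraMap]
    simp
  · show RatFunc.liftRingHom (eval₂RingHom σ r) hφ ((RatFunc.algEquivOfTranscendental c hc).symm (AdjoinSimple.gen K c)) = r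
    rw [RatFunc.algEquivOfTranscendental_symm_gen, ← RatFunc.algebraMap_X, RatFunc.liftRingHom_algebraMap]
    simp

/-- Extension to a simple algebraic extension. -/
theorem exists_ext_algebraic (σ : K →+* Ω) {c : L} {P : K[X]} (hP : P ≠ 0) (hPc : aeval c P = 0)
    (hs : (P.map σ).Splits) :
    ∃ σ' : K⟮c⟯ →+* Ω, ∀ a : K, σ' (algebraMap K K⟮c⟯ a) = σ a := by
  letI := σ.toAlgebra
  have hint : IsIntegral K c := by
    rw [← isAlgebraic_iff_isIntegral]
    exact ⟨P, hP, hPc⟩
  have hdvd : minpoly K c ∣ P := minpoly.dvd K c hPc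
  have hs' : ((minpoly K c).map (algebraMap K Ω)).Splits := by
    refine hs.of_dvd ((Polynomial.map_ne_zero_iff σ.injective).mpr hP) ?_
    exact Polynomial.map_dvd σ hdvd
  obtain ⟨φ⟩ : Nonempty (K⟮c⟯ →ₐ[K] Ω) :=
    IntermediateField.nonempty_algHom_adjoin_of_splits (fun s hs => by
      rw [Set.mem_singleton_iff] at hs
      subst hs
      exact ⟨hint, hs'⟩)
  exact ⟨φ.toRingHom, fun a => φ.commutes a⟩

end general

/-- Adjoin one real number. -/
noncomputable def adj (M : IntermediateField ℚ ℝ) (c : ℝ) : IntermediateField ℚ ℝ :=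
  (IntermediateField.adjoin M {c}).restrictScalars ℚ

theorem le_adj (M : IntermediateField ℚ ℝ) (c : ℝ) : M ≤ adj M c := by
  intro a ha
  exact (IntermediateField.adjoin M {c}).algebraMap_mem ⟨a, ha⟩

theorem mem_adj (M : IntermediateField ℚ ℝ) (c : ℝ) : c ∈ adj M c :=
  IntermediateField.subset_adjoin M {c} (Set.mem_singleton c)

theorem countable_adj {M : IntermediateField ℚ ℝ} (hM : Countable M) (c : ℝ) : Countable (adj M c) := by
  have h := IntermediateField.cardinalMk_adjoin_le M ({c} : Set ℝ)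
  have h2 : Cardinal.mk (IntermediateField.adjoin M ({c} : Set ℝ)) ≤ Cardinal.aleph0 := by
    refine h.trans ?_
    simp only [sup_le_iff]
    refine ⟨⟨?_, ?_⟩, le_rfl⟩
    · exact Cardinal.mk_le_aleph0_iff.mpr hM
    · simp
  exact Cardinal.mk_le_aleph0_iff.mp h2

theorem trdeg_simple_le (M : IntermediateField ℚ ℝ) (c : ℝ) :
    Algebra.trdeg M (IntermediateField.adjoin M ({c} : Set ℝ)) ≤ 1 := by
  by_cases hc : IsAlgebraic M c
  · have h2 : Algebra.IsAlgebraic M (IntermediateField.adjoin M ({c} : Set ℝ)) :=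
      IntermediateField.isAlgebraic_adjoin_simple hc.isIntegral
    rw [trdeg_eq_zero]
    exact zero_le_one
  · have h1 := (RatFunc.algEquivOfTranscendental c hc).trdeg_eq
    rw [← h1, ← trdeg_add_eq M (Polynomial M) (A := RatFunc M)]
    have h3 : Algebra.IsAlgebraic (Polynomial M) (RatFunc M) :=
      IsLocalization.isAlgebraic _ (nonZeroDivisors (Polynomial M))
    rw [trdeg_eq_zero (R := Polynomial M) (A := RatFunc M), add_zero, Polynomial.trdeg_of_isDomain]

theorem trdeg_adj_le (M : IntermediateField ℚ ℝ) (c : ℝ) :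
    Algebra.trdeg ℚ (adj M c) ≤ Algebra.trdeg ℚ M + 1 := by
  have h1 : Algebra.trdeg ℚ M + Algebra.trdeg M (IntermediateField.adjoin M ({c} : Set ℝ)) =
      Algebra.trdeg ℚ (IntermediateField.adjoin M ({c} : Set ℝ)) := trdeg_add_eq _ _
  exact h1.ge.trans (add_le_add le_rfl (trdeg_simple_le M c))

theorem trdeg_adj_of_algebraic (M : IntermediateField ℚ ℝ) (c : ℝ) (hc : IsAlgebraic M c) :
    Algebra.trdeg ℚ (adj M c) ≤ Algebra.trdeg ℚ M := by
  have h1 : Algebra.trdeg ℚ M + Algebra.trdeg M (IntermediateField.adjoin M ({c} : Set ℝ)) =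
      Algebra.trdeg ℚ (IntermediateField.adjoin M ({c} : Set ℝ)) := trdeg_add_eq _ _
  have h2 : Algebra.IsAlgebraic M (IntermediateField.adjoin M ({c} : Set ℝ)) :=
    IntermediateField.isAlgebraic_adjoin_simple hc.isIntegral
  rw [trdeg_eq_zero (R := M) (A := IntermediateField.adjoin M ({c} : Set ℝ)), add_zero] at h1
  exact h1.ge

/-- A countable field of real numbers with an embedding in `ℝ`. -/
structure Emb where
  M : IntermediateField ℚ ℝ
  cnt : Countable M
  σ : M →+* ℝ

/-- The embedding as a function on `ℝ`. -/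
noncomputable def Emb.v (e : Emb) (a : ℝ) : ℝ := by
  classical
  exact if h : a ∈ e.M then e.σ ⟨a, h⟩ else 0

theorem Emb.v_coe (e : Emb) (a : e.M) : e.v a = e.σ a := by
  unfold Emb.v
  rw [dif_pos a.2]

/-- Extension of embeddings. -/
def Emb.le (e e' : Emb) : Prop := e.M ≤ e'.M ∧ ∀ a ∈ e.M, e'.v a = e.v a

theorem Emb.le_refl (e : Emb) : e.le e := ⟨le_rfl, fun _ _ => rfl⟩

theorem Emb.le_trans {e e' e'' : Emb} (h : e.le e') (h' : e'.le e'') : e.le e'' :=
  ⟨h.1.trans h'.1, fun a ha => (h'.2 a (h.1 ha)).trans (h.2 a ha)⟩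

/-- Build an extension on `adj M c` from one on the simple extension. -/
theorem Emb.exists_of_hom (e : Emb) {c : ℝ} (σ' : IntermediateField.adjoin e.M ({c} : Set ℝ) →+* ℝ)
    (h : ∀ a : e.M, σ' (algebraMap e.M _ a) = e.σ a) :
    ∃ e' : Emb, e.le e' ∧ e'.M = adj e.M c ∧
      e'.v c = σ' (IntermediateField.AdjoinSimple.gen e.M c) := by
  refine ⟨⟨adj e.M c, countable_adj e.cnt c, σ'⟩, ⟨le_adj _ _, fun a ha => ?_⟩, rfl, ?_⟩
  · have h1 := h ⟨a, ha⟩
    rw [← e.v_coe] at h1
    rw [← h1]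
    exact Emb.v_coe ⟨adj e.M c, countable_adj e.cnt c, σ'⟩ ⟨a, le_adj _ _ ha⟩
  · exact Emb.v_coe ⟨adj e.M c, countable_adj e.cnt c, σ'⟩ ⟨c, mem_adj _ _⟩

/-- Real numbers transcendental over a countable field are dense near `0`. -/
theorem exists_small_transcendental (e : Emb) {δ : ℝ} (hδ : 0 < δ) :
    ∃ r : ℝ, 0 < r ∧ r < δ ∧ ∀ P : Polynomial e.M, P ≠ 0 → P.eval₂ e.σ r ≠ 0 := by
  have := e.cnt
  have hc : Set.Countable {x : ℝ | IsAlgebraic e.σ.range x} := by
    have : Countable e.σ.range := (RingHom.rangeRestrict_surjective e.σ).countable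
    exact Algebraic.countable _ _
  have hu : ¬ Set.Countable (Set.Ioo 0 δ) := by
    intro h
    have h1 := Cardinal.mk_Ioo_real hδ
    have h2 := Cardinal.mk_le_aleph0_iff.mpr h.to_subtype
    rw [h1] at h2
    exact absurd h2 (not_le.mpr Cardinal.aleph0_lt_continuum)
  obtain ⟨r, hr, hr2⟩ := Set.not_subset.mp fun h => hu (hc.mono h)
  refine ⟨r, hr.1, hr.2, fun P hP h0 => hr2 ?_⟩
  refine ⟨P.map e.σ.rangeRestrict, ?_, ?_⟩
  · rw [Ne, Polynomial.map_eq_zero_iff]
    · exact hP
    · intro a b hab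
      exact e.σ.injective (congrArg Subtype.val hab)
  · rw [Polynomial.aeval_def, Polynomial.eval₂_map]
    exact h0

/-- Extension by a transcendental element with a small value. -/
theorem Emb.step_transcendental (e : Emb) {c : ℝ} (hc : ¬ IsAlgebraic e.M c) {δ : ℝ} (hδ : 0 < δ) :
    ∃ e' : Emb, e.le e' ∧ e'.M = adj e.M c ∧ 0 < e'.v c ∧ e'.v c < δ := by
  obtain ⟨r, hr0, hrδ, hr⟩ := exists_small_transcendental e hδ
  obtain ⟨σ', h1, h2⟩ := exists_ext_transcendental (K := e.M) (L := ℝ) (Ω := ℝ) e.σ (c := c) hc hr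
  obtain ⟨e', he, hM, hv⟩ := e.exists_of_hom σ' h1
  exact ⟨e', he, hM, by rw [hv, h2]; exact hr0, by rw [hv, h2]; exact hrδ⟩

/-- Extension by a root of a quadratic polynomial with nonnegative discriminant. -/
theorem Emb.step_quadratic (e : Emb) {c α β γ : ℝ} (hα : α ∈ e.M) (hβ : β ∈ e.M) (hγ : γ ∈ e.M) (hα0 : α ≠ 0)
    (hc : α * c ^ 2 + β * c + γ = 0) (hd : 0 ≤ e.v β ^ 2 - 4 * e.v α * e.v γ) :
    ∃ e' : Emb, e.le e' ∧ e'.M = adj e.M c := by
  lift α to e.M using hα
  lift β to e.M using hβ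
  lift γ to e.M using hγ
  rw [e.v_coe, e.v_coe, e.v_coe] at hd
  have hα0' : α ≠ 0 := fun h => hα0 (by rw [h]; rfl)
  have hσα : e.σ α ≠ 0 := (map_ne_zero e.σ).mpr hα0'
  set P : Polynomial e.M := Polynomial.C α * Polynomial.X ^ 2 + Polynomial.C β * Polynomial.X + Polynomial.C γ with hP
  have hP0 : P ≠ 0 := by
    intro h
    have := congrArg (fun Q => Polynomial.coeff Q 2) h
    simp [hP] at this
    exact hα0' this
  have hPc : Polynomial.aeval c P = 0 := by
    simp [hP]
    exact hc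
  have hs : (P.map e.σ).Splits := by
    set s := √(e.σ β ^ 2 - 4 * e.σ α * e.σ γ) with hs
    have hs2 : s * s = e.σ β ^ 2 - 4 * e.σ α * e.σ γ := Real.mul_self_sqrt hd
    have hfac : P.map e.σ = Polynomial.C (e.σ α) * ((Polynomial.X - Polynomial.C ((-e.σ β + s) / (2 * e.σ α))) *
        (Polynomial.X - Polynomial.C ((-e.σ β - s) / (2 * e.σ α)))) := by
      have e1 : (-e.σ β + s) / (2 * e.σ α) + (-e.σ β - s) / (2 * e.σ α) = - e.σ β / e.σ α := by
        field_simp
        ring
      have e2 : (-e.σ β + s) / (2 * e.σ α) * ((-e.σ β - s) / (2 * e.σ α)) = e.σ γ / e.σ α := by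
        field_simp
        linear_combination -hs2
      have e3 : (Polynomial.X - Polynomial.C ((-e.σ β + s) / (2 * e.σ α))) *
        (Polynomial.X - Polynomial.C ((-e.σ β - s) / (2 * e.σ α))) =
        Polynomial.X ^ 2 - Polynomial.C (- e.σ β / e.σ α) * Polynomial.X + Polynomial.C (e.σ γ / e.σ α) := by
        rw [← e1, ← e2, map_add, map_mul]
        ring
      rw [e3, hP]
      simp only [Polynomial.map_add, Polynomial.map_mul, Polynomial.map_pow, Polynomial.map_C, Polynomial.map_X]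
      rw [mul_add, mul_sub, ← mul_assoc, ← map_mul, ← map_mul]
      have e4 : e.σ α * (-e.σ β / e.σ α) = - e.σ β := by field_simp
      have e5 : e.σ α * (e.σ γ / e.σ α) = e.σ γ := by field_simp
      rw [e4, e5, map_neg]
      ring
    rw [hfac]
    exact (Polynomial.Splits.C _).mul ((Polynomial.Splits.X_sub_C _).mul (Polynomial.Splits.X_sub_C _))
  obtain ⟨σ', h1⟩ := exists_ext_algebraic (K := e.M) (L := ℝ) (Ω := ℝ) e.σ (c := c) hP0 hPc hs
  obtain ⟨e', he, hM, hv⟩ := e.exists_of_hom σ' h1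
  exact ⟨e', he, hM⟩

end Pool.Agent.LCC
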