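import Pool.Agent.LCC.Cusp

/-!
# LCC/Fix: the consequences of commensurability for a group with a unipotent
-/

namespace Pool.Agent.LCC

open UpperHalfPlane
open scoped MatrixGroups commutatorElement

/-- `Γ` has no fixed point on the boundary of `ℍ`: its elements have no common eigenvector. -/
def NoFix (Γ : Subgroup SL(2, ℝ)) : Prop :=
  ∀ v : Fin 2 → ℝ, v ≠ 0 → ∃ γ ∈ Γ, ∀ c : ℝ, (γ : Matrix (Fin 2) (Fin 2) ℝ).mulVec v ≠ c • v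

theorem exists_bb_pos {Γ : Subgroup SL(2, ℝ)} (hΓ : NoFix Γ) {u : SL(2, ℝ)} (hu : tr u = 2) (hu1 : u ≠ 1) :
    ∃ γ ∈ Γ, 0 < bb u γ := by
  have hd := det_eq u
  have hu' := hu
  rw [tr_eq] at hu'
  -- an eigenvector of `u`
  obtain ⟨v, hv0, hv⟩ := (Matrix.exists_mulVec_eq_zero_iff (M := (!![u 0 0 - 1, u 0 1; u 1 0, u 1 1 - 1] :
    Matrix (Fin 2) (Fin 2) ℝ))).mpr (by
      rw [Matrix.det_fin_two_of]
      linear_combination hd - hu')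
  have hv1 := congrFun hv 0
  have hv2 := congrFun hv 1
  simp [Matrix.mulVec, dotProduct, Fin.sum_univ_two] at hv1 hv2
  obtain ⟨γ, hγ, h⟩ := hΓ v hv0
  refine ⟨γ, hγ, ?_⟩
  rw [bb]
  apply sq_pos_of_ne_zero
  intro h0
  have hvn : v 0 ^ 2 + v 1 ^ 2 ≠ 0 := by
    intro hs
    apply hv0
    have h1 : v 0 = 0 := by nlinarith [sq_nonneg (v 0), sq_nonneg (v 1)]
    have h2 : v 1 = 0 := by nlinarith [sq_nonneg (v 0), sq_nonneg (v 1)]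
    funext i
    fin_cases i
    · exact h1
    · exact h2
  -- `u - 1 = κ • (v ⊗ J v)`
  obtain ⟨κ, hκ⟩ : ∃ κ, κ * (v 0 ^ 2 + v 1 ^ 2) = u 1 0 - u 0 1 := ⟨_, div_mul_cancel₀ _ hvn⟩
  have e1 : u 0 1 = - κ * v 0 ^ 2 := by
    apply mul_right_cancel₀ hvn
    linear_combination v 1 * hv1 + v 0 ^ 2 * hκ + v 0 * hv2 - v 0 * v 1 * hu'
  have e2 : u 1 0 = κ * v 1 ^ 2 := by
    apply mul_right_cancel₀ hvn
    linear_combination - v 1 ^ 2 * hκ + v 1 * hv1 + v 0 * hv2 - v 0 * v 1 * hu'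
  have e3 : u 0 0 = 1 + κ * v 0 * v 1 := by
    apply mul_right_cancel₀ hvn
    linear_combination - v 0 * v 1 * hκ + v 0 * hv1 - v 1 * hv2 + v 1 ^ 2 * hu'
  have hκ0 : κ ≠ 0 := by
    rintro rfl
    apply hu1
    apply Subtype.ext
    ext i j
    fin_cases i <;> fin_cases j <;> simp
    · rw [e3]; ring
    · rw [e1]; ring
    · rw [e2]; ring
    · rw [e3] at hu'; linarith
  have hdet : v 0 * (γ 1 0 * v 0 + γ 1 1 * v 1) - v 1 * (γ 0 0 * v 0 + γ 0 1 * v 1) = 0 := by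
    apply mul_left_cancel₀ hκ0
    rw [tr_eq, tr_eq, mul_entries, mul_entries, e1, e2, e3] at h0
    have e4 : u 1 1 = 1 - κ * v 0 * v 1 := by rw [e3] at hu'; linarith
    rw [e4] at h0
    linear_combination -h0
  apply h ((v 0 * (γ 0 0 * v 0 + γ 0 1 * v 1) + v 1 * (γ 1 0 * v 0 + γ 1 1 * v 1)) / (v 0 ^ 2 + v 1 ^ 2))
  funext i
  fin_cases i
  · simp [Matrix.mulVec, dotProduct, Fin.sum_univ_two]
    field_simp
    linear_combination -v 1 * hdet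
  · simp [Matrix.mulVec, dotProduct, Fin.sum_univ_two]
    field_simp
    linear_combination v 0 * hdet

/-- the eigenvalue relation for the trace `2 + k b` -/
theorem comm_word1 {Γ₁ Γ₂ : Subgroup SL(2, ℝ)} (h : lengths Γ₂ ⊆ ratMul (lengths Γ₁))
    {u γ : SL(2, ℝ)} (hu : u ∈ Γ₂) (hγ : γ ∈ Γ₂) (hu2 : tr u = 2) (hb : 0 < bb u γ) (k : ℕ) (hk : 0 < k) :
    ∃ l : ℝ, 1 < l ∧ l + l⁻¹ = 2 + k * bb u γ ∧ Comm Γ₁ l := by
  have hmem : u ^ k * (γ * u * γ⁻¹)⁻¹ ∈ Γ₂ :=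
    mul_mem (pow_mem hu k) (inv_mem (mul_mem (mul_mem hγ hu) (inv_mem hγ)))
  have hk' : (0 : ℝ) < k := by exact_mod_cast hk
  obtain ⟨l, h1, h2, h3⟩ := comm_of_lengths h hmem (by
    rw [tr_word1 hu2]
    nlinarith [mul_pos hk' hb])
  exact ⟨l, h1, by rw [h2, tr_word1 hu2], h3⟩

/-- the eigenvalue relation for the trace `2 + j b ^ 2` -/
theorem comm_word2 {Γ₁ Γ₂ : Subgroup SL(2, ℝ)} (h : lengths Γ₂ ⊆ ratMul (lengths Γ₁))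
    {u γ : SL(2, ℝ)} (hu : u ∈ Γ₂) (hγ : γ ∈ Γ₂) (hu2 : tr u = 2) (hb : 0 < bb u γ) (k : ℕ) (hk : 0 < k) :
    ∃ l : ℝ, 1 < l ∧ l + l⁻¹ = 2 + k * bb u γ ^ 2 ∧ Comm Γ₁ l := by
  have hv : γ * u * γ⁻¹ ∈ Γ₂ := mul_mem (mul_mem hγ hu) (inv_mem hγ)
  have hmem : u ^ k * (γ * u * γ⁻¹) * u⁻¹ * (γ * u * γ⁻¹)⁻¹ ∈ Γ₂ :=
    mul_mem (mul_mem (mul_mem (pow_mem hu k) hv) (inv_mem hu)) (inv_mem hv)
  have hk' : (0 : ℝ) < k := by exact_mod_cast hk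
  obtain ⟨l, h1, h2, h3⟩ := comm_of_lengths h hmem (by
    rw [tr_word2 hu2]
    have : 0 < (k : ℝ) * bb u γ ^ 2 := by positivity
    linarith)
  exact ⟨l, h1, by rw [h2, tr_word2 hu2], h3⟩

/-- `b` lies in the invariant trace field of `Γ₁`. -/
theorem bb_mem {Γ₁ Γ₂ : Subgroup SL(2, ℝ)} (h : lengths Γ₂ ⊆ ratMul (lengths Γ₁))
    {u γ : SL(2, ℝ)} (hu : u ∈ Γ₂) (hγ : γ ∈ Γ₂) (hu2 : tr u = 2) (hb : 0 < bb u γ) :
    bb u γ ∈ kf Γ₁ := by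
  have key : bb u γ ∈ Set.range (algebraMap (kf Γ₁) ℝ) := by
    apply mem_range_of_forall hb
    intro k hk
    obtain ⟨l, h1, h2, w, hw, M, hM, hMτ, p, q, hp, hq, hpq⟩ := comm_word1 h hu hγ hu2 hb k hk
    exact ⟨l, h1, h2, M, ⟨tr (w ^ 2), tr_mem_kf (sq_mem_sqSub hw)⟩, hM, hMτ, p, q, hp, hq, hpq⟩
  obtain ⟨x, hx⟩ := key
  rw [← hx]
  exact x.2

end Pool.Agent.LCC
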