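import Pool.Agent.LCC.Defs

/-!
# LCC/Geo: the length of a closed geodesic and the trace
-/

namespace Pool.Agent.LCC

open UpperHalfPlane
open scoped MatrixGroups commutatorElement

theorem tr_eq (g : SL(2, ℝ)) : tr g = g 0 0 + g 1 1 := by
  rw [tr, Matrix.trace_fin_two]

theorem det_eq (g : SL(2, ℝ)) : g 0 0 * g 1 1 - g 0 1 * g 1 0 = 1 := by
  have h := g.2
  rwa [Matrix.det_fin_two] at h

/-- sum of the squares of the entries -/
def nsq (g : SL(2, ℝ)) : ℝ := g 0 0 ^ 2 + g 0 1 ^ 2 + g 1 0 ^ 2 + g 1 1 ^ 2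

theorem cosh_dist_I (g : SL(2, ℝ)) : Real.cosh (dist I (g • I)) = nsq g / 2 := by
  have hd := det_eq g
  have hne : (g 1 0 * Complex.I + g 1 1 : ℂ) ≠ 0 := by
    intro h
    have h1 : g 1 0 = 0 := by simpa using congrArg Complex.im h
    have h2 : g 1 1 = 0 := by simpa using congrArg Complex.re h
    rw [h1, h2] at hd
    norm_num at hd
  have hco : ((g • I : ℍ) : ℂ) * (g 1 0 * Complex.I + g 1 1) = (g 0 0 * Complex.I + g 0 1) := by
    rw [coe_specialLinearGroup_apply]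
    simp only [Algebra.algebraMap_self, RingHom.id_apply, coe_I]
    exact div_mul_cancel₀ _ hne
  set x := (g • I : ℍ).re with hx
  set y := (g • I : ℍ).im with hy
  have hypos : 0 < y := (g • I : ℍ).im_pos
  have h1 : x * g 1 1 - y * g 1 0 = g 0 1 := by
    have := congrArg Complex.re hco
    simp at this
    linear_combination this
  have h2 : x * g 1 0 + y * g 1 1 = g 0 0 := by
    have := congrArg Complex.im hco
    simp at this
    linear_combination this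
  rw [cosh_dist, Complex.dist_eq, Complex.sq_norm, Complex.normSq_apply]
  simp only [Complex.sub_re, Complex.sub_im, coe_re, coe_im, I_re, I_im, ← hx, ← hy]
  have h3 : y * (g 1 0 ^ 2 + g 1 1 ^ 2) = 1 := by
    linear_combination hd + g 1 1 * h2 - g 1 0 * h1
  rw [nsq, ← h1, ← h2]
  have h4 : (x * g 1 0 + y * g 1 1) ^ 2 + (x * g 1 1 - y * g 1 0) ^ 2 + g 1 0 ^ 2 + g 1 1 ^ 2 =
      (x ^ 2 + y ^ 2 + 1) * (g 1 0 ^ 2 + g 1 1 ^ 2) := by ring
  rw [h4]
  have h5 : g 1 0 ^ 2 + g 1 1 ^ 2 = 1 / y := by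
    field_simp
    linear_combination h3
  rw [h5]
  field_simp
  ring

theorem tr_neg (g : SL(2, ℝ)) : tr (-g) = - tr g := by
  rw [tr_eq, tr_eq, Matrix.SpecialLinearGroup.coe_neg]
  simp only [Matrix.neg_apply]
  ring

theorem tr_conj (h g : SL(2, ℝ)) : tr (h⁻¹ * g * h) = tr g := by
  unfold tr
  rw [Matrix.SpecialLinearGroup.coe_mul, Matrix.trace_mul_comm, ← Matrix.SpecialLinearGroup.coe_mul]
  show (↑(h * (h⁻¹ * g)) : Matrix (Fin 2) (Fin 2) ℝ).trace = _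
  rw [mul_inv_cancel_left]

theorem nsq_sq (g : SL(2, ℝ)) : nsq (g ^ 2) = tr g ^ 2 * nsq g - 2 * tr g ^ 2 + 2 := by
  have hd := det_eq g
  have e : ∀ i j, (g ^ 2 : SL(2, ℝ)) i j = g i 0 * g 0 j + g i 1 * g 1 j := by
    intro i j
    rw [pow_two, Matrix.SpecialLinearGroup.coe_mul, Matrix.mul_apply, Fin.sum_univ_two]
  rw [nsq, nsq, tr_eq, e, e, e, e]
  linear_combination (2 * (g 0 0 * g 1 1 - g 0 1 * g 1 0) + 2 - 2 * (g 0 0 + g 1 1) ^ 2) * hd

/-- If `γ` translates a geodesic by `ℓ > 0` then `|tr γ| = 2 cosh (ℓ / 2)`. -/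
theorem tr_of_translates {γ : SL(2, ℝ)} {ℓ : ℝ} (hℓ : 0 < ℓ) {c : ℝ → ℍ} (hc : Isometry c)
    (h : ∀ t, γ • c t = c (t + ℓ)) : |tr γ| = 2 * Real.cosh (ℓ / 2) := by
  set k := (c 0).toSL2R with hk
  have hk0 : k • I = c 0 := toSL2R_smul_I (c 0)
  set A := k⁻¹ * γ * k with hA
  have e1 : dist I (A • I) = ℓ := by
    rw [← dist_smul k I (A • I), smul_smul, hA]
    rw [show k * (k⁻¹ * γ * k) = γ * k by group, mul_smul, hk0, h 0, hc.dist_eq, zero_add,
      Real.dist_eq, zero_sub, abs_neg, abs_of_pos hℓ]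
  have e2 : dist I ((A ^ 2) • I) = 2 * ℓ := by
    rw [← dist_smul k I ((A ^ 2) • I), smul_smul, hA]
    rw [show k * (k⁻¹ * γ * k) ^ 2 = γ * (γ * k) by rw [pow_two]; group, mul_smul, mul_smul, hk0, h 0, h _, hc.dist_eq,
      zero_add, Real.dist_eq, zero_sub, abs_neg, abs_of_pos (by positivity)]
    ring
  have f1 := cosh_dist_I A
  have f2 := cosh_dist_I (A ^ 2)
  rw [e1] at f1
  rw [e2, Real.cosh_two_mul, nsq_sq, hA, tr_conj, ← hA] at f2
  have hs := Real.cosh_sq ℓ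
  have hc1 : 1 < Real.cosh ℓ := Real.one_lt_cosh.mpr hℓ.ne'
  have hc2 : Real.cosh ℓ = 2 * Real.cosh (ℓ / 2) ^ 2 - 1 := by
    have := Real.cosh_two_mul (ℓ / 2)
    rw [show 2 * (ℓ / 2) = ℓ by ring, Real.sinh_sq] at this
    linarith
  have h2 : tr γ ^ 2 = 2 * (Real.cosh ℓ + 1) := by
    have h3 : (Real.cosh ℓ - 1) * (tr γ ^ 2 - 2 * (Real.cosh ℓ + 1)) = 0 := by
      have h4 : nsq A = 2 * Real.cosh ℓ := by linarith
      rw [h4] at f2
      nlinarith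
    rcases mul_eq_zero.mp h3 with h4 | h4
    · linarith
    · linarith
  have h5 : |tr γ| ^ 2 = (2 * Real.cosh (ℓ / 2)) ^ 2 := by
    rw [sq_abs, h2, hc2]
    ring
  have h6 : 0 < Real.cosh (ℓ / 2) := Real.cosh_pos _
  exact (pow_left_inj₀ (abs_nonneg _) (by positivity) two_ne_zero).mp h5

theorem neg_smul' (g : SL(2, ℝ)) (z : ℍ) : (-g) • z = g • z := by
  ext1
  rw [coe_specialLinearGroup_apply, coe_specialLinearGroup_apply]
  simp only [Algebra.algebraMap_self, RingHom.id_apply, Matrix.SpecialLinearGroup.coe_neg, Matrix.neg_apply,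
    Complex.ofReal_neg]
  rw [← neg_div_neg_eq]
  congr 1 <;> ring

/-- the diagonal matrix `diag (l, l⁻¹)` -/
noncomputable def dg (l : ℝ) (hl : l ≠ 0) : SL(2, ℝ) := ⟨!![l, 0; 0, l⁻¹], by
  rw [Matrix.det_fin_two_of, mul_inv_cancel₀ hl]; ring⟩

theorem dg_smul (ℓ t : ℝ) : dg (Real.exp (ℓ / 2)) (Real.exp_pos _).ne' •
    (mk ⟨0, Real.exp t⟩ (Real.exp_pos t) : ℍ) = mk ⟨0, Real.exp (t + ℓ)⟩ (Real.exp_pos _) := by
  ext1
  rw [coe_specialLinearGroup_apply]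
  have e : Real.exp (t + ℓ) = Real.exp (ℓ / 2) * Real.exp (ℓ / 2) * Real.exp t := by
    rw [← Real.exp_add, ← Real.exp_add]
    ring_nf
  have h0 : (Real.exp (ℓ / 2) : ℂ) ≠ 0 := by exact_mod_cast (Real.exp_pos _).ne'
  simp only [dg, Algebra.algebraMap_self, RingHom.id_apply]
  show (((!![Real.exp (ℓ / 2), 0; 0, (Real.exp (ℓ / 2))⁻¹] 0 0 : ℝ) : ℂ) * (⟨0, Real.exp t⟩ : ℂ) +
    ((!![Real.exp (ℓ / 2), 0; 0, (Real.exp (ℓ / 2))⁻¹] 0 1 : ℝ) : ℂ)) /
    (((!![Real.exp (ℓ / 2), 0; 0, (Real.exp (ℓ / 2))⁻¹] 1 0 : ℝ) : ℂ) * (⟨0, Real.exp t⟩ : ℂ) +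
    ((!![Real.exp (ℓ / 2), 0; 0, (Real.exp (ℓ / 2))⁻¹] 1 1 : ℝ) : ℂ)) = (⟨0, Real.exp (t + ℓ)⟩ : ℂ)
  have e2 : (⟨0, Real.exp (t + ℓ)⟩ : ℂ) =
      (Real.exp (ℓ / 2) : ℂ) * (Real.exp (ℓ / 2) : ℂ) * (⟨0, Real.exp t⟩ : ℂ) := by
    rw [e]
    generalize Real.exp (ℓ / 2) = L
    apply Complex.ext
    · simp [Complex.mul_re, Complex.mul_im]
    · simp [Complex.mul_re, Complex.mul_im]
  rw [e2]
  simp
  field_simp

/-- Conversely, an element with `|tr γ| = 2 cosh (ℓ / 2)`, `ℓ > 0`, translates a geodesic by `ℓ`. -/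
theorem translates_of_tr {γ : SL(2, ℝ)} {ℓ : ℝ} (hℓ : 0 < ℓ) (h : |tr γ| = 2 * Real.cosh (ℓ / 2)) :
    ∃ c : ℝ → ℍ, Isometry c ∧ ∀ t, γ • c t = c (t + ℓ) := by
  set l := Real.exp (ℓ / 2) with hl
  have hl0 : 0 < l := Real.exp_pos _
  have hl1 : 1 < l := Real.one_lt_exp_iff.mpr (by positivity)
  have hl2 : l⁻¹ < 1 := inv_lt_one_of_one_lt₀ hl1
  have hco : 2 * Real.cosh (ℓ / 2) = l + l⁻¹ := by
    rw [Real.cosh_eq, Real.exp_neg, ← hl]
    ring
  -- reduce to `tr γ = l + l⁻¹`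
  obtain ⟨γ', hγ', hact⟩ : ∃ γ' : SL(2, ℝ), tr γ' = l + l⁻¹ ∧ ∀ z : ℍ, γ' • z = γ • z := by
    rcases abs_choice (tr γ) with h1 | h1
    · exact ⟨γ, by rw [← h1, h, hco], fun z => rfl⟩
    · refine ⟨-γ, by rw [tr_neg, ← h1, h, hco], fun z => ?_⟩
      exact neg_smul' γ z
  have hd := det_eq γ'
  rw [tr_eq] at hγ'
  have hll : l * l⁻¹ = 1 := mul_inv_cancel₀ hl0.ne'
  obtain ⟨v, hv0, hv⟩ := (Matrix.exists_mulVec_eq_zero_iff (M := (!![γ' 0 0 - l, γ' 0 1; γ' 1 0, γ' 1 1 - l] :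
    Matrix (Fin 2) (Fin 2) ℝ))).mpr (by
      rw [Matrix.det_fin_two_of]
      linear_combination hd - l * hγ' - hll)
  obtain ⟨w, hw0, hw⟩ := (Matrix.exists_mulVec_eq_zero_iff (M := (!![γ' 0 0 - l⁻¹, γ' 0 1; γ' 1 0, γ' 1 1 - l⁻¹] :
    Matrix (Fin 2) (Fin 2) ℝ))).mpr (by
      rw [Matrix.det_fin_two_of]
      linear_combination hd - l⁻¹ * hγ' - hll)
  have hv1 := congrFun hv 0
  have hv2 := congrFun hv 1
  have hw1 := congrFun hw 0
  have hw2 := congrFun hw 1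
  simp [Matrix.mulVec, dotProduct, Fin.sum_univ_two] at hv1 hv2 hw1 hw2
  have hD : v 0 * w 1 - w 0 * v 1 ≠ 0 := by
    intro hD
    have k0 : l - l⁻¹ ≠ 0 := by linarith [hl2, hl1] |> fun (h : 0 < l - l⁻¹) => h.ne'
    have k1 : v 0 * w 0 = 0 := by
      apply (mul_eq_zero.mp (_ : (l - l⁻¹) * (v 0 * w 0) = 0)).resolve_left k0
      linear_combination v 0 * hw1 - w 0 * hv1 - γ' 0 1 * hD
    have k2 : v 1 * w 1 = 0 := by
      apply (mul_eq_zero.mp (_ : (l - l⁻¹) * (v 1 * w 1) = 0)).resolve_left k0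
      linear_combination v 1 * hw2 - w 1 * hv2 + γ' 1 0 * hD
    by_cases h0 : v 0 = 0
    · have h1 : v 1 ≠ 0 := by
        intro h1
        apply hv0
        funext i
        fin_cases i
        · exact h0
        · exact h1
      have h2 : w 1 = 0 := (mul_eq_zero.mp k2).resolve_left h1
      have h3 : w 0 = 0 := by
        rw [h0, h2] at hD
        have : w 0 * v 1 = 0 := by linarith
        exact (mul_eq_zero.mp this).resolve_right h1
      apply hw0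
      funext i
      fin_cases i
      · exact h3
      · exact h2
    · have h2 : w 0 = 0 := (mul_eq_zero.mp k1).resolve_left h0
      have h3 : w 1 = 0 := by
        rw [h2] at hD
        have : v 0 * w 1 = 0 := by linarith
        exact (mul_eq_zero.mp this).resolve_left h0
      apply hw0
      funext i
      fin_cases i
      · exact h2
      · exact h3
  set D := v 0 * w 1 - w 0 * v 1 with hDdef
  have hdet : (!![v 0, w 0 / D; v 1, w 1 / D] : Matrix (Fin 2) (Fin 2) ℝ).det = 1 := by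
    rw [Matrix.det_fin_two_of]
    field_simp
    rw [hDdef]
  set k : SL(2, ℝ) := ⟨!![v 0, w 0 / D; v 1, w 1 / D], hdet⟩ with hk
  have hk1 : γ' * k = k * dg l hl0.ne' := by
    apply Subtype.ext
    rw [Matrix.SpecialLinearGroup.coe_mul, Matrix.SpecialLinearGroup.coe_mul]
    show (γ' : Matrix (Fin 2) (Fin 2) ℝ) * !![v 0, w 0 / D; v 1, w 1 / D] =
      !![v 0, w 0 / D; v 1, w 1 / D] * !![l, 0; 0, l⁻¹]
    ext i j
    fin_cases i <;> fin_cases j <;> simp [Matrix.mul_apply, Fin.sum_univ_two]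
    · linear_combination hv1
    · field_simp
      field_simp at hw1
      linear_combination hw1
    · linear_combination hv2
    · field_simp
      field_simp at hw2
      linear_combination hw2
  refine ⟨fun t => k • (mk ⟨0, Real.exp t⟩ (Real.exp_pos t) : ℍ), ?_, fun t => ?_⟩
  · exact (isometry_smul ℍ k).comp (isometry_vertical_line 0)
  · rw [← hact, smul_smul, hk1, mul_smul]
    congr 1
    exact dg_smul ℓ t

theorem mem_lengths_iff {Γ : Subgroup SL(2, ℝ)} {ℓ : ℝ} :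
    ℓ ∈ lengths Γ ↔ 0 < ℓ ∧ ∃ γ ∈ Γ, |tr γ| = 2 * Real.cosh (ℓ / 2) := by
  constructor
  · rintro ⟨h0, γ, hγ, c, hc, h⟩
    exact ⟨h0, γ, hγ, tr_of_translates h0 hc h⟩
  · rintro ⟨h0, γ, hγ, h⟩
    exact ⟨h0, γ, hγ, translates_of_tr h0 h⟩

end Pool.Agent.LCC
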