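import Pool.Agent.LCC.Stage

/-!
# LCC/Last: the stages of the last handle
-/

namespace Pool.Agent.LCC

open Cardinal

theorem exists_rat_ne {φ : (Fin 4 → ℝ) → ℝ} (hφ : Continuous φ) {m : Fin 4 → ℝ} (hm : φ m ≠ 0) :
    ∃ q : Fin 4 → ℚ, φ (fun i => (q i : ℝ)) ≠ 0 := by
  have ho : IsOpen {m | φ m ≠ 0} := isOpen_ne_fun hφ continuous_const
  have hd : DenseRange (fun q : Fin 4 → ℚ => fun i => (q i : ℝ)) :=
    DenseRange.piMap (fun _ => Rat.denseRange_cast)
  obtain ⟨q, hq⟩ := hd.exists_mem_open ho ⟨m, hm⟩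
  exact ⟨q, hq⟩

theorem commute_of_comb {A Z : Mat} (hA : ∀ a : ℝ, A ≠ a • (1 : Mat)) (h : A * Z = Z * A) :
    ∃ k0 k1 : ℝ, Z = k0 • (1 : Mat) + k1 • A := by
  have e00 := congrFun (congrFun h 0) 0
  have e01 := congrFun (congrFun h 0) 1
  have e10 := congrFun (congrFun h 1) 0
  rw [mul_ent, mul_ent] at e00 e01 e10
  by_cases h01 : A 0 1 = 0
  · by_cases h10 : A 1 0 = 0
    · have h3 : A 0 0 ≠ A 1 1 := by
        intro h3
        exact hA (A 0 0) (mat_ext (by simp) (by simp [h01]) (by simp [h10]) (by simp [h3]))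
      have h4 : A 0 0 - A 1 1 ≠ 0 := sub_ne_zero.mpr h3
      have z01 : Z 0 1 = 0 := by
        have : (A 0 0 - A 1 1) * Z 0 1 = 0 := by rw [h01] at e01; linarith
        exact (mul_eq_zero.mp this).resolve_left h4
      have z10 : Z 1 0 = 0 := by
        have : (A 0 0 - A 1 1) * Z 1 0 = 0 := by rw [h10] at e10; linarith
        exact (mul_eq_zero.mp this).resolve_left h4
      refine ⟨Z 0 0 - (Z 0 0 - Z 1 1) / (A 0 0 - A 1 1) * A 0 0, (Z 0 0 - Z 1 1) / (A 0 0 - A 1 1), mat_ext ?_ ?_ ?_ ?_⟩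
      · simp
      · simp [h01, z01]
      · simp [h10, z10]
      · simp
        field_simp
        ring
    · refine ⟨Z 0 0 - Z 1 0 / A 1 0 * A 0 0, Z 1 0 / A 1 0, mat_ext ?_ ?_ ?_ ?_⟩
      · simp
      · simp [h01]
        rw [h01] at e00
        have : Z 0 1 * A 1 0 = 0 := by linarith
        exact (mul_eq_zero.mp this).resolve_right h10
      · simp
        field_simp
      · simp
        field_simp
        linarith
  · refine ⟨Z 0 0 - Z 0 1 / A 0 1 * A 0 0, Z 0 1 / A 0 1, mat_ext ?_ ?_ ?_ ?_⟩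
    · simp
    · simp
      field_simp
    · simp
      field_simp
      linarith
    · simp
      field_simp
      linarith

theorem exists_noncomm {C : Mat} (hC : C.det = 1) (ht : C.trace ^ 2 ≠ 4) : ∃ Y : Mat, (C * Y - Y * C).det ≠ 0 := by
  rw [Matrix.det_fin_two] at hC
  rw [Matrix.trace_fin_two] at ht
  have hdet : ∀ Y : Mat, (C * Y - Y * C).det = -(C 0 1 * Y 1 0 - C 1 0 * Y 0 1) ^ 2 -
      (C 0 1 * (Y 1 1 - Y 0 0) + (C 0 0 - C 1 1) * Y 0 1) * (C 1 0 * (Y 0 0 - Y 1 1) + (C 1 1 - C 0 0) * Y 1 0) := by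
    intro Y
    rw [Matrix.det_fin_two]
    simp only [Matrix.sub_apply, mul_ent]
    ring
  by_cases h0 : C 0 1 * C 1 0 = 0
  · have h1 : (C 0 0 - C 1 1) ^ 2 ≠ 0 := by
      intro h1
      apply ht
      nlinarith
    have h2 : 0 < (C 0 0 - C 1 1) ^ 2 := lt_of_le_of_ne (sq_nonneg _) (Ne.symm h1)
    rcases mul_eq_zero.mp h0 with h3 | h3
    · refine ⟨!![0, 1; (C 1 0 ^ 2 + 1) / (C 0 0 - C 1 1) ^ 2, 0], ?_⟩
      rw [hdet, h3]
      simp
      have h4 : C 0 0 - C 1 1 ≠ 0 := fun h => h1 (by rw [h]; ring)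
      have h5 : (C 0 0 - C 1 1) * ((C 1 1 - C 0 0) * ((C 1 0 ^ 2 + 1) / (C 0 0 - C 1 1) ^ 2)) = -(C 1 0 ^ 2 + 1) := by
        field_simp
        ring
      rw [h5]
      intro h6
      linarith
    · refine ⟨!![0, (C 0 1 ^ 2 + 1) / (C 0 0 - C 1 1) ^ 2; 1, 0], ?_⟩
      rw [hdet, h3]
      simp
      have h4 : C 0 0 - C 1 1 ≠ 0 := fun h => h1 (by rw [h]; ring)
      have h5 : (C 0 0 - C 1 1) * ((C 0 1 ^ 2 + 1) / (C 0 0 - C 1 1) ^ 2) * (C 1 1 - C 0 0) = -(C 0 1 ^ 2 + 1) := by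
        field_simp
        ring
      rw [h5]
      intro h6
      linarith
  · refine ⟨!![1, 0; 0, 0], ?_⟩
    rw [hdet]
    simp
    constructor
    · exact fun h => h0 (by rw [h, zero_mul])
    · exact fun h => h0 (by rw [h, mul_zero])

/-- A function of the coordinates that does not vanish identically does not vanish at some rational point. -/
theorem exists_inAlg {P Q : Mat} (hJ : (P * Q - Q * P).det ≠ 0) (M : IntermediateField ℚ ℝ) {φ : Mat → ℝ}
    (hφ : Continuous φ) {Y : Mat} (hY : φ Y ≠ 0) : ∃ Z : Mat, InAlg M P Q Z ∧ φ Z ≠ 0 := by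
  obtain ⟨m0, m1, m2, m3, hYc⟩ := exists_comb hJ Y
  have hc : Continuous (fun m : Fin 4 → ℝ => comb P Q (m 0) (m 1) (m 2) (m 3)) := by
    unfold comb
    fun_prop
  obtain ⟨q, hq⟩ := exists_rat_ne (hφ.comp hc) (m := ![m0, m1, m2, m3]) (by
    simp only [Function.comp]
    simpa [← hYc] using hY)
  refine ⟨_, ⟨(q 0 : ℝ), ?_, (q 1 : ℝ), ?_, (q 2 : ℝ), ?_, (q 3 : ℝ), ?_, rfl⟩, hq⟩ <;>
    exact_mod_cast M.algebraMap_mem _

theorem not_alg_two {M : IntermediateField ℚ ℝ} {m1 m2 m0 : ℝ} (halg : IsAlgebraic (adj (adj M m1) m2) m0)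
    (hn : td M + (2 : ℕ) ≤ td (adj (adj (adj M m1) m2) m0)) (hfin : td (adj (adj (adj M m1) m2) m0) < ℵ₀) :
    ¬ IsAlgebraic M m1 ∧ ¬ IsAlgebraic (adj M m1) m2 := by
  have hM : td M < ℵ₀ := (le_self_add.trans hn).trans_lt hfin
  have h1 := td_adj_le M m1
  have h2 := td_adj_le (adj M m1) m2
  have h4 := td_adj_of_algebraic halg
  have f1 : td (adj M m1) < ℵ₀ := h1.trans_lt (add_lt_aleph0 hM one_lt_aleph0)
  have f2 : td (adj (adj M m1) m2) < ℵ₀ := h2.trans_lt (add_lt_aleph0 f1 one_lt_aleph0)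
  have g1 : IsAlgebraic M m1 → td (adj M m1) ≤ td M := fun h => td_adj_of_algebraic h
  have g2 : IsAlgebraic (adj M m1) m2 → td (adj (adj M m1) m2) ≤ td (adj M m1) := fun h => td_adj_of_algebraic h
  obtain ⟨a, ha⟩ := lt_aleph0.mp hM
  obtain ⟨b, hb⟩ := lt_aleph0.mp f1
  obtain ⟨c, hc⟩ := lt_aleph0.mp f2
  obtain ⟨f, hf⟩ := lt_aleph0.mp hfin
  rw [ha] at hn h1 g1
  rw [hb] at h1 h2 g1 g2
  rw [hc] at h2 h4 g2
  rw [hf] at hn h4
  norm_cast at hn h1 h2 h4 g1 g2
  refine ⟨fun h => ?_, fun h => ?_⟩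
  · have := g1 h
    omega
  · have := g2 h
    omega

theorem not_alg_one {M : IntermediateField ℚ ℝ} {m1 m0 : ℝ} (halg : IsAlgebraic (adj M m1) m0)
    (hn : td M + (1 : ℕ) ≤ td (adj (adj M m1) m0)) (hfin : td (adj (adj M m1) m0) < ℵ₀) :
    ¬ IsAlgebraic M m1 := by
  have hM : td M < ℵ₀ := (le_self_add.trans hn).trans_lt hfin
  have h1 := td_adj_le M m1
  have h4 := td_adj_of_algebraic halg
  have f1 : td (adj M m1) < ℵ₀ := h1.trans_lt (add_lt_aleph0 hM one_lt_aleph0)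
  intro h
  have g1 : td (adj M m1) ≤ td M := td_adj_of_algebraic h
  obtain ⟨a, ha⟩ := lt_aleph0.mp hM
  obtain ⟨b, hb⟩ := lt_aleph0.mp f1
  obtain ⟨f, hf⟩ := lt_aleph0.mp hfin
  rw [ha] at hn g1
  rw [hb] at g1 h4
  rw [hf] at hn h4
  norm_cast at hn h4 g1
  omega

/-! ### Matrices orthogonal to `1` and `C` -/

theorem comm_trace (C Y : Mat) : (C * Y - Y * C).trace = 0 := by
  rw [Matrix.trace_sub, Matrix.trace_mul_comm, sub_self]

theorem comm_trace' (C Y : Mat) : (C * (C * Y - Y * C)).trace = 0 := by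
  rw [mul_sub, Matrix.trace_sub, ← mul_assoc C Y C, Matrix.trace_mul_comm (C * Y) C, sub_self]

theorem det_comm_orth {C D : Mat} (hC : C.det = 1) (h1 : D.trace = 0) (h2 : (C * D).trace = 0) :
    (C * D - D * C).det = (4 - C.trace ^ 2) * D.det := by
  rw [Matrix.det_fin_two] at hC ⊢
  rw [Matrix.det_fin_two]
  rw [Matrix.trace_fin_two] at h1 h2 ⊢
  rw [mul_ent, mul_ent] at h2
  simp only [Matrix.sub_apply, mul_ent]
  generalize C 0 0 = a at *
  generalize C 0 1 = b at *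
  generalize C 1 0 = c at *
  generalize C 1 1 = d at *
  generalize D 0 0 = x at *
  generalize D 0 1 = y at *
  generalize D 1 0 = z at *
  generalize D 1 1 = w at *
  obtain rfl : w = -x := by linarith
  grind

theorem det_stageA {C D : Mat} (hC : C.det = 1) (h1 : D.trace = 0) (h2 : (C * D).trace = 0) (n0 n1 n2 : ℝ) :
    (comb C D n0 n0 n1 n2).det = (2 + C.trace) * n0 ^ 2 + (n1 ^ 2 + C.trace * n1 * n2 + n2 ^ 2) * D.det := by
  rw [Matrix.det_fin_two] at hC ⊢
  rw [Matrix.det_fin_two]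
  rw [Matrix.trace_fin_two] at h1 h2 ⊢
  rw [mul_ent, mul_ent] at h2
  simp only [comb_apply, one00, one01, one10, one11]
  generalize C 0 0 = a at *
  generalize C 0 1 = b at *
  generalize C 1 0 = c at *
  generalize C 1 1 = d at *
  generalize D 0 0 = x at *
  generalize D 0 1 = y at *
  generalize D 1 0 = z at *
  generalize D 1 1 = w at *
  obtain rfl : w = -x := by linarith
  grind

theorem coeff_stageA {C D : Mat} (hC : C.det = 1) (h1 : D.trace = 0) (h2 : (C * D).trace = 0) (ht : C.trace ≠ 2)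
    {p0 p1 n1 n2 : ℝ} (h : (((comb C D p0 p1 n1 n2).trace • (1 : Mat) - comb C D p0 p1 n1 n2) * C).trace =
      (comb C D p0 p1 n1 n2).trace) : p0 = p1 := by
  have key : (((comb C D p0 p1 n1 n2).trace • (1 : Mat) - comb C D p0 p1 n1 n2) * C).trace -
      (comb C D p0 p1 n1 n2).trace = (p0 - p1) * (C.trace - 2) := by
    rw [Matrix.det_fin_two] at hC
    rw [Matrix.trace_fin_two] at h1 h2
    rw [mul_ent, mul_ent] at h2
    rw [Matrix.trace_fin_two (_ * C), Matrix.trace_fin_two C, mul_ent, mul_ent]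
    simp only [Matrix.sub_apply, Matrix.smul_apply, Matrix.trace_fin_two, smul_eq_mul, comb_apply, one00, one01,
      one10, one11]
    generalize C 0 0 = a at *
    generalize C 0 1 = b at *
    generalize C 1 0 = c at *
    generalize C 1 1 = d at *
    generalize D 0 0 = x at *
    generalize D 0 1 = y at *
    generalize D 1 0 = z at *
    generalize D 1 1 = w at *
    clear h ht
    obtain rfl : w = -x := by linarith
    grind
  rw [h, sub_self] at key
  have h3 := (mul_eq_zero.mp key.symm).resolve_right (sub_ne_zero.mpr ht)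
  linarith

theorem mul_adj' {A : Mat} (hA : A.det = 1) : A * (A.trace • (1 : Mat) - A) = 1 := by
  rw [Matrix.det_fin_two] at hA
  apply mat_ext <;> simp only [mul_ent, Matrix.sub_apply, Matrix.smul_apply, Matrix.trace_fin_two, smul_eq_mul,
    one00, one01, one10, one11] <;> grind

theorem adj_mul' {A : Mat} (hA : A.det = 1) : (A.trace • (1 : Mat) - A) * A = 1 := by
  rw [Matrix.det_fin_two] at hA
  apply mat_ext <;> simp only [mul_ent, Matrix.sub_apply, Matrix.smul_apply, Matrix.trace_fin_two, smul_eq_mul,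
    one00, one01, one10, one11] <;> grind

/-- the intertwining relation `A⁻¹ C B = B A⁻¹` -/
theorem intertwine {A B C : Mat} (hA : A.det = 1) (hrel : A * B = C * (B * A)) :
    (A.trace • (1 : Mat) - A) * C * B = B * (A.trace • (1 : Mat) - A) := by
  have h1 := mul_adj' hA
  have h2 := adj_mul' hA
  set A' := A.trace • (1 : Mat) - A with hA'
  calc A' * C * B = A' * C * B * (A * A') := by rw [h1, mul_one]
    _ = A' * (C * (B * A)) * A' := by simp only [mul_assoc]
    _ = A' * (A * B) * A' := by rw [hrel]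
    _ = (A' * A) * B * A' := by simp only [mul_assoc]
    _ = B * A' := by rw [h2, one_mul]

theorem trace_rel {A B C : Mat} (hA : A.det = 1) (hB : B.det = 1) (hrel : A * B = C * (B * A)) :
    ((A.trace • (1 : Mat) - A) * C).trace = A.trace := by
  have h0 := intertwine hA hrel
  have h3 := mul_adj' hB
  have h4 := adj_mul' hB
  set A' := A.trace • (1 : Mat) - A with hA'
  set B' := B.trace • (1 : Mat) - B with hB'
  calc (A' * C).trace = (A' * C * B * B').trace := by rw [mul_assoc (A' * C) B B', h3, mul_one]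
    _ = (B * A' * B').trace := by rw [h0]
    _ = (A' * (B' * B)).trace := by rw [mul_assoc, Matrix.trace_mul_comm, mul_assoc]
    _ = A'.trace := by rw [h4, mul_one]
    _ = A.trace := by
      rw [hA', Matrix.trace_sub, Matrix.trace_smul, Matrix.trace_one]
      simp
      ring

/-- The stage of the matrix `A` of the last handle: two parameters. -/
theorem stage_A {P Q : Mat} (hP : P.det = 1) (hQ : Q.det = 1) (hJ : (P * Q - Q * P).det ≠ 0)
    {M : IntermediateField ℚ ℝ} (hx : P.trace ∈ M) (hy : Q.trace ∈ M) (hz : (P * Q).trace ∈ M)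
    {A B C : Mat} (hC : InAlg M P Q C) (hCd : C.det = 1) (hCt : C.trace ^ 2 ≠ 4) (hA : A.det = 1) (hB : B.det = 1)
    (hrel : A * B = C * (B * A)) : ∃ M' : IntermediateField ℚ ℝ, Stage P Q M M' 2 ∧ InAlg M' P Q A := by
  obtain ⟨Y, hY⟩ := exists_noncomm hCd hCt
  obtain ⟨Z, hZ, hZ0⟩ := exists_inAlg hJ M (φ := fun Y => (C * Y - Y * C).det) (by fun_prop) hY
  obtain ⟨D, hD⟩ : ∃ D, D = C * Z - Z * C := ⟨_, rfl⟩
  have hDM : InAlg M P Q D := by
    rw [hD]
    exact (hC.mul hP hQ hx hy hz hZ).sub (hZ.mul hP hQ hx hy hz hC)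
  have hD1 : D.trace = 0 := by rw [hD]; exact comm_trace C Z
  have hD2 : (C * D).trace = 0 := by rw [hD]; exact comm_trace' C Z
  have hδ : D.det ≠ 0 := by rw [hD]; exact hZ0
  have hD0 : D ≠ 0 := by
    rintro h
    rw [h] at hδ
    simp at hδ
  have hJ' : (C * D - D * C).det ≠ 0 := by
    rw [det_comm_orth hCd hD1 hD2]
    exact mul_ne_zero (fun h => hCt (by linarith)) hδ
  have ht2 : C.trace ≠ 2 := fun h => hCt (by rw [h]; norm_num)
  have htm2 : 2 + C.trace ≠ 0 := fun h => hCt (by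
    have : C.trace = -2 := by linarith
    rw [this]; norm_num)
  obtain ⟨p0, n0, n1, n2, hAc⟩ := exists_comb hJ' A
  have hp : p0 = n0 := by
    apply coeff_stageA hCd hD1 hD2 ht2 (n1 := n1) (n2 := n2)
    rw [← hAc]
    exact trace_rel hA hB hrel
  rw [hp] at hAc
  have hq := det_stageA hCd hD1 hD2 n0 n1 n2
  rw [← hAc, hA] at hq
  set M1 := adj M n1 with hM1
  set M2 := adj M1 n2 with hM2
  set M3 := adj M2 n0 with hM3
  have l1 : M ≤ M1 := le_adj _ _
  have l2 : M1 ≤ M2 := le_adj _ _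
  have l3 : M2 ≤ M3 := le_adj _ _
  have i1 : n1 ∈ M1 := mem_adj _ _
  have i2 : n2 ∈ M2 := mem_adj _ _
  have i0 : n0 ∈ M3 := mem_adj _ _
  have j1 : n1 ∈ M2 := l2 i1
  have ct : C.trace ∈ M := hC.trace_mem hx hy hz
  have cd : D.det ∈ M := hDM.det_mem hP hQ hx hy hz
  have ct2 : C.trace ∈ M2 := l2 (l1 ct)
  have cd2 : D.det ∈ M2 := l2 (l1 cd)
  have two2 : (2 : ℝ) ∈ M2 := by exact_mod_cast M2.algebraMap_mem 2
  obtain ⟨α, hα⟩ : ∃ α, α = 2 + C.trace := ⟨_, rfl⟩
  obtain ⟨γ, hγ⟩ : ∃ γ, γ = (n1 ^ 2 + C.trace * n1 * n2 + n2 ^ 2) * D.det - 1 := ⟨_, rfl⟩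
  have hαM : α ∈ M2 := by rw [hα]; exact M2.add_mem two2 ct2
  have hsM : n1 ^ 2 + C.trace * n1 * n2 + n2 ^ 2 ∈ M2 :=
    M2.add_mem (M2.add_mem (pow_mem j1 2) (M2.mul_mem (M2.mul_mem ct2 j1) i2)) (pow_mem i2 2)
  have hγM : γ ∈ M2 := by
    rw [hγ]
    exact M2.sub_mem (M2.mul_mem hsM cd2) M2.one_mem
  have hα0 : α ≠ 0 := by rw [hα]; exact htm2
  have heq : α * n0 ^ 2 + 0 * n0 + γ = 0 := by
    rw [hα, hγ]
    linear_combination -hq
  have halg : IsAlgebraic M2 n0 := isAlgebraic_of_quadratic hαM M2.zero_mem hγM hα0 heq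
  refine ⟨M3, ⟨(l1.trans l2).trans l3, ?_, ?_⟩, ?_⟩
  · calc td M3 ≤ td M2 := td_adj_of_algebraic halg
      _ ≤ td M1 + 1 := td_adj_le _ _
      _ ≤ (td M + 1) + 1 := add_le_add (td_adj_le _ _) le_rfl
      _ = td M + (2 : ℕ) := by
        rw [add_assoc]
        norm_num
  · intro e he hG hn hfin
    obtain ⟨t1, t2⟩ := not_alg_two halg hn hfin
    subst he
    have hvδ : 0 < e.v D.det := hG.pos hP hQ hDM hD0
    have hvt : e.v C.trace ^ 2 ≤ 4 := by
      have := hG.tr_le hP hQ hC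
      rwa [hCd, e.v_one, mul_one] at this
    have hvα : 0 < 2 + e.v C.trace := by
      have h1 : -2 ≤ e.v C.trace := by nlinarith
      rcases h1.lt_or_eq with h2 | h2
      · linarith
      · exfalso
        apply htm2
        apply e.v_eq_zero (e.M.add_mem e.two_mem ct)
        rw [e.v_add e.two_mem ct, e.v_two, ← h2]
        norm_num
    obtain ⟨S, hS⟩ : ∃ S : ℝ, S = 1 + 4 * e.v D.det := ⟨_, rfl⟩
    have hS1 : 1 ≤ S := by linarith
    have hd0 : 0 < 1 / S := by positivity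
    obtain ⟨e1, he1, hM1', v1, w1⟩ := e.step_transcendental t1 hd0
    have hM1'' : e1.M = M1 := hM1'
    obtain ⟨e2, he2, hM2', v2, w2⟩ := e1.step_transcendental (c := n2) (by rw [hM1'']; exact t2) hd0
    have hM2'' : e2.M = M2 := by rw [hM2', hM1'']
    have u1 : e2.v n1 = e1.v n1 := he2.2 _ (by rw [hM1'']; exact i1)
    have hle2 : e.le e2 := Emb.le_trans he1 he2
    have ut : e2.v C.trace = e.v C.trace := hle2.2 _ ct
    have ud : e2.v D.det = e.v D.det := hle2.2 _ cd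
    have k1 : n1 ∈ e2.M := by rw [hM2'']; exact j1
    have k2 : n2 ∈ e2.M := by rw [hM2'']; exact i2
    have kt : C.trace ∈ e2.M := by rw [hM2'']; exact ct2
    have kd : D.det ∈ e2.M := by rw [hM2'']; exact cd2
    have ks : n1 ^ 2 + C.trace * n1 * n2 + n2 ^ 2 ∈ e2.M := by rw [hM2'']; exact hsM
    have hvα2 : e2.v α = 2 + e.v C.trace := by rw [hα, e2.v_add e2.two_mem kt, e2.v_two, ut]
    have hvγ : e2.v γ ≤ 0 := by
      rw [hγ, e2.v_sub (e2.M.mul_mem ks kd) e2.M.one_mem, e2.v_one, e2.v_mul ks kd,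
        e2.v_add (e2.M.add_mem (pow_mem k1 2) (e2.M.mul_mem (e2.M.mul_mem kt k1) k2)) (pow_mem k2 2),
        e2.v_add (pow_mem k1 2) (e2.M.mul_mem (e2.M.mul_mem kt k1) k2), e2.v_sq k1, e2.v_sq k2,
        e2.v_mul (e2.M.mul_mem kt k1) k2, e2.v_mul kt k1, ut, ud, u1]
      generalize e1.v n1 = p at *
      generalize e2.v n2 = q at *
      generalize e.v C.trace = T at *
      generalize e.v D.det = δ at *
      have hS0 : 0 < S := by linarith
      obtain ⟨d, hd⟩ : ∃ d, d = 1 / S := ⟨_, rfl⟩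
      rw [← hd] at w1 w2 hd0
      have hdS : d * S = 1 := by rw [hd]; field_simp
      have hd1 : d ≤ 1 := by nlinarith
      have hT : T ≤ 2 := by nlinarith
      have b1 : T * p * q ≤ 2 * d ^ 2 := by
        have c1 : p * q ≤ d ^ 2 := by nlinarith
        have c2 : 0 ≤ p * q := by positivity
        nlinarith
      have b2 : p ^ 2 ≤ d ^ 2 := by nlinarith
      have b3 : q ^ 2 ≤ d ^ 2 := by nlinarith
      have b4 : (p ^ 2 + T * p * q + q ^ 2) * δ ≤ (4 * d ^ 2) * δ :=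
        mul_le_mul_of_nonneg_right (by linarith) hvδ.le
      have b5 : 4 * d ^ 2 * δ ≤ 1 := by
        have c1 : d * (4 * δ) ≤ 1 := by
          have : d * (4 * δ) = d * S - d := by rw [hS]; ring
          linarith
        have c2 : 0 ≤ d * (4 * δ) := by positivity
        nlinarith
      linarith
    have hα2 : α ∈ e2.M := by rw [hM2'']; exact hαM
    have hγ2 : γ ∈ e2.M := by rw [hM2'']; exact hγM
    obtain ⟨e3, he3, hM3'⟩ := e2.step_quadratic (c := n0) hα2 e2.M.zero_mem hγ2 hα0 heq (by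
      rw [hvα2]
      nlinarith [sq_nonneg (e2.v 0)])
    exact ⟨e3, Emb.le_trans hle2 he3, by rw [hM3', hM2'']⟩
  · have hx3 := l3 (l2 (l1 hx))
    have hy3 := l3 (l2 (l1 hy))
    have hz3 := l3 (l2 (l1 hz))
    have hC3 : InAlg M3 P Q C := hC.mono ((l1.trans l2).trans l3)
    have hD3 : InAlg M3 P Q D := hDM.mono ((l1.trans l2).trans l3)
    rw [hAc, comb]
    exact (((InAlg.one.smul i0).add (hC3.smul i0)).add (hD3.smul (l3 j1))).add
      ((hC3.mul hP hQ hx3 hy3 hz3 hD3).smul (l3 i2))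

end Pool.Agent.LCC
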