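import Pool.Agent.LCC.Last

/-!
# LCC/LastB: the stage of the last matrix
-/

namespace Pool.Agent.LCC

open Cardinal

theorem sq_eq (R : Mat) : R * R = R.trace • R - R.det • (1 : Mat) := by
  apply mat_ext <;> simp only [mul_ent, Matrix.sub_apply, Matrix.smul_apply, Matrix.trace_fin_two, Matrix.det_fin_two,
    smul_eq_mul, one00, one01, one10, one11] <;> ring

theorem det_stageB (A : Mat) (hA : A.det = 1) (k0 k1 : ℝ) :
    (k0 • (1 : Mat) + k1 • A).det = k0 ^ 2 + A.trace * k1 * k0 + k1 ^ 2 := by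
  rw [Matrix.det_fin_two] at hA ⊢
  simp only [Matrix.add_apply, Matrix.smul_apply, Matrix.trace_fin_two, smul_eq_mul, one00, one01, one10, one11]
  linear_combination k1 ^ 2 * hA

theorem det_adj_sub (A : Mat) (hA : A.det = 1) : (A.trace • (1 : Mat) - A - A).det = 4 - A.trace ^ 2 := by
  rw [Matrix.det_fin_two] at hA ⊢
  simp only [Matrix.sub_apply, Matrix.smul_apply, Matrix.trace_fin_two, smul_eq_mul, one00, one01, one10, one11]
  linear_combination 4 * hA

theorem det_adj' (A : Mat) : (A.trace • (1 : Mat) - A).det = A.det := by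
  rw [Matrix.det_fin_two, Matrix.det_fin_two]
  simp only [Matrix.sub_apply, Matrix.smul_apply, Matrix.trace_fin_two, smul_eq_mul, one00, one01, one10, one11]
  ring

/-- The stage of the matrix `B` of the last handle: one parameter. -/
theorem stage_B {P Q : Mat} (hP : P.det = 1) (hQ : Q.det = 1) (hJ : (P * Q - Q * P).det ≠ 0)
    {M : IntermediateField ℚ ℝ} (hx : P.trace ∈ M) (hy : Q.trace ∈ M) (hz : (P * Q).trace ∈ M)
    {A B C : Mat} (hA : InAlg M P Q A) (hC : InAlg M P Q C) (hAd : A.det = 1) (hCd : C.det = 1) (hBd : B.det = 1)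
    (hrel : A * B = C * (B * A)) (hAt : A.trace ^ 2 ≠ 4) :
    ∃ M' : IntermediateField ℚ ℝ, Stage P Q M M' 1 ∧ InAlg M' P Q B := by
  have hint := intertwine hAd hrel
  have htr := trace_rel hAd hBd hrel
  have hAA' := mul_adj' hAd
  have hA'A := adj_mul' hAd
  have hA'M : InAlg M P Q (A.trace • (1 : Mat) - A) := hA.adj hx hy hz
  have hdA' : (A.trace • (1 : Mat) - A).det = 1 := by rw [det_adj', hAd]
  have hdd := det_adj_sub A hAd
  obtain ⟨A', hA'⟩ : ∃ A', A' = A.trace • (1 : Mat) - A := ⟨_, rfl⟩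
  rw [← hA'] at hint htr hAA' hA'A hA'M hdA' hdd
  obtain ⟨R, hR⟩ : ∃ R, R = A' * C := ⟨_, rfl⟩
  have hRM : InAlg M P Q R := by rw [hR]; exact hA'M.mul hP hQ hx hy hz hC
  have hRt : R.trace = A.trace := by rw [hR]; exact htr
  have hRd : R.det = 1 := by rw [hR, Matrix.det_mul, hdA', hCd, one_mul]
  have hRR : R * R = A.trace • R - (1 : Mat) := by rw [sq_eq, hRt, hRd, one_smul]
  rw [← hR] at hint
  -- the solutions `R Y - Y A` of the intertwining relation
  have hsol : ∀ Y : Mat, (R * Y - Y * A) * A' = R * (R * Y - Y * A) := by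
    intro Y
    have e1 : (R * Y - Y * A) * A' = R * Y * A' - Y := by
      rw [sub_mul, mul_assoc Y A A', hAA', mul_one]
    have e2 : R * (R * Y - Y * A) = R * Y * A' - Y := by
      rw [mul_sub, ← mul_assoc R R Y, hRR, hA']
      simp only [sub_mul, mul_sub, smul_mul_assoc, mul_smul_comm, one_mul, mul_one, mul_assoc]
      abel
    rw [e1, e2]
  have hBne : (R * B - B * A).det ≠ 0 := by
    rw [hint, ← mul_sub, Matrix.det_mul, hBd, one_mul, hdd]
    exact fun h => hAt (by linarith)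
  obtain ⟨Z, hZ, hZ0⟩ := exists_inAlg hJ M (φ := fun Y => (R * Y - Y * A).det) (by fun_prop) hBne
  obtain ⟨f, hf⟩ : ∃ f, f = R * Z - Z * A := ⟨_, rfl⟩
  have hfM : InAlg M P Q f := by
    rw [hf]
    exact (hRM.mul hP hQ hx hy hz hZ).sub (hZ.mul hP hQ hx hy hz hA)
  have hfd : f.det ≠ 0 := by rw [hf]; exact hZ0
  have hf0 : f ≠ 0 := by
    rintro h
    rw [h] at hfd
    simp at hfd
  have hfs : f * A' = R * f := by rw [hf]; exact hsol Z
  have hfu : IsUnit f.det := isUnit_iff_ne_zero.mpr hfd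
  obtain ⟨W, hW⟩ : ∃ W, W = f⁻¹ * B := ⟨_, rfl⟩
  have hfW : f * W = B := by rw [hW, ← mul_assoc, Matrix.mul_nonsing_inv f hfu, one_mul]
  have hcomm' : A' * W = W * A' := by
    have h1 : f * (A' * W) = f * (W * A') := by
      rw [← mul_assoc, hfs, mul_assoc, hfW, hint, ← hfW, mul_assoc]
    calc A' * W = f⁻¹ * (f * (A' * W)) := by rw [← mul_assoc f⁻¹, Matrix.nonsing_inv_mul f hfu, one_mul]
      _ = f⁻¹ * (f * (W * A')) := by rw [h1]
      _ = W * A' := by rw [← mul_assoc f⁻¹, Matrix.nonsing_inv_mul f hfu, one_mul]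
  have hcomm : A * W = W * A := by
    rw [hA', sub_mul, mul_sub, smul_mul_assoc, mul_smul_comm, one_mul, mul_one] at hcomm'
    exact sub_right_injective hcomm'
  have hAns : ∀ a : ℝ, A ≠ a • (1 : Mat) := by
    intro a ha
    apply hAt
    rw [ha, Matrix.det_smul, Matrix.det_one] at hAd
    simp at hAd
    rw [ha, Matrix.trace_smul, Matrix.trace_one]
    simp
    rcases hAd with h | h <;> rw [h] <;> norm_num
  obtain ⟨k0, k1, hWk⟩ := commute_of_comb hAns hcomm
  have hq : f.det * (k0 ^ 2 + A.trace * k1 * k0 + k1 ^ 2) = 1 := by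
    rw [← det_stageB A hAd, ← hWk, ← Matrix.det_mul, hfW, hBd]
  set M1 := adj M k1 with hM1
  set M2 := adj M1 k0 with hM2
  have l1 : M ≤ M1 := le_adj _ _
  have l2 : M1 ≤ M2 := le_adj _ _
  have i1 : k1 ∈ M1 := mem_adj _ _
  have i0 : k0 ∈ M2 := mem_adj _ _
  have cf : f.det ∈ M := hfM.det_mem hP hQ hx hy hz
  have cA : A.trace ∈ M := hA.trace_mem hx hy hz
  have cf1 : f.det ∈ M1 := l1 cf
  have cA1 : A.trace ∈ M1 := l1 cA
  obtain ⟨β, hβ⟩ : ∃ β, β = f.det * (A.trace * k1) := ⟨_, rfl⟩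
  obtain ⟨γ, hγ⟩ : ∃ γ, γ = f.det * k1 ^ 2 - 1 := ⟨_, rfl⟩
  have hβM : β ∈ M1 := by rw [hβ]; exact M1.mul_mem cf1 (M1.mul_mem cA1 i1)
  have hγM : γ ∈ M1 := by rw [hγ]; exact M1.sub_mem (M1.mul_mem cf1 (pow_mem i1 2)) M1.one_mem
  have heq : f.det * k0 ^ 2 + β * k0 + γ = 0 := by
    rw [hβ, hγ]
    linear_combination hq
  have halg : IsAlgebraic M1 k0 := isAlgebraic_of_quadratic cf1 hβM hγM hfd heq
  refine ⟨M2, ⟨l1.trans l2, ?_, ?_⟩, ?_⟩
  · calc td M2 ≤ td M1 := td_adj_of_algebraic halg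
      _ ≤ td M + 1 := td_adj_le _ _
      _ = td M + (1 : ℕ) := by norm_num
  · intro e he hG hn hfin
    have t1 := not_alg_one halg hn hfin
    subst he
    have hvf : 0 < e.v f.det := hG.pos hP hQ hfM hf0
    obtain ⟨S, hS⟩ : ∃ S : ℝ, S = 1 + e.v f.det := ⟨_, rfl⟩
    have hS1 : 1 ≤ S := by linarith
    have hd0 : 0 < 1 / S := by positivity
    obtain ⟨e1, he1, hM1', v1, w1⟩ := e.step_transcendental t1 hd0
    have hM1'' : e1.M = M1 := hM1'
    have uf : e1.v f.det = e.v f.det := he1.2 _ cf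
    have k1M : k1 ∈ e1.M := by rw [hM1'']; exact i1
    have kf' : f.det ∈ e1.M := by rw [hM1'']; exact cf1
    have hvγ : e1.v γ ≤ 0 := by
      rw [hγ, e1.v_sub (e1.M.mul_mem kf' (pow_mem k1M 2)) e1.M.one_mem, e1.v_one, e1.v_mul kf' (pow_mem k1M 2),
        e1.v_sq k1M, uf]
      generalize e1.v k1 = p at *
      generalize e.v f.det = δ at *
      have hS0 : 0 < S := by linarith
      obtain ⟨d, hd⟩ : ∃ d, d = 1 / S := ⟨_, rfl⟩
      rw [← hd] at w1 hd0
      have hdS : d * S = 1 := by rw [hd]; field_simp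
      have hd1 : d ≤ 1 := by nlinarith
      have b1 : p ^ 2 ≤ d ^ 2 := by nlinarith
      have b2 : δ * p ^ 2 ≤ δ * d ^ 2 := mul_le_mul_of_nonneg_left b1 hvf.le
      have b3 : d * δ ≤ 1 := by
        have : d * δ = d * S - d := by rw [hS]; ring
        linarith
      have b4 : δ * d ^ 2 ≤ 1 := by
        have : δ * d ^ 2 = (d * δ) * d := by ring
        rw [this]
        nlinarith
      linarith
    have hβ1 : β ∈ e1.M := by rw [hM1'']; exact hβM
    have hγ1 : γ ∈ e1.M := by rw [hM1'']; exact hγM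
    obtain ⟨e2, he2, hM2'⟩ := e1.step_quadratic (c := k0) kf' hβ1 hγ1 hfd heq (by
      rw [uf]
      nlinarith [sq_nonneg (e1.v β)])
    exact ⟨e2, Emb.le_trans he1 he2, by rw [hM2', hM1'']⟩
  · have hx2 := l2 (l1 hx)
    have hy2 := l2 (l1 hy)
    have hz2 := l2 (l1 hz)
    have hA2 : InAlg M2 P Q A := hA.mono (l1.trans l2)
    have hf2 : InAlg M2 P Q f := hfM.mono (l1.trans l2)
    rw [← hfW, hWk]
    exact hf2.mul hP hQ hx2 hy2 hz2 ((InAlg.one.smul i0).add (hA2.smul (l2 i1)))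

end Pool.Agent.LCC
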