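import Pool.Agent.LCC.Alg

/-!
# LCC/Loc: commensurable eigenvalues have the same splitting fields over every extension of the ground field
-/

namespace Pool.Agent.LCC

/-- The coefficients of `m ^ n = A m + B` when `m * m = τ * m - 1`. -/
def sqn {R : Type*} [CommRing R] (τ : R) : ℕ → R × R
  | 0 => (0, 1)
  | n + 1 => (τ * (sqn τ n).1 + (sqn τ n).2, -(sqn τ n).1)

theorem pow_eq_sqn {R : Type*} [CommRing R] {τ m : R} (h : m * m = τ * m - 1) (n : ℕ) :
    m ^ n = (sqn τ n).1 * m + (sqn τ n).2 := by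
  induction n with
  | zero => simp [sqn]
  | succ n ih =>
    rw [pow_succ, ih, sqn]
    linear_combination (sqn τ n).1 * h

theorem map_sqn {R S : Type*} [CommRing R] [CommRing S] (f : R →+* S) (τ : R) (n : ℕ) :
    f (sqn τ n).1 = (sqn (f τ) n).1 ∧ f (sqn τ n).2 = (sqn (f τ) n).2 := by
  induction n with
  | zero => simp [sqn]
  | succ n ih =>
    simp only [sqn, map_add, map_mul, map_neg, ih.1, ih.2, and_self]

theorem sqn_ne_zero {M : ℝ} (hM : 1 < M) {q : ℕ} (hq : 0 < q) : (sqn (M + M⁻¹) q).1 ≠ 0 := by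
  intro h0
  have hM0 : M ≠ 0 := by linarith
  have h1 := pow_eq_sqn (τ := M + M⁻¹) (m := M) (by field_simp; ring) q
  have h2 := pow_eq_sqn (τ := M + M⁻¹) (m := M⁻¹) (by field_simp; ring) q
  rw [h0, zero_mul, zero_add] at h1 h2
  have h3 : 1 < M ^ q := one_lt_pow₀ hM hq.ne'
  have h4 : M⁻¹ ^ q < 1 := pow_lt_one₀ (inv_nonneg.mpr (by linarith)) (inv_lt_one_of_one_lt₀ hM) hq.ne'
  linarith

variable {K : Type*} [Field K] [Algebra K ℝ] {E : Type*} [Field E] [Algebra K E]

theorem isSquare_of_comm {l M : ℝ} {t τ : K} (hl : 1 < l) (hlt : l + l⁻¹ = algebraMap K ℝ t) (hM : 1 < M)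
    (hMτ : M + M⁻¹ = algebraMap K ℝ τ) {p q : ℕ} (hp : 0 < p) (hq : 0 < q) (hpq : l ^ p = M ^ q)
    (hsq : IsSquare (algebraMap K E (t ^ 2 - 4))) : IsSquare (algebraMap K E (τ ^ 2 - 4)) := by
  have hK0 : CharZero K := (algebraMap K ℝ).charZero
  have hE0 : CharZero E := charZero_of_injective_algebraMap (algebraMap K E).injective
  have hl0 : l ≠ 0 := by linarith
  have hM0 : M ≠ 0 := by linarith
  set l' : algebraicClosure K ℝ := ⟨l, (mem_algebraicClosure_iff'.mpr (isIntegral_of_pow_eq hM0 hMτ hp hpq))⟩ with hl'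
  set M' : algebraicClosure K ℝ := ⟨M, (mem_algebraicClosure_iff'.mpr (isIntegral_of_add_inv hM0 hMτ))⟩ with hM'
  let φ : algebraicClosure K ℝ →ₐ[K] AlgebraicClosure E := IsAlgClosed.lift
  have h1 : l' + l'⁻¹ = algebraMap K (algebraicClosure K ℝ) t := Subtype.ext hlt
  have h2 : M' + M'⁻¹ = algebraMap K (algebraicClosure K ℝ) τ := Subtype.ext hMτ
  have h3 : l' ^ p = M' ^ q := Subtype.ext hpq
  have g1 : φ l' + (φ l')⁻¹ = algebraMap E (AlgebraicClosure E) (algebraMap K E t) := by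
    rw [← map_inv₀, ← map_add, h1, φ.commutes, IsScalarTower.algebraMap_apply K E (AlgebraicClosure E)]
  have g2 : φ M' + (φ M')⁻¹ = algebraMap E (AlgebraicClosure E) (algebraMap K E τ) := by
    rw [← map_inv₀, ← map_add, h2, φ.commutes, IsScalarTower.algebraMap_apply K E (AlgebraicClosure E)]
  have g3 : φ l' ^ p = φ M' ^ q := by rw [← map_pow, ← map_pow, h3]
  have hl'0 : l' ≠ 0 := fun h => hl0 (congrArg Subtype.val h)
  have hM'0 : M' ≠ 0 := fun h => hM0 (congrArg Subtype.val h)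
  have hφl : φ l' ≠ 0 := (map_ne_zero φ).mpr hl'0
  have hφM : φ M' ≠ 0 := (map_ne_zero φ).mpr hM'0
  set ι := algebraMap E (AlgebraicClosure E) with hι
  -- `φ l'` lies in `E`
  obtain ⟨x, hx⟩ : ∃ x, ι x = φ l' := by
    obtain ⟨z, hz⟩ := hsq
    have e1 : (φ l' - (φ l')⁻¹ - ι z) * (φ l' - (φ l')⁻¹ + ι z) = 0 := by
      have e2 : (φ l' - (φ l')⁻¹) ^ 2 = (φ l' + (φ l')⁻¹) ^ 2 - 4 := by
        field_simp
        ring
      have e3 : ι z * ι z = (φ l' + (φ l')⁻¹) ^ 2 - 4 := by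
        rw [g1, ← map_mul, ← hz, map_sub, map_sub, map_pow, map_pow, map_ofNat, map_ofNat]
      linear_combination e2 - e3
    rcases mul_eq_zero.mp e1 with e | e
    · refine ⟨(algebraMap K E t + z) / 2, ?_⟩
      rw [map_div₀, map_add, map_ofNat, ← g1]
      field_simp
      field_simp at e
      linear_combination -e
    · refine ⟨(algebraMap K E t - z) / 2, ?_⟩
      rw [map_div₀, map_sub, map_ofNat, ← g1]
      field_simp
      field_simp at e
      linear_combination -e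
  -- `φ M'` lies in `E`
  have hA : (sqn (algebraMap K E τ) q).1 ≠ 0 := by
    rw [← (map_sqn (algebraMap K E) τ q).1]
    refine (map_ne_zero _).mpr fun h => ?_
    apply sqn_ne_zero hM hq
    rw [hMτ, ← (map_sqn (algebraMap K ℝ) τ q).1, h, map_zero]
  obtain ⟨y, hy⟩ : ∃ y, ι y = φ M' := by
    refine ⟨(x ^ p - (sqn (algebraMap K E τ) q).2) / (sqn (algebraMap K E τ) q).1, ?_⟩
    have e1 := pow_eq_sqn (τ := ι (algebraMap K E τ)) (m := φ M') (by rw [← g2]; field_simp; ring) q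
    rw [← (map_sqn ι _ q).1, ← (map_sqn ι _ q).2, ← g3, ← hx] at e1
    rw [map_div₀, map_sub, map_pow, div_eq_iff ((map_ne_zero ι).mpr hA), e1]
    ring
  have hy0 : y ≠ 0 := by
    rintro rfl
    rw [map_zero] at hy
    exact hφM hy.symm
  have g4 : y + y⁻¹ = algebraMap K E τ := by
    apply ι.injective
    rw [map_add, map_inv₀, hy, g2]
  refine ⟨y - y⁻¹, ?_⟩
  rw [map_sub, map_pow, map_ofNat, ← g4]
  field_simp
  ring

end Pool.Agent.LCC
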