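import Pool.Agent.LCC.Ext

/-!
# LCC/NormForm: the quaternion algebra generated by two matrices of determinant one
-/

namespace Pool.Agent.LCC

/-- The norm form in the basis `1, A, B, A B`; here `x = tr A`, `y = tr B`, `z = tr A B`. -/
def qf (x y z m0 m1 m2 m3 : ℝ) : ℝ :=
  m0 ^ 2 + m1 ^ 2 + m2 ^ 2 + m3 ^ 2 + m0 * m1 * x + m0 * m2 * y + m0 * m3 * z + m1 * m2 * (x * y - z) +
    m1 * m3 * y + m2 * m3 * x

theorem qf_identity (x y z m0 m1 m2 m3 : ℝ) : 4 * (4 - x ^ 2) * qf x y z m0 m1 m2 m3 =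
    (4 - x ^ 2) * (2 * m0 + x * m1 + y * m2 + z * m3) ^ 2 +
    ((4 - x ^ 2) * m1 + (x * y - 2 * z) * m2 + (2 * y - x * z) * m3) ^ 2 +
    (4 - (x ^ 2 + y ^ 2 + z ^ 2 - x * y * z)) * ((2 * m2 + x * m3) ^ 2 + (4 - x ^ 2) * m3 ^ 2) := by
  unfold qf
  ring

theorem tr_sq_le_qf {x y z : ℝ} (hx : x ^ 2 < 4) (hκ : x ^ 2 + y ^ 2 + z ^ 2 - x * y * z < 4) (m0 m1 m2 m3 : ℝ) :
    (2 * m0 + x * m1 + y * m2 + z * m3) ^ 2 ≤ 4 * qf x y z m0 m1 m2 m3 := by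
  have h := qf_identity x y z m0 m1 m2 m3
  have hD : 0 < 4 - x ^ 2 := by linarith
  have hK : 0 < 4 - (x ^ 2 + y ^ 2 + z ^ 2 - x * y * z) := by linarith
  have h1 : (4 - x ^ 2) * (2 * m0 + x * m1 + y * m2 + z * m3) ^ 2 ≤ (4 - x ^ 2) * (4 * qf x y z m0 m1 m2 m3) := by
    have h2 : 0 ≤ ((4 - x ^ 2) * m1 + (x * y - 2 * z) * m2 + (2 * y - x * z) * m3) ^ 2 := sq_nonneg _
    have h3 : 0 ≤ (4 - (x ^ 2 + y ^ 2 + z ^ 2 - x * y * z)) * ((2 * m2 + x * m3) ^ 2 + (4 - x ^ 2) * m3 ^ 2) := by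
      positivity
    linarith
  exact le_of_mul_le_mul_left h1 hD

theorem qf_pos {x y z : ℝ} (hx : x ^ 2 < 4) (hκ : x ^ 2 + y ^ 2 + z ^ 2 - x * y * z < 4) {m0 m1 m2 m3 : ℝ}
    (hm : ¬ (m0 = 0 ∧ m1 = 0 ∧ m2 = 0 ∧ m3 = 0)) : 0 < qf x y z m0 m1 m2 m3 := by
  have h := qf_identity x y z m0 m1 m2 m3
  have hD : 0 < 4 - x ^ 2 := by linarith
  have hK : 0 < 4 - (x ^ 2 + y ^ 2 + z ^ 2 - x * y * z) := by linarith
  by_contra hq
  push Not at hq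
  have h0 : 4 * (4 - x ^ 2) * qf x y z m0 m1 m2 m3 ≤ 0 :=
    mul_nonpos_of_nonneg_of_nonpos (by positivity) hq
  have a1 : 0 ≤ (4 - x ^ 2) * (2 * m0 + x * m1 + y * m2 + z * m3) ^ 2 := by positivity
  have a2 : 0 ≤ ((4 - x ^ 2) * m1 + (x * y - 2 * z) * m2 + (2 * y - x * z) * m3) ^ 2 := sq_nonneg _
  have a3 : 0 ≤ (2 * m2 + x * m3) ^ 2 := sq_nonneg _
  have a4 : 0 ≤ (4 - x ^ 2) * m3 ^ 2 := by positivity
  have a5 : 0 ≤ (4 - (x ^ 2 + y ^ 2 + z ^ 2 - x * y * z)) * ((2 * m2 + x * m3) ^ 2 + (4 - x ^ 2) * m3 ^ 2) := by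
    positivity
  have b1 : (4 - x ^ 2) * (2 * m0 + x * m1 + y * m2 + z * m3) ^ 2 = 0 := by linarith
  have b2 : ((4 - x ^ 2) * m1 + (x * y - 2 * z) * m2 + (2 * y - x * z) * m3) ^ 2 = 0 := by linarith
  have b3 : (4 - (x ^ 2 + y ^ 2 + z ^ 2 - x * y * z)) * ((2 * m2 + x * m3) ^ 2 + (4 - x ^ 2) * m3 ^ 2) = 0 := by
    linarith
  have c3 := (mul_eq_zero.mp b3).resolve_left hK.ne'
  have d3 : (4 - x ^ 2) * m3 ^ 2 = 0 := by linarith
  have e3 : m3 = 0 := pow_eq_zero_iff two_ne_zero |>.mp ((mul_eq_zero.mp d3).resolve_left hD.ne')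
  have d2 : (2 * m2 + x * m3) ^ 2 = 0 := by linarith
  have e2 : m2 = 0 := by
    have := pow_eq_zero_iff two_ne_zero |>.mp d2
    rw [e3] at this
    linarith
  have e1 : m1 = 0 := by
    have := pow_eq_zero_iff two_ne_zero |>.mp b2
    rw [e3, e2] at this
    have h5 : (4 - x ^ 2) * m1 = 0 := by linarith
    exact (mul_eq_zero.mp h5).resolve_left hD.ne'
  have e0 : m0 = 0 := by
    have := pow_eq_zero_iff two_ne_zero |>.mp ((mul_eq_zero.mp b1).resolve_left hD.ne')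
    rw [e3, e2, e1] at this
    linarith
  exact hm ⟨e0, e1, e2, e3⟩

abbrev Mat := Matrix (Fin 2) (Fin 2) ℝ

/-- Linear combinations of `1, P, Q, P Q`. -/
def comb (P Q : Mat) (m0 m1 m2 m3 : ℝ) : Mat := m0 • (1 : Mat) + m1 • P + m2 • Q + m3 • (P * Q)

theorem mat_ext {X Y : Mat} (h00 : X 0 0 = Y 0 0) (h01 : X 0 1 = Y 0 1) (h10 : X 1 0 = Y 1 0)
    (h11 : X 1 1 = Y 1 1) : X = Y := by
  ext i j
  fin_cases i <;> fin_cases j
  · exact h00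
  · exact h01
  · exact h10
  · exact h11

theorem one00 : (1 : Mat) 0 0 = 1 := rfl
theorem one01 : (1 : Mat) 0 1 = 0 := rfl
theorem one10 : (1 : Mat) 1 0 = 0 := rfl
theorem one11 : (1 : Mat) 1 1 = 1 := rfl

theorem mul_ent (X Y : Mat) (i j : Fin 2) : (X * Y) i j = X i 0 * Y 0 j + X i 1 * Y 1 j := by
  rw [Matrix.mul_apply, Fin.sum_univ_two]

theorem comb_apply (P Q : Mat) (m0 m1 m2 m3 : ℝ) (i j : Fin 2) :
    comb P Q m0 m1 m2 m3 i j = m0 * (1 : Mat) i j + m1 * P i j + m2 * Q i j + m3 * (P i 0 * Q 0 j + P i 1 * Q 1 j) := by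
  simp [comb, Matrix.mul_apply, Fin.sum_univ_two]

theorem comb_det {P Q : Mat} (hP : P.det = 1) (hQ : Q.det = 1) (m0 m1 m2 m3 : ℝ) :
    (comb P Q m0 m1 m2 m3).det = qf P.trace Q.trace (P * Q).trace m0 m1 m2 m3 := by
  rw [Matrix.det_fin_two] at hP hQ
  rw [Matrix.det_fin_two, comb_apply, comb_apply, comb_apply, comb_apply, qf, Matrix.trace_fin_two,
    Matrix.trace_fin_two, Matrix.trace_fin_two, Matrix.mul_apply, Matrix.mul_apply, Fin.sum_univ_two,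
    Fin.sum_univ_two]
  simp only [Matrix.one_apply_eq, Matrix.one_apply_ne (show (0 : Fin 2) ≠ 1 by decide),
    Matrix.one_apply_ne (show (1 : Fin 2) ≠ 0 by decide)]
  generalize P 0 0 = a at *
  generalize P 0 1 = b at *
  generalize P 1 0 = c at *
  generalize P 1 1 = d at *
  generalize Q 0 0 = a' at *
  generalize Q 0 1 = b' at *
  generalize Q 1 0 = c' at *
  generalize Q 1 1 = d' at *
  grind

theorem comb_trace (P Q : Mat) (m0 m1 m2 m3 : ℝ) :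
    (comb P Q m0 m1 m2 m3).trace = 2 * m0 + P.trace * m1 + Q.trace * m2 + (P * Q).trace * m3 := by
  simp [comb, Matrix.trace_add, Matrix.trace_smul]
  ring

/-- `Z` is a linear combination of `1, P, Q, P Q` with coefficients in `M`. -/
def InAlg (M : IntermediateField ℚ ℝ) (P Q Z : Mat) : Prop :=
  ∃ m0 ∈ M, ∃ m1 ∈ M, ∃ m2 ∈ M, ∃ m3 ∈ M, Z = comb P Q m0 m1 m2 m3

section closure

variable {M : IntermediateField ℚ ℝ} {P Q : Mat}

theorem InAlg.mono {M' : IntermediateField ℚ ℝ} (h : M ≤ M') {Z : Mat} (hZ : InAlg M P Q Z) : InAlg M' P Q Z := by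
  obtain ⟨m0, h0, m1, h1, m2, h2, m3, h3, rfl⟩ := hZ
  exact ⟨m0, h h0, m1, h h1, m2, h h2, m3, h h3, rfl⟩

theorem InAlg.one : InAlg M P Q 1 :=
  ⟨1, M.one_mem, 0, M.zero_mem, 0, M.zero_mem, 0, M.zero_mem, by simp [comb]⟩

theorem InAlg.left : InAlg M P Q P :=
  ⟨0, M.zero_mem, 1, M.one_mem, 0, M.zero_mem, 0, M.zero_mem, by simp [comb]⟩

theorem InAlg.right : InAlg M P Q Q :=
  ⟨0, M.zero_mem, 0, M.zero_mem, 1, M.one_mem, 0, M.zero_mem, by simp [comb]⟩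

theorem InAlg.add {Z W : Mat} (hZ : InAlg M P Q Z) (hW : InAlg M P Q W) : InAlg M P Q (Z + W) := by
  obtain ⟨m0, h0, m1, h1, m2, h2, m3, h3, rfl⟩ := hZ
  obtain ⟨n0, k0, n1, k1, n2, k2, n3, k3, rfl⟩ := hW
  refine ⟨m0 + n0, M.add_mem h0 k0, m1 + n1, M.add_mem h1 k1, m2 + n2, M.add_mem h2 k2, m3 + n3,
    M.add_mem h3 k3, ?_⟩
  simp only [comb, add_smul]
  abel

theorem InAlg.smul {c : ℝ} (hc : c ∈ M) {Z : Mat} (hZ : InAlg M P Q Z) : InAlg M P Q (c • Z) := by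
  obtain ⟨m0, h0, m1, h1, m2, h2, m3, h3, rfl⟩ := hZ
  refine ⟨c * m0, M.mul_mem hc h0, c * m1, M.mul_mem hc h1, c * m2, M.mul_mem hc h2, c * m3,
    M.mul_mem hc h3, ?_⟩
  simp only [comb, smul_add, smul_smul]

theorem InAlg.sub {Z W : Mat} (hZ : InAlg M P Q Z) (hW : InAlg M P Q W) : InAlg M P Q (Z - W) := by
  have h : Z - W = Z + (-1 : ℝ) • W := by simp [sub_eq_add_neg]
  rw [h]
  exact hZ.add (hW.smul (M.neg_mem M.one_mem))

theorem left_mul_comb (hP : P.det = 1) (m0 m1 m2 m3 : ℝ) :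
    P * comb P Q m0 m1 m2 m3 = comb P Q (-m1) (m0 + P.trace * m1) (-m3) (m2 + P.trace * m3) := by
  rw [Matrix.det_fin_two] at hP
  apply mat_ext <;> rw [mul_ent, comb_apply, comb_apply, comb_apply, Matrix.trace_fin_two] <;>
    simp only [one00, one01, one10, one11] <;> grind

theorem right_mul_comb (hQ : Q.det = 1) (m0 m1 m2 m3 : ℝ) :
    Q * comb P Q m0 m1 m2 m3 = comb P Q (m1 * ((P * Q).trace - P.trace * Q.trace) - m2 - m3 * P.trace)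
      (m1 * Q.trace + m3) (m0 + m1 * P.trace + m2 * Q.trace + m3 * (P * Q).trace) (-m1) := by
  rw [Matrix.det_fin_two] at hQ
  apply mat_ext <;> rw [mul_ent, comb_apply, comb_apply, comb_apply, Matrix.trace_fin_two,
    Matrix.trace_fin_two, Matrix.trace_fin_two, mul_ent, mul_ent] <;>
    simp only [one00, one01, one10, one11] <;> grind

variable (hP : P.det = 1) (hQ : Q.det = 1) (hx : P.trace ∈ M) (hy : Q.trace ∈ M) (hz : (P * Q).trace ∈ M)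

include hP hx in
theorem InAlg.left_mul {Z : Mat} (hZ : InAlg M P Q Z) : InAlg M P Q (P * Z) := by
  obtain ⟨m0, h0, m1, h1, m2, h2, m3, h3, rfl⟩ := hZ
  rw [left_mul_comb hP]
  exact ⟨_, M.neg_mem h1, _, M.add_mem h0 (M.mul_mem hx h1), _, M.neg_mem h3, _,
    M.add_mem h2 (M.mul_mem hx h3), rfl⟩

include hQ hx hy hz in
theorem InAlg.right_mul {Z : Mat} (hZ : InAlg M P Q Z) : InAlg M P Q (Q * Z) := by
  obtain ⟨m0, h0, m1, h1, m2, h2, m3, h3, rfl⟩ := hZ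
  rw [right_mul_comb hQ]
  exact ⟨_, M.sub_mem (M.sub_mem (M.mul_mem h1 (M.sub_mem hz (M.mul_mem hx hy))) h2) (M.mul_mem h3 hx), _,
    M.add_mem (M.mul_mem h1 hy) h3, _,
    M.add_mem (M.add_mem (M.add_mem h0 (M.mul_mem h1 hx)) (M.mul_mem h2 hy)) (M.mul_mem h3 hz), _,
    M.neg_mem h1, rfl⟩

include hP hQ hx hy hz in
theorem InAlg.mul {Z W : Mat} (hZ : InAlg M P Q Z) (hW : InAlg M P Q W) : InAlg M P Q (Z * W) := by
  obtain ⟨m0, h0, m1, h1, m2, h2, m3, h3, rfl⟩ := hZ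
  have e : comb P Q m0 m1 m2 m3 * W = m0 • W + m1 • (P * W) + m2 • (Q * W) + m3 • (P * (Q * W)) := by
    simp only [comb, add_mul, smul_mul_assoc, one_mul, mul_assoc]
  rw [e]
  exact (((hW.smul h0).add ((hW.left_mul hP hx).smul h1)).add ((hW.right_mul hQ hx hy hz).smul h2)).add
    (((hW.right_mul hQ hx hy hz).left_mul hP hx).smul h3)

include hx hy hz in
theorem InAlg.trace_mem {Z : Mat} (hZ : InAlg M P Q Z) : Z.trace ∈ M := by
  obtain ⟨m0, h0, m1, h1, m2, h2, m3, h3, rfl⟩ := hZ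
  rw [comb_trace]
  have h2' : (2 : ℝ) ∈ M := by exact_mod_cast M.algebraMap_mem 2
  exact M.add_mem (M.add_mem (M.add_mem (M.mul_mem h2' h0) (M.mul_mem hx h1)) (M.mul_mem hy h2)) (M.mul_mem hz h3)

include hP hQ hx hy hz in
theorem InAlg.det_mem {Z : Mat} (hZ : InAlg M P Q Z) : Z.det ∈ M := by
  obtain ⟨m0, h0, m1, h1, m2, h2, m3, h3, rfl⟩ := hZ
  rw [comb_det hP hQ, qf]
  exact M.add_mem (M.add_mem (M.add_mem (M.add_mem (M.add_mem (M.add_mem (M.add_mem (M.add_mem (M.add_mem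
    (pow_mem h0 2) (pow_mem h1 2)) (pow_mem h2 2)) (pow_mem h3 2)) (M.mul_mem (M.mul_mem h0 h1) hx))
    (M.mul_mem (M.mul_mem h0 h2) hy)) (M.mul_mem (M.mul_mem h0 h3) hz))
    (M.mul_mem (M.mul_mem h1 h2) (M.sub_mem (M.mul_mem hx hy) hz))) (M.mul_mem (M.mul_mem h1 h3) hy))
    (M.mul_mem (M.mul_mem h2 h3) hx)

include hx hy hz in
/-- The adjugate `tr Z - Z`. -/
theorem InAlg.adj {Z : Mat} (hZ : InAlg M P Q Z) : InAlg M P Q (Z.trace • (1 : Mat) - Z) :=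
  (InAlg.one.smul (hZ.trace_mem hx hy hz)).sub hZ

end closure

/-! ### Values of an embedding -/

theorem Emb.v_add (e : Emb) {a b : ℝ} (ha : a ∈ e.M) (hb : b ∈ e.M) : e.v (a + b) = e.v a + e.v b := by
  lift a to e.M using ha
  lift b to e.M using hb
  rw [e.v_coe, e.v_coe, ← map_add, ← e.v_coe]
  rfl

theorem Emb.v_sub (e : Emb) {a b : ℝ} (ha : a ∈ e.M) (hb : b ∈ e.M) : e.v (a - b) = e.v a - e.v b := by
  lift a to e.M using ha
  lift b to e.M using hb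
  rw [e.v_coe, e.v_coe, ← map_sub, ← e.v_coe]
  rfl

theorem Emb.v_mul (e : Emb) {a b : ℝ} (ha : a ∈ e.M) (hb : b ∈ e.M) : e.v (a * b) = e.v a * e.v b := by
  lift a to e.M using ha
  lift b to e.M using hb
  rw [e.v_coe, e.v_coe, ← map_mul, ← e.v_coe]
  rfl

theorem Emb.v_sq (e : Emb) {a : ℝ} (ha : a ∈ e.M) : e.v (a ^ 2) = e.v a ^ 2 := by
  rw [pow_two, e.v_mul ha ha, pow_two]

theorem Emb.v_one (e : Emb) : e.v 1 = 1 := by
  have h := e.v_coe 1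
  rw [map_one] at h
  exact h

theorem Emb.v_natCast (e : Emb) (n : ℕ) : e.v n = n := by
  have h := e.v_coe (n : e.M)
  rw [map_natCast] at h
  exact h

theorem Emb.v_two (e : Emb) : e.v 2 = 2 := by
  have h := e.v_natCast 2
  exact_mod_cast h

theorem Emb.v_eq_zero (e : Emb) {a : ℝ} (ha : a ∈ e.M) (h : e.v a = 0) : a = 0 := by
  lift a to e.M using ha
  rw [e.v_coe, map_eq_zero] at h
  rw [h]
  rfl

theorem Emb.two_mem (e : Emb) : (2 : ℝ) ∈ e.M := by exact_mod_cast e.M.algebraMap_mem 2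

theorem Emb.v_qf (e : Emb) {x y z m0 m1 m2 m3 : ℝ} (hx : x ∈ e.M) (hy : y ∈ e.M) (hz : z ∈ e.M)
    (h0 : m0 ∈ e.M) (h1 : m1 ∈ e.M) (h2 : m2 ∈ e.M) (h3 : m3 ∈ e.M) :
    e.v (qf x y z m0 m1 m2 m3) = qf (e.v x) (e.v y) (e.v z) (e.v m0) (e.v m1) (e.v m2) (e.v m3) := by
  lift x to e.M using hx
  lift y to e.M using hy
  lift z to e.M using hz
  lift m0 to e.M using h0
  lift m1 to e.M using h1
  lift m2 to e.M using h2
  lift m3 to e.M using h3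
  have h := e.v_coe (m0 ^ 2 + m1 ^ 2 + m2 ^ 2 + m3 ^ 2 + m0 * m1 * x + m0 * m2 * y + m0 * m3 * z +
    m1 * m2 * (x * y - z) + m1 * m3 * y + m2 * m3 * x)
  simp only [map_add, map_mul, map_pow, map_sub] at h
  simp only [e.v_coe, qf]
  rw [← h]
  norm_cast

/-- The embedding makes the quaternion algebra of `P, Q` definite. -/
structure Good (e : Emb) (P Q : Mat) : Prop where
  hx : P.trace ∈ e.M
  hy : Q.trace ∈ e.M
  hz : (P * Q).trace ∈ e.M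
  h1 : e.v P.trace ^ 2 < 4
  h2 : e.v P.trace ^ 2 + e.v Q.trace ^ 2 + e.v (P * Q).trace ^ 2 -
    e.v P.trace * e.v Q.trace * e.v (P * Q).trace < 4

theorem Good.mono {e e' : Emb} {P Q : Mat} (h : Good e P Q) (he : e.le e') : Good e' P Q := by
  refine ⟨he.1 h.hx, he.1 h.hy, he.1 h.hz, ?_, ?_⟩
  · rw [he.2 _ h.hx]
    exact h.h1
  · rw [he.2 _ h.hx, he.2 _ h.hy, he.2 _ h.hz]
    exact h.h2

theorem Good.pos {e : Emb} {P Q : Mat} (h : Good e P Q) (hP : P.det = 1) (hQ : Q.det = 1) {Z : Mat}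
    (hZ : InAlg e.M P Q Z) (hZ0 : Z ≠ 0) : 0 < e.v Z.det := by
  obtain ⟨m0, h0, m1, h1, m2, h2, m3, h3, rfl⟩ := hZ
  rw [comb_det hP hQ, e.v_qf h.hx h.hy h.hz h0 h1 h2 h3]
  apply qf_pos h.h1 h.h2
  rintro ⟨k0, k1, k2, k3⟩
  apply hZ0
  rw [e.v_eq_zero h0 k0, e.v_eq_zero h1 k1, e.v_eq_zero h2 k2, e.v_eq_zero h3 k3]
  simp [comb]

theorem Good.tr_le {e : Emb} {P Q : Mat} (h : Good e P Q) (hP : P.det = 1) (hQ : Q.det = 1) {Z : Mat}
    (hZ : InAlg e.M P Q Z) : e.v Z.trace ^ 2 ≤ 4 * e.v Z.det := by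
  obtain ⟨m0, h0, m1, h1, m2, h2, m3, h3, rfl⟩ := hZ
  rw [comb_det hP hQ, e.v_qf h.hx h.hy h.hz h0 h1 h2 h3, comb_trace]
  have k1 := h.h1
  have k2 := h.h2
  have kx := h.hx
  have ky := h.hy
  have kz := h.hz
  generalize P.trace = x at *
  generalize Q.trace = y at *
  generalize (P * Q).trace = z at *
  have t0 := e.M.mul_mem e.two_mem h0
  have t1 := e.M.mul_mem kx h1
  have t2 := e.M.mul_mem ky h2
  have t3 := e.M.mul_mem kz h3
  rw [e.v_add (e.M.add_mem (e.M.add_mem t0 t1) t2) t3, e.v_add (e.M.add_mem t0 t1) t2, e.v_add t0 t1,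
    e.v_mul e.two_mem h0, e.v_mul kx h1, e.v_mul ky h2, e.v_mul kz h3, e.v_two]
  exact tr_sq_le_qf k1 k2 _ _ _ _

end Pool.Agent.LCC
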