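import Mathlib

/-!
# LCC/SqProp: fields in which `4 + s² x²` becomes a square for some positive integer `s`
-/

namespace Pool.Agent.LCC

/-- For every `x` there is a positive integer `s` such that `4 + s ^ 2 x ^ 2` is a square. -/
def SqProp (E : Type*) [Field E] : Prop := ∀ x : E, ∃ s : ℕ, s ≠ 0 ∧ IsSquare (4 + (s : E) ^ 2 * x ^ 2)

theorem sqProp_real : SqProp ℝ := by
  intro x
  refine ⟨1, one_ne_zero, √(4 + ((1 : ℕ) : ℝ) ^ 2 * x ^ 2), ?_⟩
  rw [Real.mul_self_sqrt (by positivity)]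

/-- `z ^ 2 + z = y` can be solved in a complete ultrametric field if `‖y‖ < 1`. -/
theorem exists_sq_add_self {E : Type*} [NormedField E] [CompleteSpace E] [IsUltrametricDist E] {y : E}
    (hy : ‖y‖ < 1) : ∃ z : E, z ^ 2 + z = y := by
  have hmaps : ∀ z : E, ‖z‖ ≤ ‖y‖ → ‖y - z ^ 2‖ ≤ ‖y‖ := by
    intro z hz
    rw [sub_eq_add_neg]
    refine (IsUltrametricDist.norm_add_le_max _ _).trans (max_le le_rfl ?_)
    rw [norm_neg, norm_pow]
    have : ‖z‖ ^ 2 ≤ ‖y‖ ^ 2 := pow_le_pow_left₀ (norm_nonneg _) hz 2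
    nlinarith [norm_nonneg y]
  have hcl : IsComplete (Metric.closedBall (0 : E) ‖y‖) := Metric.isClosed_closedBall.isComplete
  let f : E → E := fun z => y - z ^ 2
  have hm : Set.MapsTo f (Metric.closedBall (0 : E) ‖y‖) (Metric.closedBall (0 : E) ‖y‖) := by
    intro z hz
    rw [mem_closedBall_zero_iff] at hz ⊢
    exact hmaps z hz
  have hc : ContractingWith ⟨‖y‖, norm_nonneg y⟩ (hm.restrict f _ _) := by
    refine ⟨by exact_mod_cast hy, LipschitzWith.of_dist_le_mul ?_⟩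
    rintro ⟨z, hz⟩ ⟨w, hw⟩
    rw [mem_closedBall_zero_iff] at hz hw
    rw [Subtype.dist_eq, Subtype.dist_eq, dist_eq_norm, dist_eq_norm]
    show ‖(y - z ^ 2) - (y - w ^ 2)‖ ≤ ‖y‖ * ‖z - w‖
    rw [show (y - z ^ 2) - (y - w ^ 2) = -((z + w) * (z - w)) by ring, norm_neg, norm_mul]
    exact mul_le_mul_of_nonneg_right ((IsUltrametricDist.norm_add_le_max _ _).trans (max_le hz hw)) (norm_nonneg _)
  obtain ⟨z, -, hz, -⟩ := hc.exists_fixedPoint' hcl hm (x := 0) (by simp) (edist_ne_top _ _)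
  refine ⟨z, ?_⟩
  have : y - z ^ 2 = z := hz
  linear_combination -this

theorem sqProp_ultrametric {E : Type*} [NormedField E] [CompleteSpace E] [IsUltrametricDist E] [CharZero E]
    {p : ℕ} (hp : ‖(p : E)‖ < 1) (hp0 : p ≠ 0) : SqProp E := by
  intro x
  have h1 : Filter.Tendsto (fun m : ℕ => ‖((p : E) ^ m) ^ 2 * x ^ 2 / 16‖) Filter.atTop (nhds 0) := by
    have h2 : (fun m : ℕ => ‖((p : E) ^ m) ^ 2 * x ^ 2 / 16‖) = fun m : ℕ => (‖(p : E)‖ ^ 2) ^ m * ‖x ^ 2 / 16‖ := by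
      funext m
      rw [mul_div_assoc, norm_mul, norm_pow, norm_pow, ← pow_mul, ← pow_mul, mul_comm m 2]
    rw [h2]
    have h3 := (tendsto_pow_atTop_nhds_zero_of_lt_one (r := ‖(p : E)‖ ^ 2) (by positivity)
      (pow_lt_one₀ (norm_nonneg _) hp two_ne_zero)).mul_const ‖x ^ 2 / 16‖
    simpa using h3
  obtain ⟨m, hm⟩ := (h1.eventually (gt_mem_nhds one_pos)).exists
  obtain ⟨z, hz⟩ := exists_sq_add_self hm
  refine ⟨p ^ m, pow_ne_zero _ hp0, 2 + 4 * z, ?_⟩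
  push_cast
  have h16 : (16 : E) ≠ 0 := by norm_num
  rw [eq_div_iff h16] at hz
  linear_combination -hz

end Pool.Agent.LCC
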