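import Mathlib

/-!
# LCC/Tens: zero divisors after extension of scalars
-/

namespace Pool.Agent.LCC

open TensorProduct

theorem zeroDiv_abstract {K E B : Type*} [Field K] [Field E] [CharZero E] [Algebra K E] [Ring B] [Algebra K B]
    {x : B} {τ : K} (hx2 : x * x - τ • x + 1 = 0) (hx : x ∉ Submodule.span K {(1 : B)})
    (hsq : IsSquare (algebraMap K E (τ ^ 2 - 4))) : ¬ NoZeroDivisors (E ⊗[K] B) := by
  intro hnz
  obtain ⟨y, hy⟩ := hsq
  rw [map_sub, map_pow, map_ofNat] at hy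
  obtain ⟨r, hr⟩ : ∃ r : E, r = (algebraMap K E τ + y) / 2 := ⟨_, rfl⟩
  obtain ⟨r', hr'⟩ : ∃ r' : E, r' = (algebraMap K E τ - y) / 2 := ⟨_, rfl⟩
  have h1 : r + r' = algebraMap K E τ := by rw [hr, hr']; ring
  have h2 : r * r' = 1 := by
    rw [hr, hr']
    field_simp
    linear_combination hy
  -- not of the form `s ⊗ 1`
  have hno : ∀ s : E, (1 : E) ⊗ₜ[K] x - s ⊗ₜ[K] (1 : B) ≠ 0 := by
    intro s h0
    obtain ⟨f, hf, hker⟩ := Submodule.exists_le_ker_of_notMem hx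
    have hf1 : f 1 = 0 := by
      have := hker (Submodule.mem_span_singleton_self (1 : B))
      simpa using this
    have h3 := congrArg (TensorProduct.rid K E) (congrArg (LinearMap.lTensor E f) h0)
    rw [map_sub, LinearMap.lTensor_tmul, LinearMap.lTensor_tmul, hf1, TensorProduct.tmul_zero, sub_zero, map_zero,
      map_zero, TensorProduct.rid_tmul] at h3
    apply hf
    have h4 : algebraMap K E (f x) = 0 := by
      rw [Algebra.algebraMap_eq_smul_one]
      exact h3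
    exact (map_eq_zero _).mp h4
  have hprod : ((1 : E) ⊗ₜ[K] x - r ⊗ₜ[K] (1 : B)) * ((1 : E) ⊗ₜ[K] x - r' ⊗ₜ[K] (1 : B)) = 0 := by
    rw [sub_mul, mul_sub, mul_sub, Algebra.TensorProduct.tmul_mul_tmul, Algebra.TensorProduct.tmul_mul_tmul,
      Algebra.TensorProduct.tmul_mul_tmul, Algebra.TensorProduct.tmul_mul_tmul]
    simp only [mul_one, one_mul]
    rw [h2]
    have e1 : (r' ⊗ₜ[K] x : E ⊗[K] B) = (algebraMap K E τ) ⊗ₜ[K] x - r ⊗ₜ[K] x := by
      rw [← TensorProduct.sub_tmul, ← h1]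
      congr 1
      ring
    have e2 : (algebraMap K E τ) ⊗ₜ[K] x = (1 : E) ⊗ₜ[K] (τ • x) := by
      rw [Algebra.algebraMap_eq_smul_one, TensorProduct.smul_tmul]
    rw [e1, e2]
    have e3 : (1 : E) ⊗ₜ[K] (x * x) - (1 : E) ⊗ₜ[K] (τ • x) + (1 : E) ⊗ₜ[K] (1 : B) = 0 := by
      rw [← TensorProduct.tmul_sub, ← TensorProduct.tmul_add, hx2, TensorProduct.tmul_zero]
    rw [← e3]
    abel
  rcases mul_eq_zero.mp hprod with h | h
  · exact hno _ h
  · exact hno _ h

end Pool.Agent.LCC
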