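import Pool.Agent.LCC.Fix
import Pool.Agent.LCC.SqProp
import Pool.Agent.LCC.Tens

/-!
# LCC/Quat: the invariant quaternion algebra and its local splitting
-/

namespace Pool.Agent.LCC

open UpperHalfPlane TensorProduct
open scoped MatrixGroups commutatorElement

/-- The invariant quaternion algebra of `Γ`: the algebra over the invariant trace field generated by
the subgroup generated by the squares. -/
noncomputable def invAlg (Γ : Subgroup SL(2, ℝ)) : Subalgebra (kf Γ) (Matrix (Fin 2) (Fin 2) ℝ) :=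
  Algebra.adjoin (kf Γ) {M | ∃ γ ∈ sqSub Γ, M = (γ : Matrix (Fin 2) (Fin 2) ℝ)}

theorem cayley (g : SL(2, ℝ)) : (g : Matrix (Fin 2) (Fin 2) ℝ) * g - tr g • (g : Matrix (Fin 2) (Fin 2) ℝ) + 1 = 0 := by
  have hd := det_eq g
  rw [tr_eq]
  ext i j
  fin_cases i <;> fin_cases j <;> simp [Matrix.mul_apply, Fin.sum_univ_two]
  · linear_combination -hd
  · ring
  · ring
  · linear_combination -hd

section

variable {Γ : Subgroup SL(2, ℝ)} {E : Type*} [Field E] [Algebra (kf Γ) E]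

/-- A hyperbolic element whose square has a rational eigenvalue gives zero divisors. -/
theorem zeroDiv_of_isSquare {w : SL(2, ℝ)} (hw : w ∈ Γ) (hw2 : 2 < |tr w|)
    (hsq : IsSquare (algebraMap (kf Γ) E (⟨tr (w ^ 2), tr_mem_kf (sq_mem_sqSub hw)⟩ ^ 2 - 4))) :
    ¬ NoZeroDivisors (E ⊗[kf Γ] invAlg Γ) := by
  have hE0 : CharZero E := charZero_of_injective_algebraMap (algebraMap (kf Γ) E).injective
  refine zeroDiv_abstract (K := kf Γ) (B := invAlg Γ) (x := ⟨((w ^ 2 : SL(2, ℝ)) : Matrix (Fin 2) (Fin 2) ℝ),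
    Algebra.subset_adjoin ⟨w ^ 2, sq_mem_sqSub hw, rfl⟩⟩) ?_ ?_ hsq
  · apply Subtype.ext
    exact cayley (w ^ 2)
  · intro hmem
    obtain ⟨c, hc⟩ := Submodule.mem_span_singleton.mp hmem
    have hc' : (c : ℝ) • (1 : Matrix (Fin 2) (Fin 2) ℝ) = ((w ^ 2 : SL(2, ℝ)) : Matrix (Fin 2) (Fin 2) ℝ) :=
      congrArg Subtype.val hc
    have h00 := congrFun (congrFun hc' 0) 0
    have h01 := congrFun (congrFun hc' 0) 1
    have h10 := congrFun (congrFun hc' 1) 0
    have h11 := congrFun (congrFun hc' 1) 1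
    simp at h00 h01 h10 h11
    have hd := det_eq (w ^ 2)
    have ht := tr_sq w
    rw [tr_eq (w ^ 2)] at ht
    simp at hd ht
    rw [← h00, ← h11, ← h01, ← h10] at hd
    rw [← h00, ← h11] at ht
    have h4 : 4 < tr w ^ 2 := by
      rw [← sq_abs]
      nlinarith
    nlinarith

end

/-- `σ` makes the invariant quaternion algebra of `Γ` a division algebra over `E`. -/
def DivAt (Γ : Subgroup SL(2, ℝ)) {E : Type*} [Field E] (σ : kf Γ →+* E) : Prop :=
  letI := σ.toAlgebra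
  NoZeroDivisors (E ⊗[kf Γ] invAlg Γ)

/-- For every embedding of the invariant trace field in a field `E` with the property `SqProp` there is a hyperbolic
element of `Γ₁` the square of which has its eigenvalues in `E`. -/
theorem exists_hyperbolic_isSquare {Γ₁ Γ₂ : Subgroup SL(2, ℝ)} (h : lengths Γ₂ ⊆ ratMul (lengths Γ₁))
    {u γ : SL(2, ℝ)} (hu : u ∈ Γ₂) (hγ : γ ∈ Γ₂) (hu2 : tr u = 2) (hb : 0 < bb u γ)
    {E : Type*} [Field E] (hE : SqProp E) (σ : kf Γ₁ →+* E) :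
    ∃ (w : SL(2, ℝ)) (hw : w ∈ Γ₁), 2 < |tr w| ∧
      IsSquare (σ (⟨tr (w ^ 2), tr_mem_kf (sq_mem_sqSub hw)⟩ ^ 2 - 4)) := by
  letI := σ.toAlgebra
  have hbm := bb_mem h hu hγ hu2 hb
  obtain ⟨s, hs0, y, hy⟩ := hE (σ ⟨bb u γ, hbm⟩)
  obtain ⟨l, hl, hlt, w, hw, M, hM, hMτ, p, q, hp, hq, hpq⟩ := comm_word2 h hu hγ hu2 hb (s ^ 2) (by positivity)
  have hw2 : 2 < |tr w| := by
    have h1 := tr_sq w
    rw [← hMτ] at h1
    have h2 : 2 < M + M⁻¹ := by
      have h3 : 0 < (M - 1) ^ 2 / M := by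
        have : 0 < M - 1 := by linarith
        positivity
      have h4 : (M - 1) ^ 2 / M = M + M⁻¹ - 2 := by
        field_simp
        ring
      linarith
    have h5 : 2 ^ 2 < |tr w| ^ 2 := by
      rw [sq_abs]
      linarith
    exact lt_of_pow_lt_pow_left₀ 2 (abs_nonneg _) h5
  refine ⟨w, hw, hw2, ?_⟩
  refine isSquare_of_comm (K := kf Γ₁) (E := E) (t := 2 + (s : kf Γ₁) ^ 2 * ⟨bb u γ, hbm⟩ ^ 2) hl ?_ hM ?_ hp hq hpq ?_
  · rw [hlt]
    push_cast
    rfl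
  · exact hMτ
  · refine ⟨s * σ ⟨bb u γ, hbm⟩ * y, ?_⟩
    show σ _ = _
    rw [map_sub, map_pow, map_add, map_mul, map_pow, map_pow, map_natCast, map_ofNat, map_ofNat]
    linear_combination (s : E) ^ 2 * (σ ⟨bb u γ, hbm⟩) ^ 2 * hy

/-- Local splitting of the invariant quaternion algebra of the compact partner. -/
theorem not_divAt {Γ₁ Γ₂ : Subgroup SL(2, ℝ)} (h : lengths Γ₂ ⊆ ratMul (lengths Γ₁))
    {u γ : SL(2, ℝ)} (hu : u ∈ Γ₂) (hγ : γ ∈ Γ₂) (hu2 : tr u = 2) (hb : 0 < bb u γ)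
    {E : Type*} [Field E] (hE : SqProp E) (σ : kf Γ₁ →+* E) : ¬ DivAt Γ₁ σ := by
  obtain ⟨w, hw, hw2, hsq⟩ := exists_hyperbolic_isSquare h hu hγ hu2 hb hE σ
  letI := σ.toAlgebra
  exact zeroDiv_of_isSquare (E := E) hw hw2 hsq

end Pool.Agent.LCC
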