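import Pool.Agent.LCC.NormForm

/-!
# LCC/Stage: adjoining the coordinates of one matrix after the other
-/

namespace Pool.Agent.LCC

open Cardinal

/-- The transcendence degree of a field of real numbers. -/
noncomputable def td (M : IntermediateField ℚ ℝ) : Cardinal.{0} := Algebra.trdeg ℚ M

theorem td_adj_le (M : IntermediateField ℚ ℝ) (c : ℝ) : td (adj M c) ≤ td M + 1 := trdeg_adj_le M c

theorem td_adj_of_algebraic {M : IntermediateField ℚ ℝ} {c : ℝ} (hc : IsAlgebraic M c) : td (adj M c) ≤ td M :=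
  trdeg_adj_of_algebraic M c hc

/-- A root of a quadratic polynomial is algebraic. -/
theorem isAlgebraic_of_quadratic {M : IntermediateField ℚ ℝ} {c α β γ : ℝ} (hα : α ∈ M) (hβ : β ∈ M) (hγ : γ ∈ M)
    (hα0 : α ≠ 0) (hc : α * c ^ 2 + β * c + γ = 0) : IsAlgebraic M c := by
  lift α to M using hα
  lift β to M using hβ
  lift γ to M using hγ
  have hα0' : α ≠ 0 := fun h => hα0 (by rw [h]; rfl)
  refine ⟨Polynomial.C α * Polynomial.X ^ 2 + Polynomial.C β * Polynomial.X + Polynomial.C γ, ?_, ?_⟩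
  · intro h
    have := congrArg (fun Q => Polynomial.coeff Q 2) h
    simp at this
    exact hα0' this
  · simp
    exact hc

/-- `M'` is obtained from `M` by a stage with at most `n` parameters; if there are `n` independent parameters, then
every good embedding of `M` extends. -/
structure Stage (P Q : Mat) (M M' : IntermediateField ℚ ℝ) (n : ℕ) : Prop where
  le : M ≤ M'
  td_le : td M' ≤ td M + n
  ext : ∀ e : Emb, e.M = M → Good e P Q → td M + n ≤ td M' → td M' < ℵ₀ → ∃ e' : Emb, e.le e' ∧ e'.M = M'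

theorem Stage.refl (P Q : Mat) (M : IntermediateField ℚ ℝ) : Stage P Q M M 0 :=
  ⟨le_rfl, by simp, fun e he _ _ _ => ⟨e, e.le_refl, he⟩⟩

theorem Stage.trans {P Q : Mat} {M M' M'' : IntermediateField ℚ ℝ} {n k : ℕ} (h : Stage P Q M M' n)
    (h' : Stage P Q M' M'' k) : Stage P Q M M'' (n + k) := by
  refine ⟨h.le.trans h'.le, ?_, fun e he hG hn hfin => ?_⟩
  · calc td M'' ≤ td M' + k := h'.td_le
      _ ≤ (td M + n) + k := add_le_add h.td_le le_rfl
      _ = td M + ((n + k : ℕ) : Cardinal) := by push_cast; rw [add_assoc]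
  · have h1 := h.td_le
    have h2 := h'.td_le
    have hM : td M < ℵ₀ := (le_self_add.trans hn).trans_lt hfin
    have hM' : td M' < ℵ₀ := h1.trans_lt (add_lt_aleph0 hM (natCast_lt_aleph0 (n := n)))
    obtain ⟨a, ha⟩ := lt_aleph0.mp hM
    obtain ⟨b, hb⟩ := lt_aleph0.mp hM'
    obtain ⟨c, hc⟩ := lt_aleph0.mp hfin
    rw [ha, hb] at h1
    rw [hb, hc] at h2
    rw [ha, hc] at hn
    norm_cast at h1 h2 hn
    obtain ⟨e', he', hM'e⟩ := h.ext e he hG (by rw [ha, hb]; norm_cast; omega) hM'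
    obtain ⟨e'', he'', hM''e⟩ := h'.ext e' hM'e (hG.mono he') (by rw [hb, hc]; norm_cast; omega) hfin
    exact ⟨e'', Emb.le_trans he' he'', hM''e⟩

/-- If `m0 + m1 P = 0` and `P` does not commute with `Q`, then `m0 = m1 = 0`. -/
theorem scalar_zero {P Q : Mat} (hJ : (P * Q - Q * P).det ≠ 0) {a b : ℝ} (h : a • (1 : Mat) + b • P = 0) :
    a = 0 ∧ b = 0 := by
  have hb : b = 0 := by
    by_contra hb
    apply hJ
    have hP : P = (-(a / b)) • (1 : Mat) := by
      have h1 : b • P = (-a) • (1 : Mat) := by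
        rw [neg_smul]
        exact eq_neg_of_add_eq_zero_right h
      have h2 : P = b⁻¹ • (b • P) := by rw [smul_smul, inv_mul_cancel₀ hb, one_smul]
      rw [h2, h1, smul_smul]
      congr 1
      field_simp
    rw [hP]
    simp
  refine ⟨?_, hb⟩
  rw [hb, zero_smul, add_zero] at h
  have := congrFun (congrFun h 0) 0
  simpa using this

/-- If `det (P Q - Q P) ≠ 0` then `1, P, Q, P Q` span the matrices. -/
theorem exists_comb {P Q : Mat} (hJ : (P * Q - Q * P).det ≠ 0) (X : Mat) :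
    ∃ m0 m1 m2 m3 : ℝ, X = comb P Q m0 m1 m2 m3 := by
  let f : (Fin 4 → ℝ) →ₗ[ℝ] Mat :=
    { toFun := fun m => comb P Q (m 0) (m 1) (m 2) (m 3)
      map_add' := fun m n => by
        simp only [comb, Pi.add_apply, add_smul]
        abel
      map_smul' := fun c m => by
        simp only [comb, Pi.smul_apply, smul_eq_mul, mul_smul, smul_add, RingHom.id_apply] }
  have hinj : Function.Injective f := by
    rw [← LinearMap.ker_eq_bot, LinearMap.ker_eq_bot']
    intro m hm
    have hm' : comb P Q (m 0) (m 1) (m 2) (m 3) = 0 := hm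
    set J := P * Q - Q * P with hJdef
    have h1 : ((m 2) • (1 : Mat) + (m 3) • P) * J = 0 := by
      have h2 : P * comb P Q (m 0) (m 1) (m 2) (m 3) - comb P Q (m 0) (m 1) (m 2) (m 3) * P = 0 := by
        rw [hm', mul_zero, zero_mul, sub_zero]
      rw [← h2, hJdef]
      simp only [comb, mul_add, add_mul, mul_sub, smul_mul_assoc, mul_smul_comm, one_mul, mul_one, mul_assoc]
      module
    have hJu : IsUnit J.det := isUnit_iff_ne_zero.mpr hJ
    have h3 : (m 2) • (1 : Mat) + (m 3) • P = 0 := by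
      have h4 := congrArg (fun Z => Z * J⁻¹) h1
      simp only [mul_assoc, Matrix.mul_nonsing_inv J hJu, mul_one, zero_mul] at h4
      exact h4
    obtain ⟨k2, k3⟩ := scalar_zero hJ h3
    have h5 : (m 0) • (1 : Mat) + (m 1) • P = 0 := by
      have : comb P Q (m 0) (m 1) (m 2) (m 3) = (m 0) • (1 : Mat) + (m 1) • P := by
        rw [comb, k2, k3]
        simp
      rw [← this, hm']
    obtain ⟨k0, k1⟩ := scalar_zero hJ h5
    funext i
    fin_cases i
    · exact k0
    · exact k1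
    · exact k2
    · exact k3
  have hsurj : Function.Surjective f :=
    (LinearMap.injective_iff_surjective_of_finrank_eq_finrank (by simp [Module.finrank_matrix])).mp hinj
  obtain ⟨m, hm⟩ := hsurj X
  exact ⟨m 0, m 1, m 2, m 3, hm.symm⟩

/-- If the transcendence degree goes up by the number of steps, then no step is algebraic: three steps and an
algebraic one. -/
theorem not_alg_three {M : IntermediateField ℚ ℝ} {m1 m2 m3 m0 : ℝ}
    (halg : IsAlgebraic (adj (adj (adj M m1) m2) m3) m0)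
    (hn : td M + (3 : ℕ) ≤ td (adj (adj (adj (adj M m1) m2) m3) m0))
    (hfin : td (adj (adj (adj (adj M m1) m2) m3) m0) < ℵ₀) :
    ¬ IsAlgebraic M m1 ∧ ¬ IsAlgebraic (adj M m1) m2 ∧ ¬ IsAlgebraic (adj (adj M m1) m2) m3 := by
  have hM : td M < ℵ₀ := (le_self_add.trans hn).trans_lt hfin
  have h1 := td_adj_le M m1
  have h2 := td_adj_le (adj M m1) m2
  have h3 := td_adj_le (adj (adj M m1) m2) m3
  have h4 := td_adj_of_algebraic halg
  have f1 : td (adj M m1) < ℵ₀ := h1.trans_lt (add_lt_aleph0 hM one_lt_aleph0)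
  have f2 : td (adj (adj M m1) m2) < ℵ₀ := h2.trans_lt (add_lt_aleph0 f1 one_lt_aleph0)
  have f3 : td (adj (adj (adj M m1) m2) m3) < ℵ₀ := h3.trans_lt (add_lt_aleph0 f2 one_lt_aleph0)
  have g1 : IsAlgebraic M m1 → td (adj M m1) ≤ td M := fun h => td_adj_of_algebraic h
  have g2 : IsAlgebraic (adj M m1) m2 → td (adj (adj M m1) m2) ≤ td (adj M m1) := fun h => td_adj_of_algebraic h
  have g3 : IsAlgebraic (adj (adj M m1) m2) m3 → td (adj (adj (adj M m1) m2) m3) ≤ td (adj (adj M m1) m2) :=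
    fun h => td_adj_of_algebraic h
  obtain ⟨a, ha⟩ := lt_aleph0.mp hM
  obtain ⟨b, hb⟩ := lt_aleph0.mp f1
  obtain ⟨c, hc⟩ := lt_aleph0.mp f2
  obtain ⟨d, hd⟩ := lt_aleph0.mp f3
  obtain ⟨f, hf⟩ := lt_aleph0.mp hfin
  rw [ha] at hn h1 g1
  rw [hb] at h1 h2 g1 g2
  rw [hc] at h2 h3 g2 g3
  rw [hd] at h3 h4 g3
  rw [hf] at hn h4
  norm_cast at hn h1 h2 h3 h4 g1 g2 g3
  refine ⟨fun h => ?_, fun h => ?_, fun h => ?_⟩
  · have := g1 h
    omega
  · have := g2 h
    omega
  · have := g3 h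
    omega

/-- The stage of a matrix without a relation. -/
theorem stage_free {P Q : Mat} (hP : P.det = 1) (hQ : Q.det = 1) (hJ : (P * Q - Q * P).det ≠ 0)
    {M : IntermediateField ℚ ℝ} (hx : P.trace ∈ M) (hy : Q.trace ∈ M) (hz : (P * Q).trace ∈ M)
    {X : Mat} (hX : X.det = 1) : ∃ M' : IntermediateField ℚ ℝ, Stage P Q M M' 3 ∧ InAlg M' P Q X := by
  obtain ⟨m0, m1, m2, m3, hXc⟩ := exists_comb hJ X
  have hq : qf P.trace Q.trace (P * Q).trace m0 m1 m2 m3 = 1 := by rw [← comb_det hP hQ, ← hXc, hX]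
  set x := P.trace with hxd
  set y := Q.trace with hyd
  set z := (P * Q).trace with hzd
  set M1 := adj M m1 with hM1
  set M2 := adj M1 m2 with hM2
  set M3 := adj M2 m3 with hM3
  set M4 := adj M3 m0 with hM4
  have l1 : M ≤ M1 := le_adj _ _
  have l2 : M1 ≤ M2 := le_adj _ _
  have l3 : M2 ≤ M3 := le_adj _ _
  have l4 : M3 ≤ M4 := le_adj _ _
  have i1 : m1 ∈ M1 := mem_adj _ _
  have i2 : m2 ∈ M2 := mem_adj _ _
  have i3 : m3 ∈ M3 := mem_adj _ _
  have i0 : m0 ∈ M4 := mem_adj _ _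
  have j1 : m1 ∈ M3 := l3 (l2 i1)
  have j2 : m2 ∈ M3 := l3 i2
  have jx : x ∈ M3 := l3 (l2 (l1 hx))
  have jy : y ∈ M3 := l3 (l2 (l1 hy))
  have jz : z ∈ M3 := l3 (l2 (l1 hz))
  obtain ⟨β, hβ⟩ : ∃ β, β = x * m1 + y * m2 + z * m3 := ⟨_, rfl⟩
  obtain ⟨γ, hγ⟩ : ∃ γ, γ = qf x y z 0 m1 m2 m3 - 1 := ⟨_, rfl⟩
  have hβM : β ∈ M3 := by
    rw [hβ]
    exact M3.add_mem (M3.add_mem (M3.mul_mem jx j1) (M3.mul_mem jy j2)) (M3.mul_mem jz i3)
  have hqM : qf x y z 0 m1 m2 m3 ∈ M3 := by
    rw [hxd, hyd, hzd, ← comb_det hP hQ]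
    exact InAlg.det_mem hP hQ jx jy jz ⟨0, M3.zero_mem, m1, j1, m2, j2, m3, i3, rfl⟩
  have hγM : γ ∈ M3 := by
    rw [hγ]
    exact M3.sub_mem hqM M3.one_mem
  have heq : (1 : ℝ) * m0 ^ 2 + β * m0 + γ = 0 := by
    rw [hβ, hγ]
    unfold qf at hq ⊢
    linear_combination hq
  have halg : IsAlgebraic M3 m0 := isAlgebraic_of_quadratic M3.one_mem hβM hγM one_ne_zero heq
  refine ⟨M4, ⟨((l1.trans l2).trans l3).trans l4, ?_, ?_⟩, ?_⟩
  · calc td M4 ≤ td M3 := td_adj_of_algebraic halg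
      _ ≤ td M2 + 1 := td_adj_le _ _
      _ ≤ (td M1 + 1) + 1 := add_le_add (td_adj_le _ _) le_rfl
      _ ≤ ((td M + 1) + 1) + 1 := add_le_add (add_le_add (td_adj_le _ _) le_rfl) le_rfl
      _ = td M + (3 : ℕ) := by
        rw [add_assoc, add_assoc]
        norm_num
  · intro e he hG hn hfin
    obtain ⟨t1, t2, t3⟩ := not_alg_three halg hn hfin
    subst he
    obtain ⟨S, hS⟩ : ∃ S : ℝ, S = 3 + |e.v x * e.v y - e.v z| + |e.v y| + |e.v x| := ⟨_, rfl⟩
    have hS3 : 3 ≤ S := by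
      rw [hS]
      have a1 := abs_nonneg (e.v x * e.v y - e.v z)
      have a2 := abs_nonneg (e.v y)
      have a3 := abs_nonneg (e.v x)
      linarith
    have hδ : 0 < 1 / S := by positivity
    obtain ⟨e1, he1, hM1', v1, w1⟩ := e.step_transcendental t1 hδ
    have hM1'' : e1.M = M1 := hM1'
    obtain ⟨e2, he2, hM2', v2, w2⟩ := e1.step_transcendental (c := m2) (by rw [hM1'']; exact t2) hδ
    have hM2'' : e2.M = M2 := by rw [hM2', hM1'']
    obtain ⟨e3, he3, hM3', v3, w3⟩ := e2.step_transcendental (c := m3) (by rw [hM2'']; exact t3) hδ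
    have hM3'' : e3.M = M3 := by rw [hM3', hM2'']
    have u1 : e3.v m1 = e1.v m1 := by
      rw [he3.2 _ (by rw [hM2'']; exact l2 i1), he2.2 _ (by rw [hM1'']; exact i1)]
    have u2 : e3.v m2 = e2.v m2 := by
      rw [he3.2 _ (by rw [hM2'']; exact i2)]
    have hle3 : e.le e3 := Emb.le_trans he1 (Emb.le_trans he2 he3)
    have ux : e3.v x = e.v x := hle3.2 _ hx
    have uy : e3.v y = e.v y := hle3.2 _ hy
    have uz : e3.v z = e.v z := hle3.2 _ hz
    have hβ3 : β ∈ e3.M := by rw [hM3'']; exact hβM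
    have hγ3 : γ ∈ e3.M := by rw [hM3'']; exact hγM
    have hvγ : e3.v γ ≤ 0 := by
      rw [hγ, e3.v_sub (by rw [hM3'']; exact hqM) e3.M.one_mem, e3.v_one,
        e3.v_qf (by rw [hM3'']; exact jx) (by rw [hM3'']; exact jy) (by rw [hM3'']; exact jz) e3.M.zero_mem
          (by rw [hM3'']; exact j1) (by rw [hM3'']; exact j2) (by rw [hM3'']; exact i3), ux, uy, uz, u1, u2]
      have hv0 : e3.v 0 = 0 := by
        have := e3.v_coe 0
        rw [map_zero] at this
        exact this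
      rw [hv0]
      generalize e1.v m1 = p at *
      generalize e2.v m2 = q at *
      generalize e3.v m3 = r at *
      generalize e.v x = X at *
      generalize e.v y = Y at *
      generalize e.v z = Z at *
      have hS0 : 0 < S := by linarith
      obtain ⟨d, hd⟩ : ∃ d, d = 1 / S := ⟨_, rfl⟩
      rw [← hd] at w1 w2 w3 hδ
      have hdS : d * S = 1 := by rw [hd]; field_simp
      have hd1 : d ≤ 1 := by nlinarith
      unfold qf
      have b1 : p * q * (X * Y - Z) ≤ d ^ 2 * |X * Y - Z| := by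
        calc p * q * (X * Y - Z) ≤ p * q * |X * Y - Z| :=
              mul_le_mul_of_nonneg_left (le_abs_self _) (by positivity)
          _ ≤ d ^ 2 * |X * Y - Z| := mul_le_mul_of_nonneg_right (by nlinarith) (abs_nonneg _)
      have b2 : p * r * Y ≤ d ^ 2 * |Y| := by
        calc p * r * Y ≤ p * r * |Y| := mul_le_mul_of_nonneg_left (le_abs_self _) (by positivity)
          _ ≤ d ^ 2 * |Y| := mul_le_mul_of_nonneg_right (by nlinarith) (abs_nonneg _)
      have b3 : q * r * X ≤ d ^ 2 * |X| := by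
        calc q * r * X ≤ q * r * |X| := mul_le_mul_of_nonneg_left (le_abs_self _) (by positivity)
          _ ≤ d ^ 2 * |X| := mul_le_mul_of_nonneg_right (by nlinarith) (abs_nonneg _)
      have b4 : p ^ 2 ≤ d ^ 2 := by nlinarith
      have b5 : q ^ 2 ≤ d ^ 2 := by nlinarith
      have b6 : r ^ 2 ≤ d ^ 2 := by nlinarith
      have b7 : d ^ 2 * S ≤ 1 := by
        have : d ^ 2 * S = d := by
          calc d ^ 2 * S = d * (d * S) := by ring
            _ = d := by rw [hdS, mul_one]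
        linarith
      rw [hS] at b7
      nlinarith
    obtain ⟨e4, he4, hM4'⟩ := e3.step_quadratic (c := m0) e3.M.one_mem hβ3 hγ3 one_ne_zero heq (by
      rw [e3.v_one]
      nlinarith [sq_nonneg (e3.v β)])
    exact ⟨e4, Emb.le_trans hle3 he4, by rw [hM4', hM3'']⟩
  · exact ⟨m0, i0, m1, l4 j1, m2, l4 j2, m3, l4 i3, hXc⟩

end Pool.Agent.LCC
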