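import Pool.Agent.LCC.LastB
import Pool.Agent.LCC.Cusp

/-!
# LCC/Surf: generic closed surfaces have a conjugate in the orthogonal group of a definite form
-/

namespace Pool.Agent.LCC

open Cardinal
open scoped MatrixGroups commutatorElement

/-- A group generated by the standard generators of the fundamental group of a closed surface of genus `g`, all
of whose non-trivial elements are hyperbolic. -/
def ClosedSurface (g : ℕ) (Γ : Subgroup SL(2, ℝ)) : Prop :=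
  ∃ A B : ℕ → SL(2, ℝ), Γ = Subgroup.closure {x | ∃ i < g, x = A i ∨ x = B i} ∧
    ((List.range g).map fun i => ⁅A i, B i⁆).prod = 1 ∧ (∀ i < g, ⁅A i, B i⁆ ≠ 1) ∧
    ∀ γ ∈ Γ, γ ≠ 1 → 2 < |tr γ|

theorem td_mono {M M' : IntermediateField ℚ ℝ} (h : M ≤ M') : td M ≤ td M' :=
  trdeg_le_of_injective (IntermediateField.inclusion h) (IntermediateField.inclusion_injective h)

theorem td_bot : td ⊥ = 0 := by
  unfold td
  have : Algebra.IsAlgebraic ℚ (⊥ : IntermediateField ℚ ℝ) := inferInstance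
  exact trdeg_eq_zero

/-- The trivial embedding. -/
noncomputable def Emb.bot : Emb where
  M := ⊥
  cnt := (IntermediateField.botEquiv ℚ ℝ).toEquiv.countable_iff.mpr inferInstance
  σ := (⊥ : IntermediateField ℚ ℝ).val.toRingHom

theorem coe_inv' (γ : SL(2, ℝ)) : ((γ⁻¹ : SL(2, ℝ)) : Mat) = (γ : Mat).trace • (1 : Mat) - (γ : Mat) := by
  obtain ⟨h1, h2, h3, h4⟩ := inv_entries γ
  apply mat_ext <;> simp only [Matrix.sub_apply, Matrix.smul_apply, Matrix.trace_fin_two, smul_eq_mul, one00, one01,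
    one10, one11]
  · rw [h1]; ring
  · rw [h2]; ring
  · rw [h3]; ring
  · rw [h4]; ring

/-- The elements of `SL(2, ℝ)` in the algebra spanned by `1, P, Q, P Q`. -/
def algSub (M : IntermediateField ℚ ℝ) (P Q : SL(2, ℝ)) (hx : (P : Mat).trace ∈ M) (hy : (Q : Mat).trace ∈ M)
    (hz : ((P : Mat) * (Q : Mat)).trace ∈ M) : Subgroup SL(2, ℝ) where
  carrier := {γ | InAlg M P Q γ}
  mul_mem' := by
    intro a b ha hb
    show InAlg M P Q ((a * b : SL(2, ℝ)) : Mat)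
    rw [Matrix.SpecialLinearGroup.coe_mul]
    exact InAlg.mul P.2 Q.2 hx hy hz ha hb
  one_mem' := InAlg.one
  inv_mem' := by
    intro a ha
    show InAlg M P Q ((a⁻¹ : SL(2, ℝ)) : Mat)
    rw [coe_inv']
    exact InAlg.adj hx hy hz ha

theorem det_comm_SL (P Q : SL(2, ℝ)) : ((P : Mat) * Q - (Q : Mat) * P).det = 2 - tr ⁅P, Q⁆ := by
  have h0 : ⁅P, Q⁆ * (Q * P) = P * Q := by
    rw [commutatorElement_def, mul_assoc, mul_assoc, mul_assoc, inv_mul_cancel_left, inv_mul_cancel, mul_one]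
  have h1 : ((P : Mat) * Q - (Q : Mat) * P) = (((⁅P, Q⁆ : SL(2, ℝ)) : Mat) - 1) * ((Q * P : SL(2, ℝ)) : Mat) := by
    have e : ((⁅P, Q⁆ * (Q * P) : SL(2, ℝ)) : Mat) = ((P * Q : SL(2, ℝ)) : Mat) := by rw [h0]
    rw [Matrix.SpecialLinearGroup.coe_mul, Matrix.SpecialLinearGroup.coe_mul Q P,
      Matrix.SpecialLinearGroup.coe_mul P Q] at e
    rw [sub_mul, one_mul, Matrix.SpecialLinearGroup.coe_mul, e]
  rw [h1, Matrix.det_mul, (Q * P).2, mul_one, Matrix.det_fin_two, tr_eq]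
  have h2 := det_eq ⁅P, Q⁆
  simp only [Matrix.sub_apply, one00, one01, one10, one11]
  linear_combination h2

/-- The stages of a list of matrices without relations. -/
theorem stage_list {P Q : SL(2, ℝ)} (hJ : ((P : Mat) * Q - (Q : Mat) * P).det ≠ 0) (L : List SL(2, ℝ)) :
    ∀ {M : IntermediateField ℚ ℝ} (_ : (P : Mat).trace ∈ M) (_ : (Q : Mat).trace ∈ M)
    (_ : ((P : Mat) * (Q : Mat)).trace ∈ M), ∃ M' : IntermediateField ℚ ℝ, Stage P Q M M' (3 * L.length) ∧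
      ∀ X ∈ L, InAlg M' P Q (X : Mat) := by
  induction L with
  | nil =>
    intro M _ _ _
    exact ⟨M, Stage.refl _ _ _, by simp⟩
  | cons X L ih =>
    intro M hx hy hz
    obtain ⟨M1, h1, hX⟩ := stage_free P.2 Q.2 hJ hx hy hz X.2
    obtain ⟨M2, h2, hL⟩ := ih (h1.le hx) (h1.le hy) (h1.le hz)
    refine ⟨M2, ?_, ?_⟩
    · have := h1.trans h2
      rwa [List.length_cons, show 3 * (L.length + 1) = 3 + 3 * L.length by ring]
    · intro Y hY
      rcases List.mem_cons.mp hY with h | h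
      · rw [h]
        exact hX.mono h2.le
      · exact hL Y h

/-- The first stage: the traces of `P`, `Q`, `P Q`. -/
theorem stage_first (P Q : Mat) : ∃ M : IntermediateField ℚ ℝ, P.trace ∈ M ∧ Q.trace ∈ M ∧ (P * Q).trace ∈ M ∧
    td M ≤ (3 : ℕ) ∧ (((3 : ℕ) : Cardinal) ≤ td M → ∃ e : Emb, e.M = M ∧ Good e P Q) := by
  set x := P.trace with hx
  set y := Q.trace with hy
  set z := (P * Q).trace with hz
  set M1 := adj ⊥ x with hM1
  set M2 := adj M1 y with hM2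
  set M3 := adj M2 z with hM3
  have l1 : M1 ≤ M2 := le_adj _ _
  have l2 : M2 ≤ M3 := le_adj _ _
  have i1 : x ∈ M1 := mem_adj _ _
  have i2 : y ∈ M2 := mem_adj _ _
  have i3 : z ∈ M3 := mem_adj _ _
  have htd : td M3 ≤ (3 : ℕ) := by
    calc td M3 ≤ td M2 + 1 := td_adj_le _ _
      _ ≤ (td M1 + 1) + 1 := add_le_add (td_adj_le _ _) le_rfl
      _ ≤ ((td ⊥ + 1) + 1) + 1 := add_le_add (add_le_add (td_adj_le _ _) le_rfl) le_rfl
      _ = (3 : ℕ) := by
        rw [td_bot]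
        norm_num
  refine ⟨M3, l2 (l1 i1), l2 i2, i3, htd, fun h3 => ?_⟩
  have halg : IsAlgebraic M3 (0 : ℝ) := isAlgebraic_zero
  have hle := td_adj_of_algebraic halg
  obtain ⟨t1, t2, t3⟩ := not_alg_three (M := ⊥) (m1 := x) (m2 := y) (m3 := z) (m0 := 0) halg (by
    rw [td_bot, zero_add]
    exact h3.trans (td_mono (le_adj _ _))) (hle.trans_lt (htd.trans_lt (natCast_lt_aleph0)))
  obtain ⟨e1, he1, hM1', v1, w1⟩ := Emb.bot.step_transcendental t1 (show (0 : ℝ) < 1 / 2 by norm_num)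
  have hM1'' : e1.M = M1 := hM1'
  obtain ⟨e2, he2, hM2', v2, w2⟩ := e1.step_transcendental (c := y) (by rw [hM1'']; exact t2)
    (show (0 : ℝ) < 1 / 2 by norm_num)
  have hM2'' : e2.M = M2 := by rw [hM2', hM1'']
  obtain ⟨e3, he3, hM3', v3, w3⟩ := e2.step_transcendental (c := z) (by rw [hM2'']; exact t3)
    (show (0 : ℝ) < 1 / 2 by norm_num)
  have hM3'' : e3.M = M3 := by rw [hM3', hM2'']
  have u1 : e3.v x = e1.v x := by
    rw [he3.2 _ (by rw [hM2'']; exact l1 i1), he2.2 _ (by rw [hM1'']; exact i1)]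
  have u2 : e3.v y = e2.v y := he3.2 _ (by rw [hM2'']; exact i2)
  refine ⟨e3, hM3'', ⟨by rw [hM3'']; exact l2 (l1 i1), by rw [hM3'']; exact l2 i2, by rw [hM3'']; exact i3, ?_, ?_⟩⟩
  · rw [← hx, u1]
    nlinarith
  · rw [← hx, ← hy, ← hz, u1, u2]
    have : 0 < e1.v x * e2.v y * e3.v z := by positivity
    nlinarith

theorem sqSub_le (Γ : Subgroup SL(2, ℝ)) : sqSub Γ ≤ Γ := by
  rw [sqSub, Subgroup.closure_le]
  rintro x ⟨γ, hγ, rfl⟩
  exact pow_mem hγ 2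

theorem exists_definite {g : ℕ} (hg : 2 ≤ g) {Γ : Subgroup SL(2, ℝ)} (hΓ : ClosedSurface g Γ)
    (htd : ((6 * g - 6 : ℕ) : Cardinal) ≤ Algebra.trdeg ℚ (kf Γ)) :
    ∃ σ : kf Γ →+* ℝ, ∀ (w : SL(2, ℝ)) (hw : w ∈ Γ), σ ⟨tr (w ^ 2), tr_mem_kf (sq_mem_sqSub hw)⟩ ^ 2 ≤ 4 := by
  obtain ⟨A, B, hcl, hprod, hne, hhyp⟩ := hΓ
  obtain ⟨n, rfl⟩ : ∃ n, g = n + 2 := ⟨g - 2, by omega⟩
  have hAΓ : ∀ i < n + 2, A i ∈ Γ := fun i hi => by
    rw [hcl]
    exact Subgroup.subset_closure ⟨i, hi, Or.inl rfl⟩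
  have hBΓ : ∀ i < n + 2, B i ∈ Γ := fun i hi => by
    rw [hcl]
    exact Subgroup.subset_closure ⟨i, hi, Or.inr rfl⟩
  have hCΓ : ∀ i < n + 2, ⁅A i, B i⁆ ∈ Γ := fun i hi => by
    rw [commutatorElement_def]
    exact mul_mem (mul_mem (mul_mem (hAΓ i hi) (hBΓ i hi)) (inv_mem (hAΓ i hi))) (inv_mem (hBΓ i hi))
  set P := A 0 with hPdef
  set Q := B 0 with hQdef
  have hJ : ((P : Mat) * Q - (Q : Mat) * P).det ≠ 0 := by
    rw [det_comm_SL]
    have h1 := hhyp _ (hCΓ 0 (by omega)) (hne 0 (by omega))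
    intro h2
    have h3 : tr ⁅P, Q⁆ = 2 := by linarith
    rw [h3] at h1
    norm_num at h1
  obtain ⟨M0, hx0, hy0, hz0, htd0, hext0⟩ := stage_first (P : Mat) (Q : Mat)
  obtain ⟨L, hL⟩ : ∃ L, L = (List.range n).flatMap (fun i => [A (i + 1), B (i + 1)]) := ⟨_, rfl⟩
  have hLlen : L.length = 2 * n := by
    rw [hL, List.length_flatMap]
    simp [mul_comm]
  have hLmem : ∀ i, 0 < i → i < n + 1 → A i ∈ L ∧ B i ∈ L := by
    intro i h0 hi
    rw [hL, List.mem_flatMap, List.mem_flatMap]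
    constructor
    · exact ⟨i - 1, List.mem_range.mpr (by omega), by rw [Nat.sub_add_cancel h0]; simp⟩
    · exact ⟨i - 1, List.mem_range.mpr (by omega), by rw [Nat.sub_add_cancel h0]; simp⟩
  obtain ⟨M1, hS1, hin1⟩ := stage_list hJ L hx0 hy0 hz0
  have hx1 := hS1.le hx0
  have hy1 := hS1.le hy0
  have hz1 := hS1.le hz0
  have hmem1 : ∀ i < n + 1, A i ∈ algSub M1 P Q hx1 hy1 hz1 ∧ B i ∈ algSub M1 P Q hx1 hy1 hz1 := by
    intro i hi
    rcases Nat.eq_zero_or_pos i with h | h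
    · subst h
      exact ⟨InAlg.left, InAlg.right⟩
    · exact ⟨hin1 _ (hLmem i h hi).1, hin1 _ (hLmem i h hi).2⟩
  set C := ⁅A (n + 1), B (n + 1)⁆ with hCdef
  have hC1 : C ∈ algSub M1 P Q hx1 hy1 hz1 := by
    have h1 : ((List.range (n + 1)).map fun i => ⁅A i, B i⁆).prod ∈ algSub M1 P Q hx1 hy1 hz1 := by
      apply Subgroup.list_prod_mem
      intro x hx
      obtain ⟨i, hi, rfl⟩ := List.mem_map.mp hx
      have hi' := List.mem_range.mp hi
      rw [commutatorElement_def]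
      exact mul_mem (mul_mem (mul_mem (hmem1 i hi').1 (hmem1 i hi').2) (inv_mem (hmem1 i hi').1))
        (inv_mem (hmem1 i hi').2)
    rw [List.range_succ, List.map_append, List.prod_append] at hprod
    simp only [List.map_cons, List.map_nil, List.prod_cons, List.prod_nil, mul_one] at hprod
    rw [hCdef, eq_inv_of_mul_eq_one_right hprod]
    exact inv_mem h1
  have hCh := hhyp _ (hCΓ (n + 1) (by omega)) (hne (n + 1) (by omega))
  rw [← hCdef] at hCh
  have hsq : ∀ {t : ℝ}, 2 < |t| → t ^ 2 ≠ 4 := by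
    intro t ht h
    rw [← sq_abs] at h
    nlinarith
  have hCt : (C : Mat).trace ^ 2 ≠ 4 := hsq hCh
  have hA1 : A (n + 1) ≠ 1 := by
    intro h
    apply hne (n + 1) (by omega)
    rw [h, commutatorElement_one_left]
  have hAt : ((A (n + 1) : SL(2, ℝ)) : Mat).trace ^ 2 ≠ 4 := hsq (hhyp _ (hAΓ (n + 1) (by omega)) hA1)
  have hrel : ((A (n + 1) : SL(2, ℝ)) : Mat) * (B (n + 1) : SL(2, ℝ)) =
      (C : Mat) * (((B (n + 1) : SL(2, ℝ)) : Mat) * (A (n + 1) : SL(2, ℝ))) := by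
    have h0 : A (n + 1) * B (n + 1) = C * (B (n + 1) * A (n + 1)) := by
      rw [hCdef, commutatorElement_def, mul_assoc, mul_assoc, mul_assoc, inv_mul_cancel_left, inv_mul_cancel, mul_one]
    have e : ((A (n + 1) * B (n + 1) : SL(2, ℝ)) : Mat) = ((C * (B (n + 1) * A (n + 1)) : SL(2, ℝ)) : Mat) := by
      rw [h0]
    rw [Matrix.SpecialLinearGroup.coe_mul, Matrix.SpecialLinearGroup.coe_mul C,
      Matrix.SpecialLinearGroup.coe_mul (B (n + 1))] at e
    exact e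
  obtain ⟨M2, hS2, hA2⟩ := stage_A P.2 Q.2 hJ hx1 hy1 hz1 hC1 C.2 hCt (A (n + 1)).2 (B (n + 1)).2 hrel
  have hx2 := hS2.le hx1
  have hy2 := hS2.le hy1
  have hz2 := hS2.le hz1
  have hC2 : InAlg M2 P Q C := InAlg.mono hS2.le hC1
  obtain ⟨M3, hS3, hB3⟩ := stage_B P.2 Q.2 hJ hx2 hy2 hz2 hA2 hC2 (A (n + 1)).2 C.2 (B (n + 1)).2 hrel hAt
  have hx3 := hS3.le hx2
  have hy3 := hS3.le hy2
  have hz3 := hS3.le hz2
  have hS := (hS1.trans hS2).trans hS3
  rw [hLlen] at hS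
  -- all of `Γ` lies in the algebra over `M3`
  have hΓ3 : Γ ≤ algSub M3 P Q hx3 hy3 hz3 := by
    rw [hcl, Subgroup.closure_le]
    rintro x ⟨i, hi, hx⟩
    show InAlg M3 P Q x
    by_cases h : i = n + 1
    · subst h
      rcases hx with rfl | rfl
      · exact InAlg.mono hS3.le hA2
      · exact hB3
    · have h' := hmem1 i (by omega)
      rcases hx with rfl | rfl
      · exact InAlg.mono (hS2.le.trans hS3.le) h'.1
      · exact InAlg.mono (hS2.le.trans hS3.le) h'.2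
  have hkf : kf Γ ≤ M3 := by
    rw [kf, IntermediateField.adjoin_le_iff]
    rintro x ⟨γ, hγ, rfl⟩
    exact InAlg.trace_mem hx3 hy3 hz3 (hΓ3 (sqSub_le Γ hγ))
  have htd3 : ((6 * (n + 2) - 6 : ℕ) : Cardinal) ≤ td M3 := htd.trans (td_mono hkf)
  have hle3 := hS.td_le
  have hfin0 : td M0 < ℵ₀ := htd0.trans_lt natCast_lt_aleph0
  have hfin3 : td M3 < ℵ₀ := hle3.trans_lt (add_lt_aleph0 hfin0 natCast_lt_aleph0)
  obtain ⟨a, ha⟩ := lt_aleph0.mp hfin0
  obtain ⟨b, hb⟩ := lt_aleph0.mp hfin3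
  have k0 : a ≤ 3 := by
    rw [ha] at htd0
    exact_mod_cast htd0
  have k1 : b ≤ a + (3 * (2 * n) + 2 + 1) := by
    rw [ha, hb] at hle3
    exact_mod_cast hle3
  have k2 : 6 * (n + 2) - 6 ≤ b := by
    rw [hb] at htd3
    exact_mod_cast htd3
  obtain ⟨e0, he0, hG0⟩ := hext0 (by
    rw [ha]
    have : 3 ≤ a := by omega
    exact_mod_cast this)
  obtain ⟨e, hle, he⟩ := hS.ext e0 he0 hG0 (by
    rw [ha, hb]
    have : a + (3 * (2 * n) + 2 + 1) ≤ b := by omega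
    exact_mod_cast this) hfin3
  have hG := hG0.mono hle
  have hkf' : kf Γ ≤ e.M := by rw [he]; exact hkf
  refine ⟨e.σ.comp (IntermediateField.inclusion hkf').toRingHom, fun w hw => ?_⟩
  have h1 : InAlg e.M P Q ((w ^ 2 : SL(2, ℝ)) : Mat) := by
    rw [he]
    exact hΓ3 (pow_mem hw 2)
  have h2 := hG.tr_le P.2 Q.2 h1
  rw [(w ^ 2).2, e.v_one, mul_one] at h2
  have h3 := e.v_coe ⟨tr (w ^ 2), hkf' (tr_mem_kf (sq_mem_sqSub hw))⟩
  show (e.σ ⟨tr (w ^ 2), hkf' (tr_mem_kf (sq_mem_sqSub hw))⟩) ^ 2 ≤ 4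
  rw [← h3]
  exact h2

end Pool.Agent.LCC
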